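import Pool.Agent.H90S.OPI

/-!
Pieces C1U, C1L of project H90S (helper99): counting lemmas by injections.
-/

namespace Pool.Agent.H90S

lemma bf_add {R : Type} [CommRing R] {d : ℕ} (p q : Fin (d + 1) → ℤ) (u v : R) :
    bf (fun i => p i + q i) u v = bf p u v + bf q u v := by
  unfold bf
  rw [← Finset.sum_add_distrib]
  refine Finset.sum_congr rfl fun i _ => ?_
  push_cast; ring

lemma bf_sub {R : Type} [CommRing R] {d : ℕ} (p q : Fin (d + 1) → ℤ) (u v : R) :
    bf (fun i => p i - q i) u v = bf p u v - bf q u v := by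
  unfold bf
  rw [← Finset.sum_sub_distrib]
  refine Finset.sum_congr rfl fun i _ => ?_
  push_cast; ring

lemma mem_bx {d A : ℕ} (g : Fin (d + 1) → ℤ) : g ∈ bx d A ↔ ∀ i, |g i| ≤ A := by
  unfold bx
  rw [Fintype.mem_piFinset]
  refine forall_congr' fun i => ?_
  rw [Finset.mem_Icc, abs_le]

lemma card_bx (d A : ℕ) : (bx d A).card = (2 * A + 1) ^ (d + 1) := by
  unfold bx
  rw [Fintype.card_piFinset_const, Int.card_Icc]
  congr 1
  · omega

lemma card_bx_two (A : ℕ) : ((bx 6 (2 * A)).card : ℝ) ≤ 128 * (bx 6 A).card := by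
  rw [card_bx, card_bx]
  push_cast
  have h : (2 * (2 * (A : ℝ)) + 1) ≤ 2 * (2 * A + 1) := by linarith
  calc (2 * (2 * (A : ℝ)) + 1) ^ (6 + 1) ≤ (2 * (2 * A + 1)) ^ (6 + 1) :=
        pow_le_pow_left₀ (by positivity) h _
    _ = 128 * (2 * A + 1) ^ (6 + 1) := by ring

lemma int_abs_le_of_real {a : ℤ} {B : ℕ} {r : ℝ} (h : |(a : ℝ)| ≤ r) (hr : r ≤ B) : |a| ≤ B := by
  have h1 : ((|a| : ℤ) : ℝ) ≤ ((B : ℤ) : ℝ) := by
    rw [Int.cast_abs]; push_cast; linarith
  exact_mod_cast h1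

lemma mem_Icc_abs {K : ℕ} {k : ℤ} : k ∈ Finset.Icc (-(K : ℤ)) K ↔ |k| ≤ K := by
  rw [Finset.mem_Icc, abs_le]

theorem t_C1U (h : S_OPI) : S_C1U := by
  obtain ⟨C₀, hC₀, h⟩ := h 6
  refine ⟨256 * C₀, by linarith, fun P A x u hP hx hA => ?_⟩
  have hP0 : (0 : ℝ) < P := by linarith
  have hA0 : (0 : ℝ) < A := lt_of_lt_of_le (by positivity) hA
  choose q hq hqb using h P x hP hx
  set K : ℕ := ⌊1 / (2 * C₀) * A * P ^ 6⌋₊ with hK
  have hC0 : 0 < C₀ := by linarith
  have hKle : (K : ℝ) ≤ 1 / (2 * C₀) * A * P ^ 6 := Nat.floor_le (by positivity)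
  have hKlt : 1 / (2 * C₀) * A * P ^ 6 < (K : ℝ) + 1 := Nat.lt_floor_add_one _
  have hcard : (cnt1 A x u) * (2 * K + 1) ≤ (bx 6 (2 * A)).card := by
    have h1 : (cnt1 A x u) * (2 * K + 1) =
        (((bx 6 A).filter (fun g => bf g x.1 x.2 = u)) ×ˢ Finset.Icc (-(K : ℤ)) K).card := by
      rw [Finset.card_product, Int.card_Icc]
      unfold cnt1
      congr 1
      omega
    rw [h1]
    refine Finset.card_le_card_of_injOn (fun p i => p.1 i + q p.2 i) ?_ ?_
    · rintro ⟨g, k⟩ hp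
      simp only [Finset.coe_product, Set.mem_prod, Finset.mem_coe, Finset.mem_filter] at hp
      obtain ⟨⟨hg, _⟩, hk⟩ := hp
      rw [Finset.mem_coe, mem_bx]
      rw [mem_bx] at hg
      intro i
      have hk' : |(k : ℝ)| ≤ K := by
        rw [mem_Icc_abs] at hk
        exact_mod_cast hk
      have hb : |(q k i : ℝ)| ≤ A := by
        refine (hqb k i).trans ?_
        have h2 : |(k : ℝ)| / P ^ 6 ≤ 1 / (2 * C₀) * A := by
          rw [div_le_iff₀ (by positivity)]
          exact hk'.trans hKle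
        calc C₀ * (|(k : ℝ)| / P ^ 6 + P) ≤ C₀ * (1 / (2 * C₀) * A + P) := by gcongr
          _ = A / 2 + C₀ * P := by field_simp
          _ ≤ A := by nlinarith
      have hb' : |q k i| ≤ (A : ℤ) := int_abs_le_of_real hb le_rfl
      have := hg i
      simp only
      push_cast
      calc |g i + q k i| ≤ |g i| + |q k i| := abs_add_le _ _
        _ ≤ 2 * (A : ℤ) := by linarith
    · rintro ⟨g, k⟩ hp ⟨g', k'⟩ hp' heq
      simp only [Finset.coe_product, Set.mem_prod, Finset.mem_coe, Finset.mem_filter] at hp hp'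
      replace heq : (fun i => g i + q k i) = fun i => g' i + q k' i := heq
      have hval : bf (R := ℤ) (d := 6) (fun i => g i + q k i) x.1 x.2 =
        bf (d := 6) (fun i => g' i + q k' i) x.1 x.2 := by rw [heq]
      rw [bf_add, bf_add, hp.1.2, hp'.1.2, hq, hq] at hval
      have hk : k = k' := by
        have : u + k = u + k' := by exact_mod_cast hval
        linarith
      subst hk
      refine Prod.ext ?_ rfl
      funext i
      have := congrFun heq i
      simpa using this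
  have hcard' : (cnt1 A x u : ℝ) * (1 / (2 * C₀) * A * P ^ 6) ≤ 128 * (bx 6 A).card := by
    calc (cnt1 A x u : ℝ) * (1 / (2 * C₀) * A * P ^ 6) ≤ (cnt1 A x u : ℝ) * (2 * K + 1) := by
          have : (0 : ℝ) ≤ K := Nat.cast_nonneg _
          gcongr
          linarith
      _ = ((cnt1 A x u * (2 * K + 1) : ℕ) : ℝ) := by push_cast; ring
      _ ≤ ((bx 6 (2 * A)).card : ℝ) := by exact_mod_cast hcard
      _ ≤ 128 * (bx 6 A).card := card_bx_two A
  rw [le_div_iff₀ (by positivity)]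
  have h5 : (cnt1 A x u : ℝ) * (A * P ^ 6) = 2 * C₀ * ((cnt1 A x u : ℝ) * (1 / (2 * C₀) * A * P ^ 6)) := by
    field_simp
  rw [h5]
  calc 2 * C₀ * ((cnt1 A x u : ℝ) * (1 / (2 * C₀) * A * P ^ 6)) ≤ 2 * C₀ * (128 * (bx 6 A).card) := by
        gcongr
    _ = 256 * C₀ * (bx 6 A).card := by ring

theorem t_C1L (h : S_OPI) : S_C1L := by
  obtain ⟨C₀, hC₀, h⟩ := h 6
  refine ⟨C₀, hC₀, fun P A B K x u hP hx hB => ?_⟩
  have hP0 : (0 : ℝ) < P := by linarith
  choose q hq hqb using h P x hP hx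
  have h1 : (2 * K + 1) * cnt1 (A + B) x u =
      (Finset.Icc (-(K : ℤ)) K ×ˢ ((bx 6 (A + B)).filter (fun g => bf g x.1 x.2 = u))).card := by
    rw [Finset.card_product, Int.card_Icc]
    unfold cnt1
    congr 1
    omega
  rw [h1]
  unfold near1
  refine Finset.card_le_card_of_injOn
    (fun g => (bf g x.1 x.2 - u, fun i => g i - q (bf g x.1 x.2 - u) i)) ?_ ?_
  · intro g hg
    rw [Finset.mem_coe, Finset.mem_filter, mem_bx] at hg
    obtain ⟨hg, hk⟩ := hg
    rw [Finset.mem_coe, Finset.mem_product, mem_Icc_abs, Finset.mem_filter, mem_bx]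
    refine ⟨hk, fun i => ?_, ?_⟩
    · set k := bf g x.1 x.2 - u with hkdef
      have hk' : |(k : ℝ)| ≤ K := by exact_mod_cast hk
      have hb : |(q k i : ℝ)| ≤ B := by
        refine (hqb k i).trans (le_trans ?_ hB)
        gcongr
      have hb' : |q k i| ≤ (B : ℤ) := int_abs_le_of_real hb le_rfl
      have := hg i
      simp only
      push_cast
      calc |g i - q k i| ≤ |g i| + |q k i| := abs_sub _ _
        _ ≤ (A : ℤ) + B := by linarith
    · simp only
      rw [bf_sub, hq]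
      simp
  · intro g _ g' _ heq
    simp only [Prod.mk.injEq] at heq
    obtain ⟨h2, h3⟩ := heq
    rw [h2] at h3
    funext i
    have := congrFun h3 i
    linarith

end Pool.Agent.H90S
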