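import Pool.Agent.H90S.C2U

/-!
Piece C2S of project H90S (helper99): smoothing inequality for two values.
-/

namespace Pool.Agent.H90S

lemma card_cong (K : ℕ) (Δ m : ℤ) (hΔ : Δ ≠ 0) :
    2 * K / |(Δ : ℝ)| - 1 ≤
      (((Finset.Icc (-(K : ℤ)) K).filter (fun k' => Δ ∣ k' - m)).card : ℝ) := by
  have hr : 0 < |Δ| := abs_pos.mpr hΔ
  have h1 : (Finset.Icc (-(K : ℤ)) K).filter (fun k' => Δ ∣ k' - m) =
      (Finset.Ioc (-(K : ℤ) - 1) K).filter (fun k' => k' ≡ m [ZMOD |Δ|]) := by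
    ext k'
    simp only [Finset.mem_filter, Finset.mem_Icc, Finset.mem_Ioc]
    have h2 : (k' ≡ m [ZMOD |Δ|]) ↔ Δ ∣ k' - m := by
      rw [Int.modEq_comm, Int.modEq_iff_dvd, abs_dvd]
    rw [h2]
    constructor
    · rintro ⟨⟨h3, h4⟩, h5⟩; exact ⟨⟨by omega, h4⟩, h5⟩
    · rintro ⟨⟨h3, h4⟩, h5⟩; exact ⟨⟨by omega, h4⟩, h5⟩
  rw [h1]
  have h3 := Int.Ioc_filter_modEq_card (-(K : ℤ) - 1) K hr m
  have h4 : ((⌊((K : ℤ) - m : ℚ) / ((|Δ| : ℤ) : ℚ)⌋ -
      ⌊(((-(K : ℤ) - 1 : ℤ) : ℚ) - m) / ((|Δ| : ℤ) : ℚ)⌋ : ℤ) : ℤ) ≤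
      (((Finset.Ioc (-(K : ℤ) - 1) K).filter (fun k' => k' ≡ m [ZMOD |Δ|])).card : ℤ) := by
    rw [h3]
    exact le_max_left _ _
  have hrQ : (0 : ℚ) < ((|Δ| : ℤ) : ℚ) := by exact_mod_cast hr
  have h5 : (2 * K / ((|Δ| : ℤ) : ℚ) - 1 : ℚ) ≤
      (((Finset.Ioc (-(K : ℤ) - 1) K).filter (fun k' => k' ≡ m [ZMOD |Δ|])).card : ℚ) := by
    have h6 : ((⌊((K : ℤ) - m : ℚ) / ((|Δ| : ℤ) : ℚ)⌋ -
      ⌊(((-(K : ℤ) - 1 : ℤ) : ℚ) - m) / ((|Δ| : ℤ) : ℚ)⌋ : ℤ) : ℚ) ≤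
      (((Finset.Ioc (-(K : ℤ) - 1) K).filter (fun k' => k' ≡ m [ZMOD |Δ|])).card : ℚ) := by
      exact_mod_cast h4
    refine le_trans ?_ h6
    have h7 := Int.lt_floor_add_one (((K : ℤ) - m : ℚ) / ((|Δ| : ℤ) : ℚ))
    have h8 := Int.floor_le ((((-(K : ℤ) - 1 : ℤ) : ℚ) - m) / ((|Δ| : ℤ) : ℚ))
    have h9 : (2 * K / ((|Δ| : ℤ) : ℚ) : ℚ) ≤ ((K : ℤ) - m : ℚ) / ((|Δ| : ℤ) : ℚ) -
        (((-(K : ℤ) - 1 : ℤ) : ℚ) - m) / ((|Δ| : ℤ) : ℚ) := by
      rw [← sub_div]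
      gcongr
      push_cast
      linarith
    push_cast at h7 h8 h9 ⊢
    linarith
  have h10 : ((2 * K / ((|Δ| : ℤ) : ℚ) - 1 : ℚ) : ℝ) ≤
      ((((Finset.Ioc (-(K : ℤ) - 1) K).filter (fun k' => k' ≡ m [ZMOD |Δ|])).card : ℚ) : ℝ) := by
    exact_mod_cast h5
  push_cast at h10
  exact h10

lemma bf_abs_le {d : ℕ} {q : Fin (d + 1) → ℤ} {u v : ℤ} {M X : ℝ} (hX : 0 ≤ X)
    (hu : |(u : ℝ)| ≤ M) (hv : |(v : ℝ)| ≤ M) (hq : ∀ i, |(q i : ℝ)| ≤ X) :
    |((bf q u v : ℤ) : ℝ)| ≤ (d + 1) * (X * M ^ d) := by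
  have hM : 0 ≤ M := (abs_nonneg _).trans hu
  unfold bf
  push_cast
  refine (Finset.abs_sum_le_sum_abs _ _).trans ?_
  have h1 : ∀ i ∈ (Finset.univ : Finset (Fin (d + 1))),
      |(q i : ℝ) * ((u : ℝ) ^ (i : ℕ) * (v : ℝ) ^ (d - (i : ℕ)))| ≤ X * M ^ d := by
    intro i _
    rw [abs_mul, abs_mul, abs_pow, abs_pow]
    have h2 : M ^ d = M ^ (i : ℕ) * M ^ (d - (i : ℕ)) := by
      rw [← pow_add]; congr 1; omega
    rw [h2]
    have := hq i
    gcongr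
  refine (Finset.sum_le_card_nsmul _ _ _ h1).trans ?_
  rw [Finset.card_univ, Fintype.card_fin, nsmul_eq_mul]
  push_cast
  exact le_rfl

theorem t_C2S (h : S_OPI) : S_C2S := by
  obtain ⟨C₆, hC₆, h6⟩ := h 6
  obtain ⟨C₅, hC₅, h5⟩ := h 5
  obtain ⟨C₀, hC₀, hC60, hC50⟩ : ∃ C₀ : ℝ, 1 ≤ C₀ ∧ C₆ ≤ C₀ ∧ C₅ ≤ C₀ :=
    ⟨max C₆ C₅, le_max_of_le_left hC₆, le_max_left _ _, le_max_right _ _⟩
  refine ⟨30631 * C₀ ^ 2, by nlinarith, fun P κ A B K x y u v hP hx hy hκ hκ1 hwd hB => ?_⟩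
  have hP0 : (0 : ℝ) < P := by linarith
  have hC0 : 0 < C₀ := by linarith
  have hPP : P ≤ P ^ 2 := by nlinarith
  have hK0 : (0 : ℝ) ≤ K := Nat.cast_nonneg _
  have hwdR : (0 : ℝ) < |(wd x y : ℝ)| := lt_of_lt_of_le (by positivity) hwd
  have hwd0 : wd x y ≠ 0 := by
    intro h0
    rw [h0] at hwdR
    simp at hwdR
  choose q hq hqb using h6 P x hP hx
  choose r hr hrb using h5 P y hP hy
  set Δ : ℤ := wd x y with hΔ
  set W : ℝ := (K / P ^ 6 + P ^ 2) / κ with hW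
  have hW1 : K / P ^ 6 + P ^ 2 ≤ W := by
    rw [hW, le_div_iff₀ hκ]
    have : 0 ≤ (K / P ^ 6 + P ^ 2 : ℝ) := by positivity
    nlinarith
  have hW2 : (K / P ^ 6 + P) / κ ≤ W := by
    rw [hW]; gcongr
  have hW0 : 0 ≤ W := by positivity
  -- the correction form
  set cc : ℤ × ℤ → ℤ := fun p => (p.2 - bf (d := 6) (q p.1) y.1 y.2) / Δ with hcc
  set e : ℤ × ℤ → Fin (6 + 1) → ℤ := fun p i => q p.1 i + mulL x.1 x.2 (r (cc p)) i with he
  have hex (p : ℤ × ℤ) : bf (R := ℤ) (d := 6) (e p) x.1 x.2 = p.1 := by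
    rw [he]
    simp only
    rw [bf_add, bf_mulL, hq]
    have h4 : x.1 * x.2 - x.2 * x.1 = 0 := by ring
    simp [h4]
  have hey (p : ℤ × ℤ) (hp : Δ ∣ p.2 - bf (d := 6) (q p.1) y.1 y.2) :
      bf (R := ℤ) (d := 6) (e p) y.1 y.2 = p.2 := by
    rw [he]
    simp only
    rw [bf_add, bf_mulL, hr]
    obtain ⟨c, hc⟩ := hp
    have h4 : cc p = c := by
      rw [hcc]
      simp only
      rw [hc, Int.mul_ediv_cancel_left _ hwd0]
    rw [h4]
    have h7 : x.1 * y.2 - x.2 * y.1 = Δ := rfl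
    simp only [Int.cast_id] at h7 ⊢
    rw [h7]
    linarith
  have heb (p : ℤ × ℤ) (hp1 : |p.1| ≤ K) (hp2 : |p.2| ≤ K)
      (hp : Δ ∣ p.2 - bf (d := 6) (q p.1) y.1 y.2) (i) : |e p i| ≤ (B : ℤ) := by
    have hk1 : |(p.1 : ℝ)| ≤ K := by exact_mod_cast hp1
    have hk2 : |(p.2 : ℝ)| ≤ K := by exact_mod_cast hp2
    have hb1 (j) : |(q p.1 j : ℝ)| ≤ C₀ * (K / P ^ 6 + P) := by
      refine (hqb p.1 j).trans ?_
      gcongr
    have hqy : |((bf (d := 6) (q p.1) y.1 y.2 : ℤ) : ℝ)| ≤ 5103 * C₀ * (K + P ^ 7) := by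
      refine (bf_abs_le (by positivity) hy.le1 hy.le2 hb1).trans (le_of_eq ?_)
      push_cast
      field_simp
      ring
    have hcabs : |(cc p : ℝ)| / P ^ 5 * P ≤ 5104 * C₀ * W := by
      obtain ⟨c, hc⟩ := hp
      have h4 : cc p = c := by
        rw [hcc]
        simp only
        rw [hc, Int.mul_ediv_cancel_left _ hwd0]
      rw [h4]
      have h8 : |(Δ : ℝ)| * |(c : ℝ)| ≤ 5104 * C₀ * (K + P ^ 7) := by
        rw [← abs_mul]
        have h9 : (Δ : ℝ) * c = (p.2 : ℝ) - ((bf (d := 6) (q p.1) y.1 y.2 : ℤ) : ℝ) := by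
          exact_mod_cast hc.symm
        rw [h9]
        calc |(p.2 : ℝ) - ((bf (d := 6) (q p.1) y.1 y.2 : ℤ) : ℝ)| ≤
              |(p.2 : ℝ)| + |((bf (d := 6) (q p.1) y.1 y.2 : ℤ) : ℝ)| := abs_sub _ _
          _ ≤ K + 5103 * C₀ * (K + P ^ 7) := by gcongr
          _ ≤ 5104 * C₀ * (K + P ^ 7) := by
              have : (0 : ℝ) < P ^ 7 := by positivity
              nlinarith
      have h10 : κ * P ^ 2 * |(c : ℝ)| ≤ 5104 * C₀ * (K + P ^ 7) := by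
        refine le_trans ?_ h8
        gcongr
      have h11 : |(c : ℝ)| / P ^ 5 * P ≤ 5104 * C₀ * ((K / P ^ 6 + P) / κ) := by
        have h12 : |(c : ℝ)| / P ^ 5 * P = (κ * P ^ 2 * |(c : ℝ)|) / (κ * P ^ 6) := by
          field_simp
        have h13 : 5104 * C₀ * ((K / P ^ 6 + P) / κ) = (5104 * C₀ * (K + P ^ 7)) / (κ * P ^ 6) := by
          field_simp
        rw [h12, h13]
        gcongr
      refine h11.trans ?_
      gcongr
    refine int_abs_le_of_real (r := 30631 * C₀ ^ 2 * W) ?_ ?_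
    · have hb2 : |(mulL x.1 x.2 (r (cc p)) i : ℝ)| ≤ 30630 * C₀ ^ 2 * W := by
        refine (mulL_bound (by positivity) hx.le1 hx.le2 (hrb (cc p)) i).trans ?_
        calc 2 * (3 * P) * (C₅ * (|(cc p : ℝ)| / P ^ 5 + P)) ≤
              2 * (3 * P) * (C₀ * (|(cc p : ℝ)| / P ^ 5 + P)) := by gcongr
          _ = 6 * C₀ * (|(cc p : ℝ)| / P ^ 5 * P + P ^ 2) := by ring
          _ ≤ 6 * C₀ * (5104 * C₀ * W + C₀ * W) := by
              have h14 : P ^ 2 ≤ C₀ * W := by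
                have h15 : P ^ 2 ≤ W := le_trans (by
                  have : (0 : ℝ) ≤ K / P ^ 6 := by positivity
                  linarith) hW1
                nlinarith
              gcongr
          _ = 30630 * C₀ ^ 2 * W := by ring
      have hb3 : |(q p.1 i : ℝ)| ≤ C₀ ^ 2 * W := by
        refine (hb1 i).trans ?_
        have h16 : K / P ^ 6 + P ≤ W := le_trans (by linarith) hW1
        calc C₀ * (K / P ^ 6 + P) ≤ C₀ * W := by gcongr
          _ ≤ C₀ ^ 2 * W := by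
              have : C₀ ≤ C₀ ^ 2 := by nlinarith
              gcongr
      rw [he]
      simp only
      push_cast
      calc |(q p.1 i : ℝ) + mulL x.1 x.2 (r (cc p)) i| ≤
            |(q p.1 i : ℝ)| + |(mulL x.1 x.2 (r (cc p)) i : ℝ)| := abs_add_le _ _
        _ ≤ 30631 * C₀ ^ 2 * W := by linarith
    · refine le_trans (le_of_eq ?_) hB
      rw [hW]; ring
  -- the pairs
  set S : Finset (ℤ × ℤ) := (Finset.Icc (-(K : ℤ)) K ×ˢ Finset.Icc (-(K : ℤ)) K).filter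
    (fun p => Δ ∣ p.2 - bf (d := 6) (q p.1) y.1 y.2) with hS
  have hScard : (2 * K / |(Δ : ℝ)| - 1) * (2 * K + 1) ≤ (S.card : ℝ) := by
    have h1 : S.card = ∑ k ∈ Finset.Icc (-(K : ℤ)) K,
        ((Finset.Icc (-(K : ℤ)) K).filter
          (fun k' => Δ ∣ k' - bf (d := 6) (q k) y.1 y.2)).card := by
      rw [hS, Finset.card_filter, Finset.sum_product]
      refine Finset.sum_congr rfl fun k _ => ?_
      rw [Finset.card_filter]
    rw [h1]
    push_cast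
    have h2 : ∑ _k ∈ Finset.Icc (-(K : ℤ)) K, (2 * K / |(Δ : ℝ)| - 1) ≤
        ∑ k ∈ Finset.Icc (-(K : ℤ)) K, (((Finset.Icc (-(K : ℤ)) K).filter
          (fun k' => Δ ∣ k' - bf (d := 6) (q k) y.1 y.2)).card : ℝ) :=
      Finset.sum_le_sum fun k _ => card_cong K Δ _ hwd0
    refine le_trans (le_of_eq ?_) h2
    rw [Finset.sum_const, Int.card_Icc, nsmul_eq_mul]
    have h3 : (((K : ℤ) + 1 - -(K : ℤ)).toNat : ℝ) = 2 * K + 1 := by
      have : ((K : ℤ) + 1 - -(K : ℤ)).toNat = 2 * K + 1 := by omega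
      rw [this]; push_cast; ring
    rw [h3]; ring
  have hcard : S.card * cnt2 A x y u v ≤ near2 (A + B) K x y u v := by
    have h1 : S.card * cnt2 A x y u v =
        (S ×ˢ ((bx 6 A).filter (fun g => bf g x.1 x.2 = u ∧ bf g y.1 y.2 = v))).card := by
      rw [Finset.card_product]; rfl
    rw [h1]
    unfold near2
    refine Finset.card_le_card_of_injOn (fun p i => p.2 i + e p.1 i) ?_ ?_
    · rintro ⟨p, g⟩ hp
      rw [Finset.mem_coe, Finset.mem_product, hS, Finset.mem_filter, Finset.mem_product,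
        mem_Icc_abs, mem_Icc_abs, Finset.mem_filter, mem_bx] at hp
      obtain ⟨⟨⟨hp1, hp2⟩, hp3⟩, hg, hgx, hgy⟩ := hp
      rw [Finset.mem_coe, Finset.mem_filter, mem_bx]
      refine ⟨fun i => ?_, ?_, ?_⟩
      · have h2 := hg i
        have h3 := heb p hp1 hp2 hp3 i
        simp only
        push_cast
        calc |g i + e p i| ≤ |g i| + |e p i| := abs_add_le _ _
          _ ≤ (A : ℤ) + B := by linarith
      · simp only
        rw [bf_add, hex p]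
        simp only at hgx
        rw [hgx]
        simpa using hp1
      · simp only
        rw [bf_add, hey p hp3]
        simp only at hgy
        rw [hgy]
        simpa using hp2
    · rintro ⟨p, g⟩ hp ⟨p', g'⟩ hp' heq
      rw [Finset.mem_coe, Finset.mem_product, hS, Finset.mem_filter, Finset.mem_product,
        mem_Icc_abs, mem_Icc_abs, Finset.mem_filter, mem_bx] at hp hp'
      obtain ⟨⟨⟨hp1, hp2⟩, hp3⟩, hg, hgx, hgy⟩ := hp
      obtain ⟨⟨⟨hp1', hp2'⟩, hp3'⟩, hg', hgx', hgy'⟩ := hp'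
      replace heq : (fun i => g i + e p i) = fun i => g' i + e p' i := heq
      simp only at hgx hgy hgx' hgy' hp3 hp3'
      have hvx : bf (R := ℤ) (d := 6) (fun i => g i + e p i) x.1 x.2 =
        bf (d := 6) (fun i => g' i + e p' i) x.1 x.2 := by rw [heq]
      have hvy : bf (R := ℤ) (d := 6) (fun i => g i + e p i) y.1 y.2 =
        bf (d := 6) (fun i => g' i + e p' i) y.1 y.2 := by rw [heq]
      rw [bf_add g (e p), bf_add g' (e p'), hgx, hgx', hex, hex] at hvx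
      rw [bf_add g (e p), bf_add g' (e p'), hgy, hgy', hey p hp3, hey p' hp3'] at hvy
      have hpp : p = p' := Prod.ext (by linarith) (by linarith)
      subst hpp
      refine Prod.ext rfl ?_
      funext i
      have := congrFun heq i
      simpa using this
  calc (2 * K / |(Δ : ℝ)| - 1) * (2 * K + 1) * cnt2 A x y u v ≤ S.card * cnt2 A x y u v := by
        gcongr
    _ = ((S.card * cnt2 A x y u v : ℕ) : ℝ) := by push_cast; ring
    _ ≤ near2 (A + B) K x y u v := by exact_mod_cast hcard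

end Pool.Agent.H90S
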