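import Pool.Agent.H90S.C1U

/-!
Piece C2U of project H90S (helper99): upper bound for the forms with two given values.
-/

namespace Pool.Agent.H90S

/-- the form `(x.1 v - x.2 u) q(u, v)` -/
def mulL {d : ℕ} (a b : ℤ) (q : Fin (d + 1) → ℤ) : Fin (d + 1 + 1) → ℤ := fun i =>
  a * (Fin.snoc q 0 : Fin (d + 1 + 1) → ℤ) i - b * (Fin.cons 0 q : Fin (d + 1 + 1) → ℤ) i

lemma bf_snoc {R : Type} [CommRing R] {d : ℕ} (q : Fin (d + 1) → ℤ) (u v : R) :
    bf (d := d + 1) (Fin.snoc q 0 : Fin (d + 1 + 1) → ℤ) u v = v * bf q u v := by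
  unfold bf
  rw [Fin.sum_univ_castSucc, Finset.mul_sum]
  rw [Fin.snoc_last, Int.cast_zero, zero_mul, add_zero]
  refine Finset.sum_congr rfl fun i _ => ?_
  have h1 : d + 1 - ((Fin.castSucc i : Fin (d + 1 + 1)) : ℕ) = (d - (i : ℕ)) + 1 := by
    rw [Fin.val_castSucc]; omega
  rw [h1, Fin.snoc_castSucc, Fin.val_castSucc]
  ring

lemma bf_mulL {R : Type} [CommRing R] {d : ℕ} (a b : ℤ) (q : Fin (d + 1) → ℤ) (u v : R) :
    bf (mulL a b q) u v = ((a : R) * v - b * u) * bf q u v := by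
  have h1 : bf (mulL a b q) u v = (a : R) * bf (d := d + 1) (Fin.snoc q 0 : Fin (d + 1 + 1) → ℤ) u v -
      b * bf (d := d + 1) (Fin.cons 0 q : Fin (d + 1 + 1) → ℤ) u v := by
    unfold bf mulL
    rw [Finset.mul_sum, Finset.mul_sum, ← Finset.sum_sub_distrib]
    refine Finset.sum_congr rfl fun i _ => ?_
    push_cast; ring
  rw [h1, bf_snoc, bf_cons]
  push_cast; ring

lemma mulL_bound {d : ℕ} {a b : ℤ} {q : Fin (d + 1) → ℤ} {M X : ℝ} (hX : 0 ≤ X)
    (ha : |(a : ℝ)| ≤ M) (hb : |(b : ℝ)| ≤ M) (hq : ∀ i, |(q i : ℝ)| ≤ X) (i : Fin (d + 1 + 1)) :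
    |(mulL a b q i : ℝ)| ≤ 2 * M * X := by
  have hM : 0 ≤ M := (abs_nonneg _).trans ha
  have h1 : |((Fin.snoc q 0 : Fin (d + 1 + 1) → ℤ) i : ℝ)| ≤ X := by
    refine Fin.lastCases ?_ (fun j => ?_) i
    · rw [Fin.snoc_last]; simpa using hX
    · rw [Fin.snoc_castSucc]; exact hq j
  have h2 : |((Fin.cons 0 q : Fin (d + 1 + 1) → ℤ) i : ℝ)| ≤ X := by
    refine Fin.cases ?_ (fun j => ?_) i
    · rw [Fin.cons_zero]; simpa using hX
    · rw [Fin.cons_succ]; exact hq j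
  unfold mulL
  push_cast
  calc |(a : ℝ) * ((Fin.snoc q 0 : Fin (d + 1 + 1) → ℤ) i : ℝ) -
        b * ((Fin.cons 0 q : Fin (d + 1 + 1) → ℤ) i : ℝ)| ≤
        |(a : ℝ) * ((Fin.snoc q 0 : Fin (d + 1 + 1) → ℤ) i : ℝ)| +
        |b * ((Fin.cons 0 q : Fin (d + 1 + 1) → ℤ) i : ℝ)| := abs_sub _ _
    _ ≤ M * X + M * X := by
        rw [abs_mul, abs_mul]
        gcongr
    _ = 2 * M * X := by ring

theorem t_C2U (h : S_OPI) : S_C2U := by
  obtain ⟨C₆, hC₆, h6⟩ := h 6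
  obtain ⟨C₅, hC₅, h5⟩ := h 5
  obtain ⟨C₀, hC₀, hC60, hC50⟩ : ∃ C₀ : ℝ, 1 ≤ C₀ ∧ C₆ ≤ C₀ ∧ C₅ ≤ C₀ :=
    ⟨max C₆ C₅, le_max_of_le_left hC₆, le_max_left _ _, le_max_right _ _⟩
  refine ⟨128 * (24 * C₀) ^ 2, by nlinarith, fun P A x y u v hP hx hy hwd hA => ?_⟩
  have hP0 : (0 : ℝ) < P := by linarith
  have hC0 : 0 < C₀ := by linarith
  have hA0 : (0 : ℝ) < A := lt_of_lt_of_le (by positivity) hA
  have hA' : 24 * C₀ * P ^ 2 ≤ A := by
    refine le_trans ?_ hA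
    have : 24 * C₀ ≤ 128 * (24 * C₀) ^ 2 := by nlinarith
    gcongr
  have hPP : P ≤ P ^ 2 := by nlinarith
  choose q hq hqb using h6 P x hP hx
  choose r hr hrb using h5 P y hP hy
  set c₀ : ℝ := 1 / (24 * C₀) with hc₀
  have hc₀pos : 0 < c₀ := by positivity
  set K : ℕ := ⌊c₀ * A * P ^ 6⌋₊ with hK
  set K' : ℕ := ⌊c₀ * A * P ^ 4⌋₊ with hK'
  have hKle : (K : ℝ) ≤ c₀ * A * P ^ 6 := Nat.floor_le (by positivity)
  have hKlt : c₀ * A * P ^ 6 < (K : ℝ) + 1 := Nat.lt_floor_add_one _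
  have hKle' : (K' : ℝ) ≤ c₀ * A * P ^ 4 := Nat.floor_le (by positivity)
  have hKlt' : c₀ * A * P ^ 4 < (K' : ℝ) + 1 := Nat.lt_floor_add_one _
  have hcard : (cnt2 A x y u v) * ((2 * K + 1) * (2 * K' + 1)) ≤ (bx 6 (2 * A)).card := by
    have h1 : (cnt2 A x y u v) * ((2 * K + 1) * (2 * K' + 1)) =
        (((bx 6 A).filter (fun g => bf g x.1 x.2 = u ∧ bf g y.1 y.2 = v)) ×ˢ
          (Finset.Icc (-(K : ℤ)) K ×ˢ Finset.Icc (-(K' : ℤ)) K')).card := by
      rw [Finset.card_product, Finset.card_product, Int.card_Icc, Int.card_Icc]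
      unfold cnt2
      congr 1
      congr 1 <;> omega
    rw [h1]
    refine Finset.card_le_card_of_injOn
      (fun p i => p.1 i + (q p.2.1 i + mulL x.1 x.2 (r p.2.2) i)) ?_ ?_
    · rintro ⟨g, k, c⟩ hp
      simp only [Finset.coe_product, Set.mem_prod, Finset.mem_coe, Finset.mem_filter] at hp
      obtain ⟨⟨hg, _⟩, hk, hc⟩ := hp
      rw [Finset.mem_coe, mem_bx]
      rw [mem_bx] at hg
      intro i
      have hk' : |(k : ℝ)| ≤ K := by
        rw [mem_Icc_abs] at hk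
        exact_mod_cast hk
      have hc' : |(c : ℝ)| ≤ K' := by
        rw [mem_Icc_abs] at hc
        exact_mod_cast hc
      have hb1 : |(q k i : ℝ)| ≤ A / 2 := by
        refine (hqb k i).trans ?_
        have h2 : |(k : ℝ)| / P ^ 6 ≤ c₀ * A := by
          rw [div_le_iff₀ (by positivity)]
          exact hk'.trans hKle
        calc C₆ * (|(k : ℝ)| / P ^ 6 + P) ≤ C₀ * (c₀ * A + P ^ 2) := by gcongr
          _ = A / 24 + C₀ * P ^ 2 := by rw [hc₀]; field_simp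
          _ ≤ A / 2 := by linarith
      have hb2 : |(mulL x.1 x.2 (r c) i : ℝ)| ≤ A / 2 := by
        have h2 : |(c : ℝ)| / P ^ 5 * P ≤ c₀ * A := by
          rw [div_mul_eq_mul_div, div_le_iff₀ (by positivity)]
          calc |(c : ℝ)| * P ≤ (c₀ * A * P ^ 4) * P := by gcongr; exact hc'.trans hKle'
            _ = c₀ * A * P ^ 5 := by ring
        refine (mulL_bound (by positivity) hx.le1 hx.le2 (hrb c) i).trans ?_
        calc 2 * (3 * P) * (C₅ * (|(c : ℝ)| / P ^ 5 + P)) ≤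
              2 * (3 * P) * (C₀ * (|(c : ℝ)| / P ^ 5 + P)) := by gcongr
          _ = 6 * C₀ * (|(c : ℝ)| / P ^ 5 * P + P ^ 2) := by ring
          _ ≤ 6 * C₀ * (c₀ * A + P ^ 2) := by gcongr
          _ = A / 4 + 6 * C₀ * P ^ 2 := by rw [hc₀]; field_simp; ring
          _ ≤ A / 2 := by linarith
      have hb' : |q k i + mulL x.1 x.2 (r c) i| ≤ (A : ℤ) := by
        refine int_abs_le_of_real (r := A) ?_ le_rfl
        push_cast
        calc |(q k i : ℝ) + mulL x.1 x.2 (r c) i| ≤ |(q k i : ℝ)| + |(mulL x.1 x.2 (r c) i : ℝ)| :=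
              abs_add_le _ _
          _ ≤ A := by linarith
      have := hg i
      simp only
      push_cast
      calc |g i + (q k i + mulL x.1 x.2 (r c) i)| ≤ |g i| + |q k i + mulL x.1 x.2 (r c) i| :=
            abs_add_le _ _
        _ ≤ 2 * (A : ℤ) := by linarith
    · rintro ⟨g, k, c⟩ hp ⟨g', k', c'⟩ hp' heq
      simp only [Finset.coe_product, Set.mem_prod, Finset.mem_coe, Finset.mem_filter] at hp hp'
      replace heq : (fun i => g i + (q k i + mulL x.1 x.2 (r c) i)) =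
        fun i => g' i + (q k' i + mulL x.1 x.2 (r c') i) := heq
      have hval (s : ℤ × ℤ) : bf (R := ℤ) (d := 6) g s.1 s.2 + (bf (d := 6) (q k) s.1 s.2 +
          (x.1 * s.2 - x.2 * s.1) * bf (d := 5) (r c) s.1 s.2) =
        bf (R := ℤ) (d := 6) g' s.1 s.2 + (bf (d := 6) (q k') s.1 s.2 +
          (x.1 * s.2 - x.2 * s.1) * bf (d := 5) (r c') s.1 s.2) := by
        have h2 := congrArg (fun f => bf (R := ℤ) (d := 6) f s.1 s.2) heq
        have h3 (g : Fin (6 + 1) → ℤ) (k c : ℤ) :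
            bf (R := ℤ) (d := 6) (fun i => g i + (q k i + mulL x.1 x.2 (r c) i)) s.1 s.2 =
            bf (R := ℤ) (d := 6) g s.1 s.2 + (bf (d := 6) (q k) s.1 s.2 +
              (x.1 * s.2 - x.2 * s.1) * bf (d := 5) (r c) s.1 s.2) := by
          rw [bf_add, bf_add, bf_mulL]
          simp
        rw [← h3, ← h3]
        exact h2
      have hk : k = k' := by
        have h2 := hval x
        rw [hp.1.2.1, hp'.1.2.1, hq, hq] at h2
        have h3 : u + (k + (x.1 * x.2 - x.2 * x.1) * bf (R := ℤ) (d := 5) (r c) x.1 x.2) =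
          u + (k' + (x.1 * x.2 - x.2 * x.1) * bf (R := ℤ) (d := 5) (r c') x.1 x.2) := by
          exact_mod_cast h2
        have h4 : x.1 * x.2 - x.2 * x.1 = 0 := by ring
        rw [h4] at h3
        linarith
      subst hk
      have hc : c = c' := by
        have h2 := hval y
        rw [hp.1.2.2, hp'.1.2.2, hr, hr] at h2
        have h3 : (x.1 * y.2 - x.2 * y.1) * c = (x.1 * y.2 - x.2 * y.1) * c' := by
          have : v + (bf (R := ℤ) (d := 6) (q k) y.1 y.2 + (x.1 * y.2 - x.2 * y.1) * c) =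
            v + (bf (R := ℤ) (d := 6) (q k) y.1 y.2 + (x.1 * y.2 - x.2 * y.1) * c') := by
            exact_mod_cast h2
          linarith
        exact mul_left_cancel₀ hwd h3
      subst hc
      refine Prod.ext ?_ rfl
      funext i
      have := congrFun heq i
      simpa using this
  have hcard' : (cnt2 A x y u v : ℝ) * ((c₀ * A * P ^ 6) * (c₀ * A * P ^ 4)) ≤
      128 * (bx 6 A).card := by
    calc (cnt2 A x y u v : ℝ) * ((c₀ * A * P ^ 6) * (c₀ * A * P ^ 4)) ≤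
          (cnt2 A x y u v : ℝ) * ((2 * K + 1) * (2 * K' + 1)) := by
          have h1 : (0 : ℝ) ≤ K := Nat.cast_nonneg _
          have h2 : (0 : ℝ) ≤ K' := Nat.cast_nonneg _
          gcongr
          · linarith
          · linarith
      _ = ((cnt2 A x y u v * ((2 * K + 1) * (2 * K' + 1)) : ℕ) : ℝ) := by push_cast; ring
      _ ≤ ((bx 6 (2 * A)).card : ℝ) := by exact_mod_cast hcard
      _ ≤ 128 * (bx 6 A).card := card_bx_two A
  rw [le_div_iff₀ (by positivity)]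
  have h7 : (cnt2 A x y u v : ℝ) * (A ^ 2 * P ^ 10) =
      (24 * C₀) ^ 2 * ((cnt2 A x y u v : ℝ) * ((c₀ * A * P ^ 6) * (c₀ * A * P ^ 4))) := by
    rw [hc₀]; field_simp
  rw [h7]
  calc (24 * C₀) ^ 2 * ((cnt2 A x y u v : ℝ) * ((c₀ * A * P ^ 6) * (c₀ * A * P ^ 4))) ≤
        (24 * C₀) ^ 2 * (128 * (bx 6 A).card) := by gcongr
    _ = 128 * (24 * C₀) ^ 2 * (bx 6 A).card := by ring

end Pool.Agent.H90S
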