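import Pool.Agent.H90S.Stm

/-!
Piece OPI of project H90S (helper99): interpolation of a value by a binary form with small coefficients.
-/

namespace Pool.Agent.H90S

lemma bf_cons {R : Type} [CommRing R] {d : ℕ} (c : ℤ) (q : Fin (d + 1) → ℤ) (u v : R) :
    bf (d := d + 1) (Fin.cons c q : Fin (d + 1 + 1) → ℤ) u v = (c : R) * v ^ (d + 1) + u * bf q u v := by
  unfold bf
  rw [Fin.sum_univ_succ, Finset.mul_sum]
  congr 1
  · simp
  · refine Finset.sum_congr rfl fun i _ => ?_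
    have h1 : d + 1 - ((Fin.succ i : Fin (d + 1 + 1)) : ℕ) = d - (i : ℕ) := by
      rw [Fin.val_succ]; omega
    rw [h1, Fin.cons_succ, Fin.val_succ]
    ring

lemma bf_rev {R : Type} [CommRing R] {d : ℕ} (q : Fin (d + 1) → ℤ) (u v : R) :
    bf (fun i => q (Fin.rev i)) u v = bf q v u := by
  unfold bf
  rw [← Equiv.sum_comp Fin.revPerm]
  refine Finset.sum_congr rfl fun i _ => ?_
  have h1 : ((Fin.rev i : Fin (d + 1)) : ℕ) = d - (i : ℕ) := by
    rw [Fin.val_rev]; omega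
  have h2 : d - (d - (i : ℕ)) = (i : ℕ) := by omega
  simp only [Fin.revPerm_apply, Fin.rev_rev, h1, h2]
  ring

lemma opi_aux (d : ℕ) : ∃ C : ℝ, 1 ≤ C ∧ ∀ (P : ℝ) (u v : ℤ), 1 ≤ P → IsCoprime u v →
    |(u : ℝ)| ≤ 3 * P → |(v : ℝ)| ≤ 3 * P → P / 4 ≤ |(u : ℝ)| → ∀ k : ℤ,
    ∃ q : Fin (d + 1) → ℤ, bf q u v = k ∧ ∀ i, |(q i : ℝ)| ≤ C * (|(k : ℝ)| / P ^ d + P) := by
  induction d with
  | zero =>
    refine ⟨1, le_rfl, fun P u v hP _ _ _ _ k => ⟨fun _ => k, ?_, fun i => ?_⟩⟩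
    · simp [bf]
    · rw [pow_zero, div_one, one_mul]; linarith
  | succ d ih =>
    obtain ⟨C, hC, ih⟩ := ih
    refine ⟨C * (3 ^ (d + 1) + 5) + 3, ?_, ?_⟩
    · have : (0 : ℝ) < 3 ^ (d + 1) := by positivity
      nlinarith
    intro P u v hP hcop hu hv hbig k
    have hP0 : (0 : ℝ) < P := by linarith
    have hu0 : (0 : ℝ) < |(u : ℝ)| := by linarith
    have hune : u ≠ 0 := by
      rintro rfl
      simp at hu0
    obtain ⟨a, b, hab⟩ : IsCoprime u (v ^ (d + 1)) := hcop.pow_right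
    -- the coefficient c
    set c : ℤ := (k * b) % u with hc
    have hc0 : 0 ≤ c := Int.emod_nonneg _ hune
    have hclt : c < |u| := Int.emod_lt_abs _ hune
    have hcabs : |(c : ℝ)| ≤ |(u : ℝ)| := by
      rw [abs_of_nonneg (by exact_mod_cast hc0)]
      have : (c : ℝ) < ((|u| : ℤ) : ℝ) := by exact_mod_cast hclt
      rw [Int.cast_abs] at this
      exact this.le
    have hdvd : u ∣ k - c * v ^ (d + 1) := by
      have h1 : u ∣ k * b - c := Int.dvd_self_sub_emod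
      have h2 : k - c * v ^ (d + 1) = k * (a * u) + (k * b - c) * v ^ (d + 1) := by
        have : k = k * (a * u + b * v ^ (d + 1)) := by rw [hab, mul_one]
        nth_rewrite 1 [this]
        ring
      rw [h2]
      exact dvd_add (Dvd.intro_left (k * a) (by ring)) (Dvd.dvd.mul_right h1 _)
    obtain ⟨k₁, hk₁⟩ := hdvd
    obtain ⟨q₁, hq₁, hb₁⟩ := ih P u v hP hcop hu hv hbig k₁
    refine ⟨(Fin.cons c q₁ : Fin (d + 1 + 1) → ℤ), ?_, ?_⟩
    · rw [bf_cons, hq₁]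
      have : (k : ℤ) = c * v ^ (d + 1) + u * k₁ := by linarith
      rw [this]
      simp
    · have hk₁r : (u : ℝ) * k₁ = k - c * (v : ℝ) ^ (d + 1) := by
        have := congrArg (Int.cast : ℤ → ℝ) hk₁
        push_cast at this
        linarith
      have hpow : |(v : ℝ)| ^ (d + 1) ≤ (3 * P) ^ (d + 1) := pow_le_pow_left₀ (abs_nonneg _) hv _
      have hk₁abs : |(k₁ : ℝ)| ≤ 4 * |(k : ℝ)| / P + (3 * P) ^ (d + 1) := by
        have h1 : |(u : ℝ)| * |(k₁ : ℝ)| ≤ |(k : ℝ)| + |(u : ℝ)| * (3 * P) ^ (d + 1) := by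
          rw [← abs_mul, hk₁r]
          calc |(k : ℝ) - c * (v : ℝ) ^ (d + 1)| ≤ |(k : ℝ)| + |c * (v : ℝ) ^ (d + 1)| := abs_sub _ _
            _ = |(k : ℝ)| + |(c : ℝ)| * |(v : ℝ)| ^ (d + 1) := by rw [abs_mul, abs_pow]
            _ ≤ |(k : ℝ)| + |(u : ℝ)| * (3 * P) ^ (d + 1) := by
                gcongr
        have h2 : |(k : ℝ)| ≤ |(u : ℝ)| * (4 * |(k : ℝ)| / P) := by
          have h3 : 1 ≤ |(u : ℝ)| * (4 / P) := by
            rw [mul_div_assoc', le_div_iff₀ hP0]; linarith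
          calc |(k : ℝ)| = 1 * |(k : ℝ)| := (one_mul _).symm
            _ ≤ |(u : ℝ)| * (4 / P) * |(k : ℝ)| := by gcongr
            _ = |(u : ℝ)| * (4 * |(k : ℝ)| / P) := by ring
        have h4 : |(u : ℝ)| * |(k₁ : ℝ)| ≤ |(u : ℝ)| * (4 * |(k : ℝ)| / P + (3 * P) ^ (d + 1)) := by
          rw [mul_add]; linarith
        exact le_of_mul_le_mul_left h4 hu0
      have hPd : (0 : ℝ) < P ^ d := by positivity
      have hk₁d : |(k₁ : ℝ)| / P ^ d ≤ 4 * (|(k : ℝ)| / P ^ (d + 1)) + 3 ^ (d + 1) * P := by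
        rw [div_le_iff₀ hPd]
        refine hk₁abs.trans (le_of_eq ?_)
        field_simp
        ring
      set X : ℝ := |(k : ℝ)| / P ^ (d + 1) with hX
      have hX0 : 0 ≤ X := by positivity
      have h3 : (0 : ℝ) < 3 ^ (d + 1) := by positivity
      intro i
      refine Fin.cases ?_ (fun j => ?_) i
      · rw [Fin.cons_zero]
        refine hcabs.trans (hu.trans ?_)
        have h5 : 0 ≤ C * (3 ^ (d + 1) + 5) * (X + P) := by positivity
        nlinarith
      · rw [Fin.cons_succ]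
        refine (hb₁ j).trans ?_
        have h5 : C * (|(k₁ : ℝ)| / P ^ d + P) ≤ C * (4 * X + 3 ^ (d + 1) * P + P) := by
          gcongr
        refine h5.trans ?_
        have h6 : 4 * X + 3 ^ (d + 1) * P + P ≤ (3 ^ (d + 1) + 5) * (X + P) := by
          nlinarith [mul_nonneg h3.le hX0, mul_nonneg h3.le hP0.le]
        calc C * (4 * X + 3 ^ (d + 1) * P + P) ≤ C * ((3 ^ (d + 1) + 5) * (X + P)) := by gcongr
          _ ≤ (C * (3 ^ (d + 1) + 5) + 3) * (X + P) := by nlinarith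

theorem t_OPI : S_OPI := by
  intro d
  obtain ⟨C, hC, h⟩ := opi_aux d
  refine ⟨C, hC, fun P x hP hx k => ?_⟩
  rcases hx.big with hb | hb
  · exact h P x.1 x.2 hP hx.cop hx.le1 hx.le2 hb k
  · obtain ⟨q, hq, hb'⟩ := h P x.2 x.1 hP hx.cop.symm hx.le2 hx.le1 hb k
    exact ⟨fun i => q (Fin.rev i), by rw [bf_rev]; exact hq, fun i => hb' _⟩

end Pool.Agent.H90S
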