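import Pool.Agent.H90S.Stm

/-!
# Project H90S, piece QUAD
-/

set_option autoImplicit false
set_option linter.unusedVariables false

namespace Pool.Agent.H90S

namespace QuadAux

theorem card_le_real {A B : Type} [DecidableEq B] (s : Finset A) (t : Finset B) (φ : A → B)
    (H : ∀ a ∈ s, φ a ∈ t) (g : B → ℝ)
    (hg : ∀ b ∈ t, ((s.filter (fun a => φ a = b)).card : ℝ) ≤ g b) :
    (s.card : ℝ) ≤ ∑ b ∈ t, g b := by
  rw [Finset.card_eq_sum_card_fiberwise (f := φ) (t := t) H]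
  push_cast
  exact Finset.sum_le_sum hg

theorem ap2 (h : S_AP) {τ α L : ℝ} {q : ℕ} {W : Finset ℤ} (hq : 1 ≤ q) (hL : 0 ≤ L)
    (hτ : (q : ℝ) ≤ τ * L) (h1 : ∀ n ∈ W, α ≤ n ∧ (n : ℝ) ≤ α + L)
    (h2 : ∀ n ∈ W, ∀ n' ∈ W, (q : ℤ) ∣ n - n') : (W.card : ℝ) ≤ (1 + τ) * (L / q) := by
  have h3 := h.2 α L q W hq hL h1 h2
  have hq0 : (0 : ℝ) < q := by exact_mod_cast hq
  have h4 : 1 ≤ τ * (L / q) := by
    rw [← mul_div_assoc, le_div_iff₀ hq0]; linarith
  linarith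

theorem decomp (w : ℕ) : ∀ n : ℕ, n ≠ 0 → ∃ D s : ℕ, n = D * s ∧ rgh w D ∧
    (∀ p : ℕ, p.Prime → p ∣ s → p ≤ w) := by
  intro n
  induction n using Nat.strong_induction_on with
  | _ n ih =>
    intro hn
    by_cases h1 : n = 1
    · refine ⟨1, 1, by omega, ?_, ?_⟩
      · intro p hp _ hd
        exact hp.one_lt.ne' (Nat.dvd_one.1 hd)
      · intro p hp hd
        exact absurd (Nat.dvd_one.1 hd) hp.one_lt.ne'
    · have hp := Nat.minFac_prime h1
      obtain ⟨m, hm⟩ := Nat.minFac_dvd n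
      set p := n.minFac with hpdef
      have hm0 : m ≠ 0 := by rintro rfl; omega
      have hmn : m < n := by
        have := hp.two_le
        have h3 : 2 * m ≤ p * m := Nat.mul_le_mul_right m this
        omega
      obtain ⟨D, s, h4, h5, h6⟩ := ih m hmn hm0
      by_cases hpw : p ≤ w
      · refine ⟨D, p * s, by rw [hm, h4]; ring, h5, ?_⟩
        intro q hq hd
        rcases (Nat.Prime.dvd_mul hq).1 hd with h7 | h7
        · rw [(Nat.prime_dvd_prime_iff_eq hq hp).1 h7]; exact hpw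
        · exact h6 q hq h7
      · refine ⟨p * D, s, by rw [hm, h4]; ring, ?_, h6⟩
        intro q hq hqw hd
        rcases (Nat.Prime.dvd_mul hq).1 hd with h7 | h7
        · rw [(Nat.prime_dvd_prime_iff_eq hq hp).1 h7] at hqw; exact hpw hqw
        · exact h5 q hq hqw h7

open scoped Classical in
theorem rough_div {w n D s : ℕ} (hn : n ≠ 0) (h : n = D * s) (hD : rgh w D)
    (hs : ∀ p : ℕ, p.Prime → p ∣ s → p ≤ w) : n.divisors.filter (rgh w) = D.divisors := by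
  ext E
  rw [Finset.mem_filter, Nat.mem_divisors, Nat.mem_divisors]
  constructor
  · rintro ⟨⟨h1, -⟩, h2⟩
    refine ⟨?_, ?_⟩
    · have hcop : Nat.Coprime E s :=
        Nat.coprime_of_dvd fun k hk hkE hks => h2 k hk (hs k hk hks) hkE
      rw [h] at h1
      exact hcop.dvd_of_dvd_mul_right h1
    · rintro rfl; simp at h; exact hn h
  · rintro ⟨h1, h2⟩
    refine ⟨⟨?_, hn⟩, ?_⟩
    · rw [h]; exact Dvd.dvd.mul_right h1 s
    · intro p hp hpw hpE
      exact hD p hp hpw (hpE.trans h1)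

theorem bf_congr {d : ℕ} (c : Fin (d + 1) → ℤ) (x y : ℤ × ℤ) (lam Δ : ℤ)
    (h1 : Δ ∣ y.1 - lam * x.1) (h2 : Δ ∣ y.2 - lam * x.2) :
    Δ ∣ bf c y.1 y.2 - lam ^ d * bf c x.1 x.2 := by
  unfold bf
  rw [Finset.mul_sum, ← Finset.sum_sub_distrib]
  refine Finset.dvd_sum fun i _ => ?_
  have h3 : (lam * x.1) ^ (i : ℕ) * (lam * x.2) ^ (d - (i : ℕ)) ≡
      y.1 ^ (i : ℕ) * y.2 ^ (d - (i : ℕ)) [ZMOD Δ] :=
    ((Int.modEq_iff_dvd.2 h1).pow _).mul ((Int.modEq_iff_dvd.2 h2).pow _)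
  have h4 := Int.modEq_iff_dvd.1 h3
  have hi : (i : ℕ) + (d - (i : ℕ)) = d := by have := i.2; omega
  have h5 : (lam * x.1) ^ (i : ℕ) * (lam * x.2) ^ (d - (i : ℕ)) =
      lam ^ d * (x.1 ^ (i : ℕ) * x.2 ^ (d - (i : ℕ))) := by
    have h7 : lam ^ d = lam ^ (i : ℕ) * lam ^ (d - (i : ℕ)) := by rw [← pow_add, hi]
    rw [mul_pow, mul_pow, h7]
    ring
  rw [h5] at h4
  have h6 : ((c i : ℤ) : ℤ) * (y.1 ^ (i : ℕ) * y.2 ^ (d - (i : ℕ))) -
      lam ^ d * (((c i : ℤ) : ℤ) * (x.1 ^ (i : ℕ) * x.2 ^ (d - (i : ℕ)))) =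
      c i * (y.1 ^ (i : ℕ) * y.2 ^ (d - (i : ℕ)) -
        lam ^ d * (x.1 ^ (i : ℕ) * x.2 ^ (d - (i : ℕ)))) := by ring
  simp only [Int.cast_id]
  rw [h6]
  exact Dvd.dvd.mul_left h4 _

/-- the residue -/
def rs (D : ℕ) (w : ℤ) : ℕ := (w % (D : ℤ)).toNat

theorem rs_lt {D : ℕ} (hD : 0 < D) (w : ℤ) : rs D w < D := by
  unfold rs
  have h1 := Int.emod_lt_of_pos w (by exact_mod_cast hD : (0 : ℤ) < D)
  have h2 := Int.emod_nonneg w (by exact_mod_cast hD.ne' : (D : ℤ) ≠ 0)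
  omega

theorem rs_dvd {D : ℕ} (hD : 0 < D) (w : ℤ) : (D : ℤ) ∣ w - (rs D w : ℤ) := by
  unfold rs
  have h2 := Int.emod_nonneg w (by exact_mod_cast hD.ne' : (D : ℤ) ≠ 0)
  rw [Int.toNat_of_nonneg h2]
  exact Int.dvd_self_sub_emod

theorem rs_eq {D : ℕ} (hD : 0 < D) {w w' : ℤ} (h : rs D w = rs D w') : (D : ℤ) ∣ w - w' := by
  have h1 := rs_dvd hD w
  have h2 := rs_dvd hD w'
  rw [h] at h1
  have := dvd_sub h1 h2
  have e : w - (rs D w' : ℤ) - (w' - (rs D w' : ℤ)) = w - w' := by ring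
  rwa [e] at this

end QuadAux

open QuadAux

theorem t_QUAD (ha : S_AP) (hr : S_ROOT) (hh : S_HYP) (hc : S_CW) : S_QUAD := by
  classical
  intro w₀ a f S J xc zc wc hw0 hP x y lam Δ hy hΔ hΔ0 hl1 hl2 τ z₁ Lz L L' α α' hτ hL hL' hLz
    hLL hLL' T hT
  obtain ⟨n, hn⟩ : ∃ n : ℕ, n = Δ.natAbs := ⟨_, rfl⟩
  have hn0 : n ≠ 0 := by rw [hn]; exact Int.natAbs_ne_zero.2 hΔ0
  have hn1 : (1 : ℝ) ≤ n := by exact_mod_cast Nat.one_le_iff_ne_zero.2 hn0
  have hnabs : |(Δ : ℝ)| = n := by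
    rw [hn, Nat.cast_natAbs, Int.cast_abs]
  have hnΔ : (n : ℤ) ∣ Δ := by rw [hn]; exact Int.natAbs_dvd.2 dvd_rfl
  rw [hnabs] at hLz hLL hLL'
  obtain ⟨D, s, hDs, hDr, hsm⟩ := decomp w₀ n hn0
  have hD0 : 0 < D := by
    rcases Nat.eq_zero_or_pos D with h | h
    · rw [h, zero_mul] at hDs; exact absurd hDs hn0
    · exact h
  have hs0 : 0 < s := by
    rcases Nat.eq_zero_or_pos s with h | h
    · rw [h, mul_zero] at hDs; exact absurd hDs hn0
    · exact h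
  have hS := hP.hS
  have hJ := hP.hJ
  have hpS : ∀ p : ℕ, p.Prime → p ≤ w₀ → p ∣ S := fun p hp hpw =>
    dvd_trans (dvd_mul_right p J) (hP.hp p hp hpw)
  have hcopDS : Nat.Coprime D S :=
    Nat.coprime_of_dvd fun k hk hkD hkS => hDr k hk (hP.hp' k hk hkS) hkD
  have hcopDJ : Nat.Coprime D J := hcopDS.coprime_dvd_right hP.hJS
  have hcopDQ : Nat.Coprime D (S * J) := Nat.Coprime.mul_right hcopDS hcopDJ
  have hcopDs : Nat.Coprime D s :=
    Nat.coprime_of_dvd fun k hk hkD hks => hDr k hk (hsm k hk hks) hkD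
  have hDodd : Odd D := by
    rw [← Nat.not_even_iff_odd]
    intro h
    exact hDr 2 Nat.prime_two hw0 (even_iff_two_dvd.1 h)
  have hDn : D ∣ n := ⟨s, hDs⟩
  have hDΔ : (D : ℤ) ∣ Δ := dvd_trans (by exact_mod_cast hDn) hnΔ
  have hlamΔ : IsCoprime lam Δ := by
    obtain ⟨u, v, huv⟩ := hy
    obtain ⟨k, hk⟩ := hl1
    obtain ⟨l, hl⟩ := hl2
    refine ⟨u * x.1 + v * x.2, u * k + v * l, ?_⟩
    have e1 : y.1 = lam * x.1 + Δ * k := by linarith
    have e2 : y.2 = lam * x.2 + Δ * l := by linarith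
    rw [e1, e2] at huv
    linear_combination huv
  have hμ : IsCoprime (lam ^ 3) (D : ℤ) :=
    (hlamΔ.of_isCoprime_of_dvd_right hDΔ).pow_left
  set c : ℤ → ℤ → ℤ := fun z z' => z' ^ 3 + bf a y.1 y.2 * z' -
    lam ^ 6 * (z ^ 3 + bf a x.1 x.2 * z) with hcdef
  have hf := bf_congr f x y lam Δ hl1 hl2
  -- the congruence modulo `D`
  have hcong : ∀ t ∈ T, (D : ℤ) ∣ t.2.2 ^ 2 - (lam ^ 3) ^ 2 * t.1.2 ^ 2 - c t.1.1 t.2.1 := by
    intro t ht
    obtain ⟨-, -, -, -, -, -, h7⟩ := hT t ht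
    have h8 : (D : ℤ) ∣ Fv a f y t.2.1 t.2.2 - lam ^ 6 * Fv a f x t.1.1 t.1.2 :=
      (hDΔ.mul_left _).trans h7
    have h9 : (D : ℤ) ∣ bf f y.1 y.2 - lam ^ 6 * bf f x.1 x.2 := hDΔ.trans hf
    have h10 := dvd_sub h9 h8
    have e : bf f y.1 y.2 - lam ^ 6 * bf f x.1 x.2 -
        (Fv a f y t.2.1 t.2.2 - lam ^ 6 * Fv a f x t.1.1 t.1.2) =
        t.2.2 ^ 2 - (lam ^ 3) ^ 2 * t.1.2 ^ 2 - c t.1.1 t.2.1 := by
      simp only [Fv, hcdef]
      ring
    rwa [e] at h10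
  have hSr : (0 : ℝ) < S := by exact_mod_cast hS
  have hDr0 : (0 : ℝ) < D := by exact_mod_cast hD0
  have hnr : (0 : ℝ) < n := by linarith
  have hDnr : (D : ℝ) ≤ n := by exact_mod_cast Nat.le_of_dvd (Nat.pos_of_ne_zero hn0) hDn
  have hQ0 : 0 < S * J := Nat.mul_pos hS hJ
  have hQr : (0 : ℝ) < (S * J : ℕ) := by exact_mod_cast hQ0
  have h1τ : 0 ≤ 1 + τ := by linarith
  have hLz0 : 0 ≤ Lz := by
    by_contra h
    push Not at h
    have h1 : τ * Lz < 0 := mul_neg_of_pos_of_neg hτ h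
    have h2 : 0 < ((S * J : ℕ) : ℝ) * n := mul_pos hQr hnr
    linarith
  -- the fibre over `(z, z')`
  set M : ℝ := (1 + τ) ^ 2 * (L / S) * (L' / S) / n with hM
  have hM0 : 0 ≤ M := by positivity
  have hfib : ∀ b : ℤ × ℤ, ((T.filter (fun t => (t.1.1, t.2.1) = b)).card : ℝ) ≤
      ((D.divisors.filter (fun E : ℕ => (E : ℤ) ∣ c b.1 b.2)).card : ℝ) * M := by
    rintro ⟨z, z'⟩
    set T₁ := T.filter (fun t => (t.1.1, t.2.1) = (z, z')) with hT₁
    have hT₁' : ∀ t ∈ T₁, t ∈ T ∧ t.1.1 = z ∧ t.2.1 = z' := by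
      intro t ht
      rw [hT₁, Finset.mem_filter, Prod.mk.injEq] at ht
      exact ht
    set R := (Finset.range D ×ˢ Finset.range D).filter (fun p : ℕ × ℕ =>
      (D : ℤ) ∣ (p.2 : ℤ) ^ 2 - (lam ^ 3) ^ 2 * (p.1 : ℤ) ^ 2 - c z z') with hR
    have hRc : (R.card : ℝ) ≤ D * ((D.divisors.filter (fun E : ℕ => (E : ℤ) ∣ c z z')).card : ℝ) := by
      exact_mod_cast hh D (lam ^ 3) (c z z') hD0 hDodd hμ
    have h1 : (T₁.card : ℝ) ≤ ∑ p ∈ R, ((1 + τ) * (L / (S * D : ℕ))) *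
        ((1 + τ) * (L' / (S * n : ℕ))) := by
      refine card_le_real T₁ R (fun t => (rs D t.1.2, rs D t.2.2)) ?_ _ ?_
      · intro t ht
        obtain ⟨ht1, ht2, ht3⟩ := hT₁' t ht
        rw [hR, Finset.mem_filter, Finset.mem_product, Finset.mem_range, Finset.mem_range]
        refine ⟨⟨rs_lt hD0 _, rs_lt hD0 _⟩, ?_⟩
        have h2 := hcong t ht1
        rw [ht2, ht3] at h2
        have h3 : (rs D t.2.2 : ℤ) ^ 2 ≡ t.2.2 ^ 2 [ZMOD D] :=
          (Int.modEq_iff_dvd.2 (rs_dvd hD0 t.2.2)).pow 2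
        have h4 : (lam ^ 3) ^ 2 * (rs D t.1.2 : ℤ) ^ 2 ≡ (lam ^ 3) ^ 2 * t.1.2 ^ 2 [ZMOD D] :=
          ((Int.modEq_iff_dvd.2 (rs_dvd hD0 t.1.2)).pow 2).mul_left _
        have h5 := (h3.sub h4).sub (Int.ModEq.refl (c z z'))
        exact (Int.ModEq.dvd_iff h5).2 h2
      · rintro ⟨ρ, ρ'⟩ -
        set T₂ := T₁.filter (fun t => (rs D t.1.2, rs D t.2.2) = (ρ, ρ')) with hT₂
        have hT₂' : ∀ t ∈ T₂, t ∈ T₁ ∧ rs D t.1.2 = ρ ∧ rs D t.2.2 = ρ' := by
          intro t ht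
          rw [hT₂, Finset.mem_filter, Prod.mk.injEq] at ht
          exact ht
        have h2 : (T₂.card : ℝ) ≤ ∑ w ∈ T₂.image (fun t => t.1.2), (1 + τ) * (L' / (S * n : ℕ)) := by
          refine card_le_real T₂ _ (fun t => t.1.2) (fun t ht => Finset.mem_image.2 ⟨t, ht, rfl⟩) _ ?_
          intro w _
          set T₃ := T₂.filter (fun t => t.1.2 = w) with hT₃
          have hT₃' : ∀ t ∈ T₃, t ∈ T ∧ t.1.1 = z ∧ t.2.1 = z' ∧ t.1.2 = w ∧ rs D t.2.2 = ρ' := by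
            intro t ht
            rw [hT₃, Finset.mem_filter] at ht
            obtain ⟨h3, h4⟩ := ht
            obtain ⟨h5, h6, h7⟩ := hT₂' t h3
            obtain ⟨h8, h9, h10⟩ := hT₁' t h5
            exact ⟨h8, h9, h10, h4, h7⟩
          have hinj : Set.InjOn (fun t : (ℤ × ℤ) × (ℤ × ℤ) => t.2.2) T₃ := by
            intro t ht t' ht' htt
            obtain ⟨-, a1, a2, a3, -⟩ := hT₃' t ht
            obtain ⟨-, b1, b2, b3, -⟩ := hT₃' t' ht'
            simp only at htt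
            ext
            · rw [a1, b1]
            · rw [a3, b3]
            · rw [a2, b2]
            · exact htt
          rw [← Finset.card_image_of_injOn hinj]
          refine ap2 ha (α := α' z w z') (Nat.mul_pos hS (Nat.pos_of_ne_zero hn0)) hL' ?_ ?_ ?_
          · push_cast; exact hLL'
          · intro w' hw'
            obtain ⟨t, ht, rfl⟩ := Finset.mem_image.1 hw'
            obtain ⟨h8, h9, h10, h11, -⟩ := hT₃' t ht
            obtain ⟨-, -, -, -, -, h6, -⟩ := hT t h8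
            rw [h9, h10, h11] at h6
            exact h6
          · intro w₁ hw₁ w₂ hw₂
            obtain ⟨t, ht, rfl⟩ := Finset.mem_image.1 hw₁
            obtain ⟨t', ht', rfl⟩ := Finset.mem_image.1 hw₂
            obtain ⟨a1, a2, a3, a4, a5⟩ := hT₃' t ht
            obtain ⟨b1, b2, b3, b4, b5⟩ := hT₃' t' ht'
            obtain ⟨-, -, -, a8, -, -, a7⟩ := hT t a1
            obtain ⟨-, -, -, b8, -, -, b7⟩ := hT t' b1
            have h3 := dvd_sub b7 a7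
            rw [a2, a3, a4, b2, b3, b4] at h3
            have e : Fv a f y z' t'.2.2 - lam ^ 6 * Fv a f x z w -
                (Fv a f y z' t.2.2 - lam ^ 6 * Fv a f x z w) = t.2.2 ^ 2 - t'.2.2 ^ 2 := by
              simp only [Fv]; ring
            rw [e] at h3
            have h4 : ((S * J * s : ℕ) : ℤ) ∣ t.2.2 ^ 2 - t'.2.2 ^ 2 := by
              refine dvd_trans ?_ h3
              rw [Nat.cast_mul (S * J) s]
              refine mul_dvd_mul_left _ (dvd_trans ?_ hnΔ)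
              rw [hDs]
              push_cast
              exact dvd_mul_left _ _
            have h5 := hc S J s wc t.2.2 t'.2.2 hS hJ hs0 hP.hJS hP.hw
              (fun p hp hpS' => hP.hp p hp (hP.hp' p hp hpS'))
              (fun p hp hps => hpS p hp (hsm p hp hps)) a8 b8 h4
            have h6 : (D : ℤ) ∣ t.2.2 - t'.2.2 := rs_eq hD0 (by rw [a5, b5])
            have h7 : IsCoprime ((S * s : ℕ) : ℤ) (D : ℤ) :=
              Nat.isCoprime_iff_coprime.2 (Nat.Coprime.mul_left hcopDS.symm hcopDs.symm)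
            have h8 := h7.mul_dvd h5 h6
            have e2 : ((S * n : ℕ) : ℤ) = ((S * s : ℕ) : ℤ) * (D : ℤ) := by
              rw [hDs]; push_cast; ring
            rw [e2]
            exact h8
        rw [Finset.sum_const, nsmul_eq_mul] at h2
        have h3 : ((T₂.image (fun t => t.1.2)).card : ℝ) ≤ (1 + τ) * (L / (S * D : ℕ)) := by
          refine ap2 ha (α := α z) (Nat.mul_pos hS hD0) hL ?_ ?_ ?_
          · push_cast
            refine le_trans ?_ hLL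
            exact mul_le_mul_of_nonneg_left hDnr hSr.le
          · intro w hw
            obtain ⟨t, ht, rfl⟩ := Finset.mem_image.1 hw
            obtain ⟨h5, h6, h7⟩ := hT₂' t ht
            obtain ⟨h8, h9, h10⟩ := hT₁' t h5
            obtain ⟨-, -, -, -, h4, -, -⟩ := hT t h8
            rw [h9] at h4
            exact h4
          · intro w₁ hw₁ w₂ hw₂
            obtain ⟨t, ht, rfl⟩ := Finset.mem_image.1 hw₁
            obtain ⟨t', ht', rfl⟩ := Finset.mem_image.1 hw₂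
            obtain ⟨a5, a6, a7⟩ := hT₂' t ht
            obtain ⟨a8, a9, a10⟩ := hT₁' t a5
            obtain ⟨-, -, a1, -⟩ := hT t a8
            obtain ⟨b5, b6, b7⟩ := hT₂' t' ht'
            obtain ⟨b8, b9, b10⟩ := hT₁' t' b5
            obtain ⟨-, -, b1, -⟩ := hT t' b8
            have h6 : (D : ℤ) ∣ t.1.2 - t'.1.2 := rs_eq hD0 (by rw [a6, b6])
            have h7 : (S : ℤ) ∣ t.1.2 - t'.1.2 := by
              have := dvd_sub a1 b1
              have e : t.1.2 - wc - (t'.1.2 - wc) = t.1.2 - t'.1.2 := by ring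
              rwa [e] at this
            have h8 : IsCoprime (S : ℤ) (D : ℤ) := Nat.isCoprime_iff_coprime.2 hcopDS.symm
            have h9 := h8.mul_dvd h7 h6
            push_cast
            exact h9
        refine h2.trans (mul_le_mul_of_nonneg_right h3 ?_)
        positivity
    rw [Finset.sum_const, nsmul_eq_mul] at h1
    refine h1.trans ?_
    have h2 := mul_le_mul_of_nonneg_right hRc
      (by positivity : (0 : ℝ) ≤ ((1 + τ) * (L / (S * D : ℕ))) * ((1 + τ) * (L' / (S * n : ℕ))))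
    refine h2.trans (le_of_eq ?_)
    rw [hM]
    push_cast
    field_simp
  -- the sum over `(z, z')`
  set Zs := ap z₁ (z₁ + Lz) (S * J) zc with hZs
  have hZmem : ∀ z ∈ Zs, z₁ ≤ z ∧ (z : ℝ) ≤ z₁ + Lz ∧ ((S * J : ℕ) : ℤ) ∣ z - zc := by
    intro z hz
    rw [hZs, ap, Finset.mem_filter, Finset.mem_Icc, Int.ceil_le, Int.le_floor] at hz
    exact ⟨hz.1.1, hz.1.2, hz.2⟩
  have hZcong : ∀ z ∈ Zs, ∀ z' ∈ Zs, ((S * J : ℕ) : ℤ) ∣ z - z' := by
    intro z hz z' hz'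
    have := dvd_sub (hZmem z hz).2.2 (hZmem z' hz').2.2
    have e : z - zc - (z' - zc) = z - z' := by ring
    rwa [e] at this
  have hQn : ((S * J : ℕ) : ℝ) ≤ ((S * J : ℕ) : ℝ) * n := le_mul_of_one_le_right hQr.le hn1
  have hZcard : (Zs.card : ℝ) ≤ (1 + τ) * (Lz / (S * J : ℕ)) :=
    ap2 ha (α := z₁) hQ0 hLz0 (hQn.trans hLz) (fun z hz => ⟨(hZmem z hz).1, (hZmem z hz).2.1⟩)
      hZcong
  have hE : ∀ E ∈ D.divisors, ∀ z : ℤ, ((Zs.filter (fun z' => (E : ℤ) ∣ c z z')).card : ℝ) ≤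
      (1 + τ) * (Lz / (S * J : ℕ)) * psi E := by
    intro E hE z
    have hED := (Nat.mem_divisors.1 hE).1
    have hE0 : 0 < E := Nat.pos_of_mem_divisors hE
    have hEr : (0 : ℝ) < E := by exact_mod_cast hE0
    set R := (Finset.range E).filter (fun z' : ℕ => (E : ℤ) ∣ (z' : ℤ) ^ 3 + 0 * z' ^ 2 +
      bf a y.1 y.2 * z' + (-(lam ^ 6 * (z ^ 3 + bf a x.1 x.2 * z)))) with hR
    have hRc : (R.card : ℝ) ≤ E * psi E := hr E 0 (bf a y.1 y.2) _ hE0
    have h1 : ((Zs.filter (fun z' => (E : ℤ) ∣ c z z')).card : ℝ) ≤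
        ∑ ρ ∈ R, (1 + τ) * (Lz / (S * J * E : ℕ)) := by
      refine card_le_real _ R (fun z' => rs E z') ?_ _ ?_
      · intro z' hz'
        rw [Finset.mem_filter] at hz'
        rw [hR, Finset.mem_filter, Finset.mem_range]
        refine ⟨rs_lt hE0 _, ?_⟩
        have h2 : (rs E z' : ℤ) ≡ z' [ZMOD E] := Int.modEq_iff_dvd.2 (rs_dvd hE0 z')
        have h3 : (rs E z' : ℤ) ^ 3 + 0 * (rs E z' : ℤ) ^ 2 + bf a y.1 y.2 * (rs E z' : ℤ) +
            (-(lam ^ 6 * (z ^ 3 + bf a x.1 x.2 * z))) ≡ z' ^ 3 + 0 * z' ^ 2 + bf a y.1 y.2 * z' +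
            (-(lam ^ 6 * (z ^ 3 + bf a x.1 x.2 * z))) [ZMOD E] :=
          (((h2.pow 3).add ((h2.pow 2).mul_left 0)).add (h2.mul_left _)).add (Int.ModEq.refl _)
        refine (Int.ModEq.dvd_iff h3).2 ?_
        have e : z' ^ 3 + 0 * z' ^ 2 + bf a y.1 y.2 * z' +
            (-(lam ^ 6 * (z ^ 3 + bf a x.1 x.2 * z))) = c z z' := by
          simp only [hcdef]; ring
        rw [e]
        exact hz'.2
      · intro ρ _
        refine ap2 ha (α := z₁) (Nat.mul_pos hQ0 hE0) hLz0 ?_ ?_ ?_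
        · rw [Nat.cast_mul (S * J) E]
          refine le_trans (mul_le_mul_of_nonneg_left ?_ hQr.le) hLz
          exact_mod_cast (Nat.le_of_dvd hD0 hED).trans
            (Nat.le_of_dvd (Nat.pos_of_ne_zero hn0) hDn)
        · intro z' hz'
          rw [Finset.mem_filter, Finset.mem_filter] at hz'
          exact ⟨(hZmem z' hz'.1.1).1, (hZmem z' hz'.1.1).2.1⟩
        · intro z' hz' z'' hz''
          rw [Finset.mem_filter, Finset.mem_filter] at hz' hz''
          have h2 : (E : ℤ) ∣ z' - z'' := rs_eq hE0 (by rw [hz'.2, hz''.2])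
          have h3 := hZcong z' hz'.1.1 z'' hz''.1.1
          have h4 : IsCoprime ((S * J : ℕ) : ℤ) (E : ℤ) :=
            Nat.isCoprime_iff_coprime.2 ((hcopDQ.coprime_dvd_left hED).symm)
          have h5 := h4.mul_dvd h3 h2
          rw [Nat.cast_mul (S * J) E]
          exact h5
    rw [Finset.sum_const, nsmul_eq_mul] at h1
    refine h1.trans ?_
    refine (mul_le_mul_of_nonneg_right hRc (by positivity)).trans (le_of_eq ?_)
    rw [Nat.cast_mul (S * J) E]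
    field_simp
  have hsig : sig w₀ Δ = ∑ E ∈ D.divisors, psi E := by
    unfold sig
    rw [← hn, rough_div hn0 hDs hDr hsm]
  have hsum : ∑ b ∈ Zs ×ˢ Zs, ((D.divisors.filter (fun E : ℕ => (E : ℤ) ∣ c b.1 b.2)).card : ℝ) ≤
      ((1 + τ) * (Lz / (S * J : ℕ))) * (((1 + τ) * (Lz / (S * J : ℕ))) * sig w₀ Δ) := by
    rw [Finset.sum_product]
    have h1 : ∀ z ∈ Zs, ∑ z' ∈ Zs, ((D.divisors.filter (fun E : ℕ => (E : ℤ) ∣ c z z')).card : ℝ) ≤
        ((1 + τ) * (Lz / (S * J : ℕ))) * sig w₀ Δ := by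
      intro z _
      have h2 : ∀ z' ∈ Zs, ((D.divisors.filter (fun E : ℕ => (E : ℤ) ∣ c z z')).card : ℝ) =
          ∑ E ∈ D.divisors, if (E : ℤ) ∣ c z z' then (1 : ℝ) else 0 := by
        intro z' _
        rw [Finset.sum_boole]
      rw [Finset.sum_congr rfl h2, Finset.sum_comm, hsig, Finset.mul_sum]
      refine Finset.sum_le_sum fun E hE' => ?_
      rw [Finset.sum_boole]
      exact hE E hE' z
    refine (Finset.sum_le_sum h1).trans ?_
    rw [Finset.sum_const, nsmul_eq_mul]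
    refine mul_le_mul_of_nonneg_right hZcard ?_
    have : 0 ≤ sig w₀ Δ := by
      unfold sig
      refine Finset.sum_nonneg fun E _ => ?_
      unfold psi
      exact Finset.prod_nonneg fun p _ => by positivity
    positivity
  have hfin : (T.card : ℝ) ≤ ∑ b ∈ Zs ×ˢ Zs,
      ((D.divisors.filter (fun E : ℕ => (E : ℤ) ∣ c b.1 b.2)).card : ℝ) * M := by
    refine card_le_real T (Zs ×ˢ Zs) (fun t => (t.1.1, t.2.1)) ?_ _ fun b _ => hfib b
    intro t ht
    obtain ⟨h1, h2, -⟩ := hT t ht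
    exact Finset.mem_product.2 ⟨h1, h2⟩
  rw [← Finset.sum_mul] at hfin
  refine hfin.trans ((mul_le_mul_of_nonneg_right hsum hM0).trans (le_of_eq ?_))
  rw [hM, hnabs]
  ring

end Pool.Agent.H90S
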