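import Pool.Agent.H90S.QUAD

/-!
# Project H90S, piece SM1: the second moment
-/

set_option autoImplicit false
set_option linter.unusedVariables false

namespace Pool.Agent.H90S

namespace SM1Aux

open QuadAux

theorem pow_le {t : ℝ} (h0 : 0 ≤ t) (h1 : t ≤ 1) (n : ℕ) :
    (1 + t) ^ n ≤ 1 + (2 ^ n - 1) * t := by
  induction n with
  | zero => simp
  | succ n ih =>
    have h2 : (1 : ℝ) ≤ 2 ^ n := one_le_pow₀ (by norm_num)
    have h3 : (1 + t) ^ n * (1 + t) ≤ (1 + (2 ^ n - 1) * t) * (1 + t) :=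
      mul_le_mul_of_nonneg_right ih (by linarith)
    rw [pow_succ, pow_succ]
    refine h3.trans ?_
    nlinarith [mul_nonneg (sub_nonneg.2 h2) (mul_nonneg h0 (sub_nonneg.2 h1))]

theorem bx_card (d A : ℕ) : (bx d A).card = (2 * A + 1) ^ (d + 1) := by
  unfold bx
  rw [Fintype.card_piFinset]
  simp only [Int.card_Icc, Finset.prod_const, Finset.card_univ, Fintype.card_fin]
  congr 1
  omega

theorem bf_cast {d : ℕ} (c : Fin (d + 1) → ℤ) (x : ℤ × ℤ) :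
    ((bf c x.1 x.2 : ℤ) : ℝ) = bf c (x.1 : ℝ) (x.2 : ℝ) := by
  unfold bf
  push_cast
  rfl

theorem exists_lam {x y : ℤ × ℤ} (hx : IsCoprime x.1 x.2) : ∃ lam : ℤ,
    wd x y ∣ y.1 - lam * x.1 ∧ wd x y ∣ y.2 - lam * x.2 := by
  obtain ⟨u, v, huv⟩ := hx
  refine ⟨u * y.1 + v * y.2, ⟨-v, ?_⟩, ⟨u, ?_⟩⟩
  · simp only [wd]; linear_combination (-y.1) * huv
  · simp only [wd]; linear_combination (-y.2) * huv

theorem wd_le {P : ℝ} {x y : ℤ × ℤ} (hx : Nice P x) (hy : Nice P y) (hP : 0 ≤ P) :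
    |(wd x y : ℝ)| ≤ 18 * P ^ 2 := by
  simp only [wd]
  push_cast
  have h1 : |(x.1 : ℝ) * y.2| ≤ (3 * P) * (3 * P) := by
    rw [abs_mul]
    exact mul_le_mul hx.le1 hy.le2 (abs_nonneg _) (by linarith)
  have h2 : |(x.2 : ℝ) * y.1| ≤ (3 * P) * (3 * P) := by
    rw [abs_mul]
    exact mul_le_mul hx.le2 hy.le1 (abs_nonneg _) (by linarith)
  have h3 := abs_sub (x.1 * y.2 : ℝ) (x.2 * y.1)
  nlinarith

theorem sig_nonneg (w : ℕ) (n : ℤ) : 0 ≤ sig w n := by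
  classical
  unfold sig
  refine Finset.sum_nonneg fun E _ => ?_
  unfold psi
  exact Finset.prod_nonneg fun p _ => by positivity

/-- the statement of RW for given constants -/
def RWB (R C : ℝ) : Prop := ∀ (h ρ η s r : ℝ) (a : Fin (4 + 1) → ℤ)
    (f g : Fin (6 + 1) → ℤ) (ξ : ℝ × ℝ) (Q : ℕ) (x : ℤ × ℤ) (z : ℤ), 1 ≤ h → 0 < ρ →
    ρ ≤ 1 / 4 → 0 < η → η ≤ 1 → (∀ i, |(a i : ℝ)| ≤ R * h ^ 4) → (∀ i, |(f i : ℝ)| ≤ R * h ^ 6) →
    |ξ.1| ≤ 2 → |ξ.2| ≤ 2 → |s| ≤ R →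
    |bf f ξ.1 ξ.2 / h ^ 6 + bf a ξ.1 ξ.2 / h ^ 4 * s + s ^ 3 - r ^ 2| ≤ η →
    |(x.1 : ℝ) - h ^ 2 * ξ.1| ≤ ρ * h ^ 2 → |(x.2 : ℝ) - h ^ 2 * ξ.2| ≤ ρ * h ^ 2 →
    |(z : ℝ) - h ^ 6 * s| ≤ ρ * h ^ 6 → (∀ i, Q * |(g i : ℝ)| ≤ 2 * η * h ^ 6) →
    |bf f (x.1 : ℝ) x.2 + Q * bf g (x.1 : ℝ) x.2 + bf a (x.1 : ℝ) x.2 * z + (z : ℝ) ^ 3 -
      (r * h ^ 9) ^ 2| ≤ C * (ρ + η) * h ^ 18

theorem ivl (h4 : S_IV) (h5 : S_UU) {R CR : ℝ} (hCR : RWB R CR) {w₀ : ℕ} {h η γ ρ ρ' t : ℝ}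
    {a : Fin (4 + 1) → ℤ} {f : Fin (6 + 1) → ℤ} {S J : ℕ} {xc : ℤ × ℤ} {zc wc : ℤ} {ξ : ℝ × ℝ}
    {s r : ℝ} (hCD : CD w₀ h η R γ a f S J xc zc wc ξ s r) (hh1 : 1 ≤ h) (hρ : 0 < ρ)
    (hρ4 : ρ ≤ 1 / 4) (hη : 0 < η) (hη1 : η ≤ 1) (hγ : 0 < γ) (hργ : ρ' ≤ γ / 2) (ht0 : 0 < t)
    (ht2 : t ≤ 1 / 2) (hCRρ : CR * (ρ + η) ≤ t / 4 * γ ^ 2) {K : ℕ} (hK : 0 < (K : ℝ))
    (hKe : ((S * J : ℕ) : ℝ) * K ≤ t / 4 * γ ^ 2 * h ^ 18) (x' : ℤ × ℤ)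
    (d1 : ((S * J : ℕ) : ℤ) ∣ x'.1 - xc.1) (d2 : ((S * J : ℕ) : ℤ) ∣ x'.2 - xc.2)
    (r1 : |(x'.1 : ℝ) - h ^ 2 * ξ.1| ≤ ρ * h ^ 2) (r2 : |(x'.2 : ℝ) - h ^ 2 * ξ.2| ≤ ρ * h ^ 2)
    (g : Fin (6 + 1) → ℤ) (hgi : ∀ i, ((S * J : ℕ) : ℝ) * |(g i : ℝ)| ≤ 2 * η * h ^ 6) (z : ℤ) :
    ∃ α : ℝ, z ∈ setZ h ρ s (S * J) zc → ∀ w ∈ setW h ρ' r S wc,
      |bf g x'.1 x'.2 - uu (S * J) a f x' z w| ≤ K →
        α ≤ w ∧ (w : ℝ) ≤ α + (1 + t) * (((S * J : ℕ) : ℝ) * K / (r * h ^ 9)) := by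
  by_cases hz : z ∈ setZ h ρ s (S * J) zc
  swap
  · exact ⟨0, fun h => absurd h hz⟩
  have hh0 : 0 < h := by linarith
  have hS := hCD.pd.hS
  have hJ := hCD.pd.hJ
  have hQ0 : 0 < S * J := Nat.mul_pos hS hJ
  have hq0 : (0 : ℝ) < ((S * J : ℕ) : ℝ) := by exact_mod_cast hQ0
  have hr0 : 0 < r := lt_of_lt_of_le hγ hCD.hr
  have hY0 : 0 < r * h ^ 9 := by positivity
  have hY2 : γ ^ 2 * h ^ 18 ≤ (r * h ^ 9) ^ 2 := by
    rw [mul_pow, ← pow_mul]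
    exact mul_le_mul_of_nonneg_right (pow_le_pow_left₀ hγ.le hCD.hr 2) (by positivity)
  have hY3 := mul_le_mul_of_nonneg_left hY2 (by positivity : (0 : ℝ) ≤ t / 4)
  have hz' : h ^ 6 * (s - ρ) ≤ z ∧ (z : ℝ) ≤ h ^ 6 * (s + ρ) ∧ ((S * J : ℕ) : ℤ) ∣ z - zc := by
    rw [setZ, ap, Finset.mem_filter, Finset.mem_Icc, Int.ceil_le, Int.le_floor] at hz
    exact ⟨hz.1.1, hz.1.2, hz.2⟩
  have hzr : |(z : ℝ) - h ^ 6 * s| ≤ ρ * h ^ 6 := by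
    have e1 := hz'.1
    have e2 := hz'.2.1
    have e3 : h ^ 6 * (s - ρ) = h ^ 6 * s - ρ * h ^ 6 := by ring
    have e4 : h ^ 6 * (s + ρ) = h ^ 6 * s + ρ * h ^ 6 := by ring
    rw [e3] at e1
    rw [e4] at e2
    rw [abs_le]; constructor <;> linarith
  have hv := hCR h ρ η s r a f g ξ (S * J) x' z hh1 hρ hρ4 hη hη1 hCD.ha hCD.hf hCD.hξ1
    hCD.hξ2 hCD.hs hCD.hval r1 r2 hzr hgi
  obtain ⟨v, hvdef⟩ : ∃ v : ℝ, v = bf f (x'.1 : ℝ) x'.2 + ((S * J : ℕ) : ℝ) *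
    bf g (x'.1 : ℝ) x'.2 + bf a (x'.1 : ℝ) x'.2 * z + (z : ℝ) ^ 3 := ⟨_, rfl⟩
  rw [← hvdef] at hv
  have hv2 : |v - (r * h ^ 9) ^ 2| ≤ t / 4 * (r * h ^ 9) ^ 2 := by
    refine hv.trans ?_
    have e1 := mul_le_mul_of_nonneg_right hCRρ (by positivity : (0 : ℝ) ≤ h ^ 18)
    linarith
  obtain ⟨α, β, hα, -, hβ, hin, -⟩ := h4 (r * h ^ 9) t v (((S * J : ℕ) : ℝ) * K) hY0 ht0 ht2 hv2
    (mul_pos hq0 hK) (by linarith)
  refine ⟨α, fun _ w hw hgw => ?_⟩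
  have hw' : h ^ 9 * (r - ρ') ≤ w ∧ (S : ℤ) ∣ w - wc := by
    rw [setW, ap, Finset.mem_filter, Finset.mem_Icc, Int.ceil_le, Int.le_floor] at hw
    exact ⟨hw.1.1, hw.2⟩
  have hw0 : (0 : ℝ) < w := by
    refine lt_of_lt_of_le ?_ hw'.1
    have : 0 < r - ρ' := by linarith [hCD.hr]
    positivity
  have hUU := h5 w₀ a f S J xc zc wc hCD.pd x' z w d1 d2 hz'.2.2 hw'.2
  have e1 : (w : ℝ) ^ 2 - v =
      -(((S * J : ℕ) : ℝ) * ((bf g x'.1 x'.2 - uu (S * J) a f x' z w : ℤ) : ℝ)) := by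
    have e2 : ((Fv a f x' z w : ℤ) : ℝ) = -(((S * J : ℕ) : ℝ) * (uu (S * J) a f x' z w : ℤ)) := by
      rw [hUU]; push_cast; ring
    have e3 : ((Fv a f x' z w : ℤ) : ℝ) = bf f (x'.1 : ℝ) x'.2 + bf a (x'.1 : ℝ) x'.2 * z +
        (z : ℝ) ^ 3 - (w : ℝ) ^ 2 := by
      simp only [Fv]
      push_cast
      rw [bf_cast, bf_cast]
    rw [e3] at e2
    rw [hvdef, Int.cast_sub, bf_cast]
    linear_combination (-1 : ℝ) * e2
  have e2 : |(w : ℝ) ^ 2 - v| ≤ ((S * J : ℕ) : ℝ) * K := by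
    rw [e1, abs_neg, abs_mul, abs_of_pos hq0]
    refine mul_le_mul_of_nonneg_left ?_ hq0.le
    have : ((|bf g x'.1 x'.2 - uu (S * J) a f x' z w| : ℤ) : ℝ) ≤ ((K : ℤ) : ℝ) := by
      exact_mod_cast hgw
    rw [Int.cast_abs] at this
    simpa using this
  obtain ⟨e3, e4⟩ := hin w hw0 e2
  exact ⟨e3, by linarith⟩

end SM1Aux

open QuadAux SM1Aux

theorem t_SM1 (h1 : S_C2S) (h2 : S_QUAD) (h3 : S_RW) (h4 : S_IV) (h5 : S_UU) (h6 : S_XN) :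
    S_SM1 := by
  classical
  intro τ R γ ρ' hτ hR hγ hρ' hρ'γ
  obtain ⟨C, hC1, hC⟩ := h1
  obtain ⟨CR, hCR1, hCR⟩ := h3 R hR
  -- the small number
  set τ₁ : ℝ := min τ 1 with hτ₁
  have hτ₁0 : 0 < τ₁ := lt_min hτ one_pos
  have hτ₁1 : τ₁ ≤ 1 := min_le_right _ _
  have hτ₁τ : τ₁ ≤ τ := min_le_left _ _
  set t : ℝ := τ₁ / 8193 with ht
  have ht0 : 0 < t := by positivity
  have ht8 : 8193 * t = τ₁ := by rw [ht]; ring
  have ht2 : t ≤ 1 / 2 := by linarith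
  have ht13 : (1 + t) ^ 13 ≤ (1 - t) * (1 + τ) := by
    have := pow_le ht0.le (by linarith) 13
    norm_num at this
    nlinarith
  set ρ₁ : ℝ := min (1 / 4) (t * γ ^ 2 / (8 * CR)) with hρ₁
  have hρ₁0 : 0 < ρ₁ := lt_min (by norm_num) (by positivity)
  refine ⟨ρ₁, hρ₁0, min_le_left _ _, ?_⟩
  intro ρ η κ hρ hρρ₁ hη hηρ₁ hκ hκ1 Q₀
  have hρ4 : ρ ≤ 1 / 4 := hρρ₁.trans (min_le_left _ _)
  have hη1 : η ≤ 1 := (hηρ₁.trans (min_le_left _ _)).trans (by norm_num)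
  have hCRρ : CR * (ρ + η) ≤ t / 4 * γ ^ 2 := by
    have e1 : ρ ≤ t * γ ^ 2 / (8 * CR) := hρρ₁.trans (min_le_right _ _)
    have e2 : η ≤ t * γ ^ 2 / (8 * CR) := hηρ₁.trans (min_le_right _ _)
    rw [le_div_iff₀ (by positivity)] at e1 e2
    linarith
  set δ : ℝ := min (t * η * κ / (6 * C)) (t * γ ^ 2 / 4) with hδ
  have hδ0 : 0 < δ := lt_min (by positivity) (by positivity)
  have hδC : C * δ / κ ≤ t * η / 6 := by
    have e1 : δ ≤ t * η * κ / (6 * C) := min_le_left _ _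
    rw [le_div_iff₀ (by positivity)] at e1
    rw [div_le_iff₀ hκ]
    linarith
  have hδγ : δ ≤ t / 4 * γ ^ 2 := (min_le_right _ _).trans (le_of_eq (by ring))
  set h₀ : ℝ := 1 + 6 * C * Q₀ / (κ * t * η) + 9 * Q₀ / (t * ρ) + 36 * Q₀ * R / (t * δ) with hh₀
  have hm1 : 0 ≤ 6 * C * Q₀ / (κ * t * η) := by positivity
  have hm2 : 0 ≤ 9 * Q₀ / (t * ρ) := by positivity
  have hm3 : 0 ≤ 36 * Q₀ * R / (t * δ) := by positivity
  refine ⟨h₀, by linarith, ?_⟩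
  intro w₀ h a f S J xc zc wc ξ s r hw₀ hh hCD hSJ A hA x hx y hy hwd hκΔ
  have hh1 : 1 ≤ h := by linarith
  have hh0 : 0 < h := by linarith
  have hhh : h ≤ h ^ 2 := by nlinarith
  have hS := hCD.pd.hS
  have hJ := hCD.pd.hJ
  have hQ0 : 0 < S * J := Nat.mul_pos hS hJ
  set q : ℝ := ((S * J : ℕ) : ℝ) with hq
  have hq1 : 1 ≤ q := by rw [hq]; exact_mod_cast hQ0
  have hq0 : 0 < q := by linarith
  have hqQ₀ : q ≤ Q₀ := by rw [hq]; exact_mod_cast hSJ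
  have hSr : (1 : ℝ) ≤ S := by exact_mod_cast hS
  have hSq : (S : ℝ) ≤ q := by
    rw [hq]
    exact_mod_cast Nat.le_mul_of_pos_right S hJ
  have hQ₀1 : (1 : ℝ) ≤ Q₀ := by linarith
  -- the three conditions on `h`
  have M1 : 6 * C * Q₀ ≤ κ * t * η * h ^ 2 := by
    have : 6 * C * Q₀ / (κ * t * η) ≤ h ^ 2 := by linarith
    rw [div_le_iff₀ (by positivity)] at this
    linarith
  have M2 : 9 * Q₀ ≤ t * ρ * h ^ 2 := by
    have : 9 * Q₀ / (t * ρ) ≤ h ^ 2 := by linarith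
    rw [div_le_iff₀ (by positivity)] at this
    linarith
  have M3 : 36 * Q₀ * R ≤ t * δ * h ^ 2 := by
    have : 36 * Q₀ * R / (t * δ) ≤ h ^ 2 := by linarith
    rw [div_le_iff₀ (by positivity)] at this
    linarith
  -- nice vectors
  obtain ⟨nx, dx1, dx2, rx1, rx2, -⟩ := h6 h ρ ξ (S * J) xc hh1 hρ hρ4 hCD.hξ1 hCD.hξ2 hCD.hξ x hx
  obtain ⟨ny, dy1, dy2, ry1, ry2, -⟩ := h6 h ρ ξ (S * J) xc hh1 hρ hρ4 hCD.hξ1 hCD.hξ2 hCD.hξ y hy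
  have hP1 : 1 ≤ h ^ 2 := one_le_pow₀ hh1
  obtain ⟨lam, hl1, hl2⟩ := exists_lam (y := y) nx.cop
  set Δ : ℤ := wd x y with hΔ
  have hΔ0 : (0 : ℝ) < |(Δ : ℝ)| := abs_pos.2 (by exact_mod_cast hwd)
  have hΔ18 : |(Δ : ℝ)| ≤ 18 * h ^ 4 := by
    have := wd_le nx ny (by positivity)
    rw [← pow_mul] at this
    exact this
  -- powers of `h`
  have p46 : h ^ 4 * h ^ 2 = h ^ 6 := by ring
  have p6 : h ^ 2 ≤ h ^ 6 := pow_le_pow_right₀ hh1 (by norm_num)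
  have p18 : h ^ 2 ≤ h ^ 18 := pow_le_pow_right₀ hh1 (by norm_num)
  have p618 : h ^ 6 ≤ h ^ 18 := pow_le_pow_right₀ hh1 (by norm_num)
  have p69 : h ^ 6 ≤ h ^ 9 := pow_le_pow_right₀ hh1 (by norm_num)
  -- `K`
  set N18 : ℝ := δ * h ^ 18 / q with hN18
  have hN18q : N18 * q = δ * h ^ 18 := by rw [hN18]; field_simp
  have hN18' : 2 ≤ N18 := by
    rw [hN18, le_div_iff₀ hq0]
    have e1 : δ * h ^ 2 ≤ δ * h ^ 18 := mul_le_mul_of_nonneg_left p18 hδ0.le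
    have e2 : t * (δ * h ^ 2) ≤ 1 * (δ * h ^ 2) :=
      mul_le_mul_of_nonneg_right (by linarith) (by positivity)
    have e3 : 36 * (Q₀ : ℝ) * 1 ≤ 36 * Q₀ * R := mul_le_mul_of_nonneg_left hR (by positivity)
    linarith
  set K : ℕ := ⌊N18⌋₊ with hK
  have hKle : (K : ℝ) ≤ N18 := Nat.floor_le (by linarith)
  have hKlt : N18 < K + 1 := Nat.lt_floor_add_one _
  have hK2 : N18 / 2 ≤ K := by linarith
  have hK1 : (1 : ℝ) ≤ K := by linarith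
  -- `B`
  set b0 : ℝ := C * (K / (h ^ 2) ^ 6 + (h ^ 2) ^ 2) / κ with hb0
  have hb00 : 0 ≤ b0 := by positivity
  set B : ℕ := ⌈b0⌉₊ with hB
  have hBge : b0 ≤ B := Nat.le_ceil _
  have hBlt : (B : ℝ) < b0 + 1 := Nat.ceil_lt_add_one hb00
  set N6 : ℝ := η * h ^ 6 / q with hN6
  have hN6q : N6 * q = η * h ^ 6 := by rw [hN6]; field_simp
  have hN6t : 6 ≤ t * N6 := by
    rw [hN6, ← mul_div_assoc, le_div_iff₀ hq0]
    have e1 : 6 * (Q₀ : ℝ) ≤ 6 * C * Q₀ := by nlinarith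
    have e2 : κ * (t * η * h ^ 2) ≤ 1 * (t * η * h ^ 2) :=
      mul_le_mul_of_nonneg_right hκ1 (by positivity)
    have e3 : t * η * h ^ 2 ≤ t * η * h ^ 6 := mul_le_mul_of_nonneg_left p6 (by positivity)
    linarith
  have hN60 : 0 < N6 := by positivity
  have hb1 : b0 ≤ t * N6 / 3 := by
    have e1 : (K : ℝ) / (h ^ 2) ^ 6 ≤ δ * h ^ 6 / q := by
      rw [div_le_div_iff₀ (by positivity) hq0]
      have e2 := mul_le_mul_of_nonneg_right hKle hq0.le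
      rw [hN18q] at e2
      refine e2.trans (le_of_eq (by ring))
    have e3 : C * (K / (h ^ 2) ^ 6 + (h ^ 2) ^ 2) / κ ≤ C * (δ * h ^ 6 / q + (h ^ 2) ^ 2) / κ := by
      gcongr
    have e4 : C * (δ * h ^ 6 / q + (h ^ 2) ^ 2) / κ = (C * δ / κ) * (h ^ 6 / q) + C * h ^ 4 / κ := by
      field_simp
    have e5 : (C * δ / κ) * (h ^ 6 / q) ≤ (t * η / 6) * (h ^ 6 / q) :=
      mul_le_mul_of_nonneg_right hδC (by positivity)
    have e6 : C * h ^ 4 / κ ≤ (t * η / 6) * (h ^ 6 / q) := by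
      rw [div_le_iff₀ hκ]
      have e7 : (t * η / 6) * (h ^ 6 / q) * κ = (κ * t * η * h ^ 2) * h ^ 4 / (6 * q) := by
        rw [← p46]; field_simp
      rw [e7, le_div_iff₀ (by positivity)]
      have e8 : 6 * C * q ≤ κ * t * η * h ^ 2 := by
        have : 6 * C * q ≤ 6 * C * Q₀ := mul_le_mul_of_nonneg_left hqQ₀ (by positivity)
        linarith
      have e9 := mul_le_mul_of_nonneg_right e8 (by positivity : (0 : ℝ) ≤ h ^ 4)
      linarith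
    have e10 : t * N6 / 3 = (t * η / 6) * (h ^ 6 / q) + (t * η / 6) * (h ^ 6 / q) := by
      rw [hN6]; ring
    rw [hb0]
    linarith
  have hBle : (B : ℝ) ≤ t * N6 / 2 := by linarith
  have hA' : A = ⌊N6⌋₊ := hA
  have hAle : (A : ℝ) ≤ N6 := by rw [hA']; exact Nat.floor_le hN60.le
  have hAlt : N6 < A + 1 := by rw [hA']; exact Nat.lt_floor_add_one _
  have hA0 : (0 : ℝ) ≤ A := Nat.cast_nonneg A
  -- the number of forms
  have hG : ((bx 6 (A + B)).card : ℝ) ≤ (1 + t) ^ 7 * (bx 6 A).card := by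
    rw [bx_card, bx_card]
    push_cast
    have e1 : 2 * ((A : ℝ) + B) + 1 ≤ (1 + t) * (2 * A + 1) := by nlinarith
    have e2 := pow_le_pow_left₀ (by positivity) e1 7
    rw [mul_pow] at e2
    exact e2
  -- the interval
  set Y : ℝ := r * h ^ 9 with hY
  have hr0 : 0 < r := lt_of_lt_of_le hγ hCD.hr
  have hY0 : 0 < Y := by positivity
  have hY2 : γ ^ 2 * h ^ 18 ≤ Y ^ 2 := by
    rw [hY, mul_pow, ← pow_mul]
    exact mul_le_mul_of_nonneg_right (pow_le_pow_left₀ hγ.le hCD.hr 2) (by positivity)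
  set e : ℝ := q * K with he
  have he0 : 0 < e := by positivity
  have heδ : e ≤ δ * h ^ 18 := by
    rw [he, ← hN18q, mul_comm]
    exact mul_le_mul_of_nonneg_right hKle hq0.le
  have heY : e ≤ t / 4 * Y ^ 2 := by
    have e1 := mul_le_mul_of_nonneg_right hδγ (by positivity : (0 : ℝ) ≤ h ^ 18)
    have e2 := mul_le_mul_of_nonneg_left hY2 (by positivity : (0 : ℝ) ≤ t / 4)
    linarith
  set L : ℝ := (1 + t) * (e / Y) with hL
  have hL0 : 0 ≤ L := by positivity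
  have hgi : ∀ g ∈ bx 6 (A + B), ∀ i, ((S * J : ℕ) : ℝ) * |(g i : ℝ)| ≤ 2 * η * h ^ 6 := by
    intro g hg i
    have e1 := (Fintype.mem_piFinset.1 hg) i
    rw [Finset.mem_Icc] at e1
    have e2 : |(g i : ℝ)| ≤ A + B := by
      rw [abs_le]
      constructor
      · have := e1.1
        have h' : (-((A + B : ℕ) : ℤ) : ℝ) ≤ (g i : ℝ) := by exact_mod_cast this
        push_cast at h'
        linarith
      · have := e1.2
        have h' : (g i : ℝ) ≤ (((A + B : ℕ) : ℤ) : ℝ) := by exact_mod_cast this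
        push_cast at h'
        linarith
    have e0 : t * N6 ≤ 1 * N6 := mul_le_mul_of_nonneg_right (by linarith) hN60.le
    have e3 : |(g i : ℝ)| ≤ 2 * N6 := by linarith
    have e4 := mul_le_mul_of_nonneg_left e3 hq0.le
    refine e4.trans (le_of_eq ?_)
    rw [mul_assoc 2 η, ← hN6q]
    ring
  have hKe : ((S * J : ℕ) : ℝ) * K ≤ t / 4 * γ ^ 2 * h ^ 18 :=
    heδ.trans (mul_le_mul_of_nonneg_right hδγ (by positivity))
  have hK0 : (0 : ℝ) < K := by linarith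
  have hivl : ∀ x' : ℤ × ℤ, ((S * J : ℕ) : ℤ) ∣ x'.1 - xc.1 → ((S * J : ℕ) : ℤ) ∣ x'.2 - xc.2 →
      |(x'.1 : ℝ) - h ^ 2 * ξ.1| ≤ ρ * h ^ 2 → |(x'.2 : ℝ) - h ^ 2 * ξ.2| ≤ ρ * h ^ 2 →
      ∀ g ∈ bx 6 (A + B), ∀ z : ℤ, ∃ α : ℝ, z ∈ setZ h ρ s (S * J) zc → ∀ w ∈ setW h ρ' r S wc,
      |bf g x'.1 x'.2 - uu (S * J) a f x' z w| ≤ K → α ≤ w ∧ (w : ℝ) ≤ α + L := by
    intro x' d1 d2 r1 r2 g hg z
    exact ivl h4 h5 (show RWB R CR from hCR) hCD hh1 hρ hρ4 hη hη1 hγ hρ'γ ht0 ht2 hCRρ hK0 hKe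
      x' d1 d2 r1 r2 g (hgi g hg) z
  -- the set of quadruples
  set 𝒵 := (setZ h ρ s (S * J) zc ×ˢ setW h ρ' r S wc) ×ˢ
    (setZ h ρ s (S * J) zc ×ˢ setW h ρ' r S wc) with h𝒵
  set 𝒯 := 𝒵.filter (fun p : (ℤ × ℤ) × (ℤ × ℤ) => ((S * J : ℕ) : ℤ) * Δ ∣
    Fv a f y p.2.1 p.2.2 - lam ^ 6 * Fv a f x p.1.1 p.1.2) with h𝒯
  have hcs : cs2 A (S * J) S h ρ ρ' s r a f zc wc x y = ∑ p ∈ 𝒵,
      (cnt2 A x y (uu (S * J) a f x p.1.1 p.1.2) (uu (S * J) a f y p.2.1 p.2.2) : ℝ) := by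
    unfold cs2
    rw [h𝒵, Finset.sum_product, Finset.sum_product]
    refine Finset.sum_congr rfl fun z _ => Finset.sum_congr rfl fun w _ => ?_
    rw [Finset.sum_product]
  have hZm : ∀ z ∈ setZ h ρ s (S * J) zc, ((S * J : ℕ) : ℤ) ∣ z - zc := by
    intro z hz
    rw [setZ, ap, Finset.mem_filter] at hz
    exact hz.2
  have hWm : ∀ w ∈ setW h ρ' r S wc, (S : ℤ) ∣ w - wc := by
    intro w hw
    rw [setW, ap, Finset.mem_filter] at hw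
    exact hw.2
  have hzero : ∀ p ∈ 𝒵, p ∉ 𝒯 → (cnt2 A x y (uu (S * J) a f x p.1.1 p.1.2)
      (uu (S * J) a f y p.2.1 p.2.2) : ℝ) = 0 := by
    intro p hp hpT
    by_contra hne
    apply hpT
    rw [h𝒯, Finset.mem_filter]
    refine ⟨hp, ?_⟩
    rw [h𝒵, Finset.mem_product, Finset.mem_product, Finset.mem_product] at hp
    obtain ⟨⟨hp1, hp2⟩, hp3, hp4⟩ := hp
    have hne' : cnt2 A x y (uu (S * J) a f x p.1.1 p.1.2) (uu (S * J) a f y p.2.1 p.2.2) ≠ 0 := by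
      intro h'
      exact hne (by exact_mod_cast h')
    unfold cnt2 at hne'
    obtain ⟨g, hg⟩ := Finset.card_pos.1 (Nat.pos_of_ne_zero hne')
    rw [Finset.mem_filter] at hg
    obtain ⟨-, g1, g2⟩ := hg
    have hc := bf_congr g x y lam Δ hl1 hl2
    rw [g1, g2] at hc
    have u1 := h5 w₀ a f S J xc zc wc hCD.pd x p.1.1 p.1.2 dx1 dx2 (hZm _ hp1) (hWm _ hp2)
    have u2 := h5 w₀ a f S J xc zc wc hCD.pd y p.2.1 p.2.2 dy1 dy2 (hZm _ hp3) (hWm _ hp4)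
    obtain ⟨k, hk⟩ := hc
    refine ⟨-k, ?_⟩
    rw [u1, u2]
    linear_combination (-((S * J : ℕ) : ℤ)) * hk
  -- the main inequality
  have hmain : (2 * K / |(Δ : ℝ)| - 1) * (2 * K + 1) * cs2 A (S * J) S h ρ ρ' s r a f zc wc x y ≤
      (bx 6 (A + B)).card * ((1 + t) ^ 4 * (2 * ρ * h ^ 6 / q) ^ 2 * (L / S) * (L / S) *
        sig w₀ Δ / |(Δ : ℝ)|) := by
    have e1 : (2 * K / |(Δ : ℝ)| - 1) * (2 * K + 1) * cs2 A (S * J) S h ρ ρ' s r a f zc wc x y ≤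
        ∑ p ∈ 𝒯, (near2 (A + B) K x y (uu (S * J) a f x p.1.1 p.1.2)
          (uu (S * J) a f y p.2.1 p.2.2) : ℝ) := by
      rw [hcs, ← Finset.sum_subset (Finset.filter_subset _ _) hzero, Finset.mul_sum]
      refine Finset.sum_le_sum fun p _ => ?_
      refine hC (h ^ 2) κ A B K x y _ _ hP1 nx ny hκ hκ1 ?_ hBge
      rw [← pow_mul]
      exact hκΔ
    have e2 : ∑ p ∈ 𝒯, (near2 (A + B) K x y (uu (S * J) a f x p.1.1 p.1.2)
          (uu (S * J) a f y p.2.1 p.2.2) : ℝ) = ∑ g ∈ bx 6 (A + B),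
        ((𝒯.filter (fun p => |bf g x.1 x.2 - uu (S * J) a f x p.1.1 p.1.2| ≤ K ∧
          |bf g y.1 y.2 - uu (S * J) a f y p.2.1 p.2.2| ≤ K)).card : ℝ) := by
      unfold near2
      simp only [← Finset.sum_boole]
      rw [Finset.sum_comm]
    have e3 : ∀ g ∈ bx 6 (A + B),
        ((𝒯.filter (fun p => |bf g x.1 x.2 - uu (S * J) a f x p.1.1 p.1.2| ≤ K ∧
          |bf g y.1 y.2 - uu (S * J) a f y p.2.1 p.2.2| ≤ K)).card : ℝ) ≤
        (1 + t) ^ 4 * (2 * ρ * h ^ 6 / q) ^ 2 * (L / S) * (L / S) *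
        sig w₀ Δ / |(Δ : ℝ)| := by
      intro g hg
      choose αx hαx using hivl x dx1 dx2 rx1 rx2 g hg
      choose αy hαy using hivl y dy1 dy2 ry1 ry2 g hg
      have hLs : (S : ℝ) * |(Δ : ℝ)| ≤ t * L := by
        have f1 : δ * h ^ 9 / (2 * R) ≤ e / Y := by
          rw [div_le_div_iff₀ (by positivity) hY0]
          have f2 : δ * h ^ 18 ≤ 2 * e := by
            have := mul_le_mul_of_nonneg_left hK2 hq0.le
            rw [he]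
            linarith [hN18q]
          have f3 : Y ≤ R * h ^ 9 := mul_le_mul_of_nonneg_right hCD.hr' (by positivity)
          calc δ * h ^ 9 * Y ≤ δ * h ^ 9 * (R * h ^ 9) :=
                mul_le_mul_of_nonneg_left f3 (by positivity)
            _ = (δ * h ^ 18) * R := by ring
            _ ≤ (2 * e) * R := mul_le_mul_of_nonneg_right f2 (by linarith)
            _ = e * (2 * R) := by ring
        have f4 : 18 * Q₀ * h ^ 4 ≤ t * (δ * h ^ 9 / (2 * R)) := by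
          rw [← mul_div_assoc, le_div_iff₀ (by positivity)]
          have f5 := mul_le_mul_of_nonneg_right M3 (by positivity : (0 : ℝ) ≤ h ^ 4)
          have f6 : t * δ * h ^ 6 ≤ t * δ * h ^ 9 := mul_le_mul_of_nonneg_left p69 (by positivity)
          calc 18 * Q₀ * h ^ 4 * (2 * R) = 36 * Q₀ * R * h ^ 4 := by ring
            _ ≤ t * δ * h ^ 2 * h ^ 4 := f5
            _ = t * δ * h ^ 6 := by ring
            _ ≤ t * δ * h ^ 9 := f6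
            _ = t * (δ * h ^ 9) := by ring
        have f7 : (S : ℝ) * |(Δ : ℝ)| ≤ Q₀ * (18 * h ^ 4) :=
          mul_le_mul (hSq.trans hqQ₀) hΔ18 (abs_nonneg _) (by linarith)
        have f8 : t * (δ * h ^ 9 / (2 * R)) ≤ t * (e / Y) := mul_le_mul_of_nonneg_left f1 ht0.le
        have f9 : 0 ≤ t * (e / Y) := by positivity
        have f10 : t * L = t * (e / Y) + t * (t * (e / Y)) := by rw [hL]; ring
        have f11 : 0 ≤ t * (t * (e / Y)) := by positivity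
        linarith
      have hLzs : ((S * J : ℕ) : ℝ) * |(Δ : ℝ)| ≤ t * (2 * ρ * h ^ 6) := by
        have f1 : q * |(Δ : ℝ)| ≤ Q₀ * (18 * h ^ 4) :=
          mul_le_mul hqQ₀ hΔ18 (abs_nonneg _) (by linarith)
        have f2 := mul_le_mul_of_nonneg_right M2 (by positivity : (0 : ℝ) ≤ h ^ 4)
        have f3 : t * ρ * h ^ 2 * h ^ 4 = t * ρ * h ^ 6 := by ring
        linarith
      refine h2 w₀ a f S J xc zc wc hw₀ hCD.pd x y lam Δ ny.cop rfl hwd hl1 hl2 t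
        (h ^ 6 * (s - ρ)) (2 * ρ * h ^ 6) L L αx (fun _ _ z' => αy z') ht0 hL0 hL0 hLzs hLs hLs _ ?_
      intro p hp
      rw [Finset.mem_filter, h𝒯, Finset.mem_filter, h𝒵, Finset.mem_product, Finset.mem_product,
        Finset.mem_product] at hp
      obtain ⟨⟨⟨⟨hp1, hp2⟩, hp3, hp4⟩, hp5⟩, hp6, hp7⟩ := hp
      have hZe : setZ h ρ s (S * J) zc = ap (h ^ 6 * (s - ρ)) (h ^ 6 * (s - ρ) + 2 * ρ * h ^ 6)
          (S * J) zc := by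
        unfold setZ
        congr 1
        ring
      refine ⟨by rw [← hZe]; exact hp1, by rw [← hZe]; exact hp3, hWm _ hp2, hWm _ hp4, ?_, ?_, hp5⟩
      · exact hαx p.1.1 hp1 p.1.2 hp2 hp6
      · exact hαy p.2.1 hp3 p.2.2 hp4 hp7
    refine e1.trans (le_trans (le_of_eq e2) ((Finset.sum_le_sum e3).trans (le_of_eq ?_)))
    rw [Finset.sum_const, nsmul_eq_mul]
  -- the end
  have hcs0 : 0 ≤ cs2 A (S * J) S h ρ ρ' s r a f zc wc x y := by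
    rw [hcs]
    exact Finset.sum_nonneg fun _ _ => Nat.cast_nonneg _
  set c0 := cs2 A (S * J) S h ρ ρ' s r a f zc wc x y with hc0
  set σ := sig w₀ Δ with hσ
  have hσ0 : 0 ≤ σ := sig_nonneg _ _
  have hΔK : |(Δ : ℝ)| ≤ 2 * t * K := by
    have f1 : 18 * h ^ 4 * q ≤ t * (δ * h ^ 18) := by
      have f2 : 18 * q ≤ t * δ * h ^ 2 := by
        have : 36 * (Q₀ : ℝ) * 1 ≤ 36 * Q₀ * R := mul_le_mul_of_nonneg_left hR (by positivity)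
        linarith
      have f3 := mul_le_mul_of_nonneg_right f2 (by positivity : (0 : ℝ) ≤ h ^ 4)
      have f4 : t * δ * h ^ 6 ≤ t * δ * h ^ 18 := mul_le_mul_of_nonneg_left p618 (by positivity)
      have f5 : t * δ * h ^ 2 * h ^ 4 = t * δ * h ^ 6 := by ring
      linarith
    have f6 : 18 * h ^ 4 ≤ t * N18 := by
      have : t * N18 = t * (δ * h ^ 18) / q := by rw [hN18]; ring
      rw [this, le_div_iff₀ hq0]
      exact f1
    have f7 : t * N18 ≤ t * (2 * K) := mul_le_mul_of_nonneg_left (by linarith) ht0.le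
    linarith
  have g1 : (1 - t) * (2 * K) / |(Δ : ℝ)| ≤ 2 * K / |(Δ : ℝ)| - 1 := by
    have k1 : 1 ≤ 2 * t * K / |(Δ : ℝ)| := (one_le_div hΔ0).2 hΔK
    have k2 : (1 - t) * (2 * K) / |(Δ : ℝ)| = 2 * K / |(Δ : ℝ)| - 2 * t * K / |(Δ : ℝ)| := by ring
    linarith
  have g2 : (1 - t) * (2 * K) / |(Δ : ℝ)| * (2 * K) * c0 ≤
      (2 * K / |(Δ : ℝ)| - 1) * (2 * K + 1) * c0 := by
    refine mul_le_mul_of_nonneg_right ?_ hcs0
    have : 0 ≤ (1 - t) * (2 * K) / |(Δ : ℝ)| :=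
      div_nonneg (mul_nonneg (by linarith) (by linarith)) hΔ0.le
    exact mul_le_mul g1 (by linarith) (by linarith) (this.trans g1)
  have g3 := g2.trans hmain
  have g4 : (1 - t) * (4 * K ^ 2) * c0 ≤ (bx 6 (A + B)).card * ((1 + t) ^ 4 *
      (2 * ρ * h ^ 6 / q) ^ 2 * (L / S) * (L / S) * σ) := by
    have := mul_le_mul_of_nonneg_right g3 hΔ0.le
    have e1 : (1 - t) * (2 * K) / |(Δ : ℝ)| * (2 * K) * c0 * |(Δ : ℝ)| =
        (1 - t) * (4 * K ^ 2) * c0 := by field_simp; ring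
    have e2 : ((bx 6 (A + B)).card : ℝ) * ((1 + t) ^ 4 * (2 * ρ * h ^ 6 / q) ^ 2 * (L / S) *
        (L / S) * σ / |(Δ : ℝ)|) * |(Δ : ℝ)| = (bx 6 (A + B)).card * ((1 + t) ^ 4 *
      (2 * ρ * h ^ 6 / q) ^ 2 * (L / S) * (L / S) * σ) := by field_simp
    rw [e1, e2] at this
    exact this
  have hSr0 : (0 : ℝ) < S := by linarith
  have g5 : (bx 6 (A + B)).card * ((1 + t) ^ 4 * (2 * ρ * h ^ 6 / q) ^ 2 * (L / S) * (L / S) * σ) =
      (4 * K ^ 2) * ((bx 6 (A + B)).card * ((1 + t) ^ 6 * (ρ / (r * h ^ 3 * S)) ^ 2 * σ)) := by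
    rw [hL, he, hY]
    field_simp
    ring
  rw [g5] at g4
  have g6 : (1 - t) * c0 ≤ (bx 6 (A + B)).card * ((1 + t) ^ 6 * (ρ / (r * h ^ 3 * S)) ^ 2 * σ) := by
    have : (4 * (K : ℝ) ^ 2) * ((1 - t) * c0) ≤ (4 * K ^ 2) * ((bx 6 (A + B)).card *
        ((1 + t) ^ 6 * (ρ / (r * h ^ 3 * S)) ^ 2 * σ)) := by linarith
    exact le_of_mul_le_mul_left this (by positivity)
  have g7 : (bx 6 (A + B)).card * ((1 + t) ^ 6 * (ρ / (r * h ^ 3 * S)) ^ 2 * σ) ≤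
      (1 + t) ^ 13 * ((bx 6 A).card * ((ρ / (r * h ^ 3 * S)) ^ 2 * σ)) := by
    have := mul_le_mul_of_nonneg_right hG
      (by positivity : 0 ≤ (1 + t) ^ 6 * (ρ / (r * h ^ 3 * S)) ^ 2 * σ)
    refine this.trans (le_of_eq (by ring))
  have g8 : (1 + t) ^ 13 * ((bx 6 A).card * ((ρ / (r * h ^ 3 * S)) ^ 2 * σ)) ≤
      (1 - t) * (1 + τ) * ((bx 6 A).card * ((ρ / (r * h ^ 3 * S)) ^ 2 * σ)) :=
    mul_le_mul_of_nonneg_right ht13 (by positivity)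
  have g9 : (1 - t) * c0 ≤ (1 - t) * ((1 + τ) * (bx 6 A).card * (ρ / (r * h ^ 3 * S)) ^ 2 * σ) := by
    refine (g6.trans (g7.trans g8)).trans (le_of_eq (by ring))
  exact le_of_mul_le_mul_left g9 (by linarith)

end Pool.Agent.H90S
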