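import Mathlib

/-!
# Project H90S: del Pezzo surfaces of degree one over the rational numbers

`w ^ 2 = z ^ 3 + a(x) z + f(x)`, `a` a binary quartic form with coefficients `≤ h ^ 4`, `f` a binary sextic
form with coefficients `≤ h ^ 6`. For EVERY `a` and 100% of the `f` the surface satisfies weak
approximation (precision `1 / m`). Second moment method: the points have size `x ≈ h ^ 2 ξ`,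
`z ≈ h ^ 6 s`, `w ≈ h ^ 9 r`; only `f` varies, `f + Q g`, `|g| ≤ A ≈ η h ^ 6 / Q`. For two vectors `x`, `y`
with `Δ = x ∧ y ≠ 0` the values `(g(x), g(y))` fill the lattice `v ≡ λ ^ 6 u mod Δ`, and
`w' ^ 2 - z' ^ 3 - a(y) z' ≡ λ ^ 6 (w ^ 2 - z ^ 3 - a(x) z)` has the expected number of solutions modulo `Δ`
up to the factor `∑_{E ∣ Δ} ∏_{p ∣ E} (3 / p)`.

Part 1: the counting part (forms are given by their coefficients).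
-/

namespace Pool.Agent.H90S

/-- the value at `(u, v)` of the binary form `∑ c_i u ^ i v ^ (d - i)` -/
def bf {R : Type} [CommRing R] {d : ℕ} (c : Fin (d + 1) → ℤ) (u v : R) : R :=
  ∑ i : Fin (d + 1), (c i : R) * (u ^ (i : ℕ) * v ^ (d - (i : ℕ)))

/-- the coefficient vectors of the binary forms of degree `d` with coefficients `≤ A` -/
noncomputable def bx (d A : ℕ) : Finset (Fin (d + 1) → ℤ) :=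
  Fintype.piFinset (fun _ => Finset.Icc (-(A : ℤ)) A)

/-- `f(x) + a(x) z + z ^ 3 - w ^ 2` -/
def Fv (a : Fin (4 + 1) → ℤ) (f : Fin (6 + 1) → ℤ) (x : ℤ × ℤ) (z w : ℤ) : ℤ :=
  bf f x.1 x.2 + bf a x.1 x.2 * z + z ^ 3 - w ^ 2

/-- the determinant of two vectors -/
def wd (x y : ℤ × ℤ) : ℤ := x.1 * y.2 - x.2 * y.1

/-- coprime vectors of size about `P` -/
structure Nice (P : ℝ) (x : ℤ × ℤ) : Prop where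
  cop : IsCoprime x.1 x.2
  le1 : |(x.1 : ℝ)| ≤ 3 * P
  le2 : |(x.2 : ℝ)| ≤ 3 * P
  big : P / 4 ≤ |(x.1 : ℝ)| ∨ P / 4 ≤ |(x.2 : ℝ)|

/-! ## Counting forms with given values -/

/-- **OPI** (interpolation). Induction on `d`. `d = 0`: `q = k`. Step, `|x.1| ≥ P / 4`: choose `c` with
`|c| ≤ |x.1|` and `x.1 ∣ k - c x.2 ^ (d + 1)` (`x.2` is a unit modulo `x.1`), `k₁ = (k - c x.2 ^ (d + 1)) / x.1`,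
`q₁` of degree `d` with `q₁(x) = k₁`, and `q = u q₁(u, v) + c v ^ (d + 1)` (`q 0 = c`, `q (i + 1) = q₁ i`;
`Fin.cons`, `Fin.sum_univ_succ`). `|k₁| / P ^ d ≤ 4 |k| / P ^ (d + 1) + 4 · 3 ^ (d + 2) P`. The case
`|x.2| ≥ P / 4` is symmetric (exchange `u`, `v`, `Fin.rev`). -/
def S_OPI : Prop :=
  ∀ d : ℕ, ∃ C : ℝ, 1 ≤ C ∧ ∀ (P : ℝ) (x : ℤ × ℤ), 1 ≤ P → Nice P x → ∀ k : ℤ,
    ∃ q : Fin (d + 1) → ℤ, bf q x.1 x.2 = k ∧ ∀ i, |(q i : ℝ)| ≤ C * (|(k : ℝ)| / P ^ d + P)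

/-- number of forms with `g(x) = u` -/
noncomputable def cnt1 (A : ℕ) (x : ℤ × ℤ) (u : ℤ) : ℕ :=
  ((bx 6 A).filter (fun g => bf g x.1 x.2 = u)).card

/-- number of forms with `g(x) = u`, `g(y) = v` -/
noncomputable def cnt2 (A : ℕ) (x y : ℤ × ℤ) (u v : ℤ) : ℕ :=
  ((bx 6 A).filter (fun g => bf g x.1 x.2 = u ∧ bf g y.1 y.2 = v)).card

/-- number of forms with `|g(x) - u| ≤ K` -/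
noncomputable def near1 (A K : ℕ) (x : ℤ × ℤ) (u : ℤ) : ℕ :=
  ((bx 6 A).filter (fun g => |bf g x.1 x.2 - u| ≤ K)).card

/-- number of forms with `|g(x) - u| ≤ K`, `|g(y) - v| ≤ K` -/
noncomputable def near2 (A K : ℕ) (x y : ℤ × ℤ) (u v : ℤ) : ℕ :=
  ((bx 6 A).filter (fun g => |bf g x.1 x.2 - u| ≤ K ∧ |bf g y.1 y.2 - v| ≤ K)).card

/-- **C1U** (from OPI, `d = 6`). Let `C₀` be the constant of OPI and `c₀ = 1 / (2 C₀)`. For `|k| ≤ c₀ A P ^ 6`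
let `q_k` be the form of OPI; its coefficients are `≤ A / 2 + C₀ P ≤ A` (`2 C₀ P ≤ A`). The map
`(g, k) ↦ g + q_k` is injective on the `g` with `g(x) = u` (the value at `x` gives `k`) and goes into
`bx 6 (2 A)`, so `(2 ⌊c₀ A P ^ 6⌋ + 1) cnt1 ≤ (4 A + 1) ^ 7 ≤ 2 ^ 7 (2 A + 1) ^ 7`. -/
def S_C1U : Prop :=
  ∃ C : ℝ, 1 ≤ C ∧ ∀ (P : ℝ) (A : ℕ) (x : ℤ × ℤ) (u : ℤ), 1 ≤ P → Nice P x → C * P ≤ A →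
    (cnt1 A x u : ℝ) ≤ C * (bx 6 A).card / (A * P ^ 6)

/-- **C1L** (from OPI). `g ↦ (k, g - q_k)` where `k = g(x) - u`, injective. -/
def S_C1L : Prop :=
  ∃ C : ℝ, 1 ≤ C ∧ ∀ (P : ℝ) (A B K : ℕ) (x : ℤ × ℤ) (u : ℤ), 1 ≤ P → Nice P x →
    C * (K / P ^ 6 + P) ≤ B → near1 A K x u ≤ (2 * K + 1) * cnt1 (A + B) x u

/-- **C2U** (from OPI, `d = 6` and `d = 5`). For `|k| ≤ c₀ A P ^ 6` let `q_k` be as in C1U (coefficients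
`≤ A / 2`); for `|c| ≤ c₀ A P ^ 4` let `q'_c` be a quintic form with `q'_c(y) = c` and coefficients
`≤ C₀ (|c| / P ^ 5 + P)`, and `L(u, v) = x.1 v - x.2 u`, so `L(x) = 0`, `L(y) = wd x y`; the coefficients of
`L q'_c` are `≤ 6 C₀ (|c| / P ^ 4 + P ^ 2) ≤ A / 2`. The map `(g, k, c) ↦ g + q_k + L q'_c` is injective on
the `g` with `g(x) = u`, `g(y) = v` (the value at `x` gives `k`, then the value at `y` gives `c`), values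
in `bx 6 (2 A)`. -/
def S_C2U : Prop :=
  ∃ C : ℝ, 1 ≤ C ∧ ∀ (P : ℝ) (A : ℕ) (x y : ℤ × ℤ) (u v : ℤ), 1 ≤ P → Nice P x → Nice P y →
    wd x y ≠ 0 → C * P ^ 2 ≤ A → (cnt2 A x y u v : ℝ) ≤ C * (bx 6 A).card / (A ^ 2 * P ^ 10)

/-- **C2R** (elementary). Let `|x.1| ≥ P / 4`, `α = y.1 / x.1`, so `|α| ≤ 12`, `y.1 = α x.1` and
`y.2 - α x.2 = wd x y / x.1`. For a form `g` with `g(x) = u`, `g(y) = v`: `v - α ^ 6 u = g(y) - g(α x)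
= ∑ g_i y.1 ^ i (y.2 ^ (6 - i) - (α x.2) ^ (6 - i))`. -/
def S_C2R : Prop :=
  ∃ C : ℝ, 1 ≤ C ∧ ∀ (P : ℝ) (A : ℕ) (x y : ℤ × ℤ) (u v : ℤ), 1 ≤ P → Nice P x → Nice P y →
    cnt2 A x y u v ≠ 0 →
    (P / 4 ≤ |(x.1 : ℝ)| → |(v : ℝ) - ((y.1 : ℝ) / x.1) ^ 6 * u| ≤ C * A * P ^ 4 * |(wd x y : ℝ)|) ∧
    (P / 4 ≤ |(x.2 : ℝ)| → |(v : ℝ) - ((y.2 : ℝ) / x.2) ^ 6 * u| ≤ C * A * P ^ 4 * |(wd x y : ℝ)|)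

/-- **C2S** (from OPI). Let `Δ = wd x y`. For `|k| ≤ K` let `q_k` be a sextic form with `q_k(x) = k`,
coefficients `≤ C₀ (K / P ^ 6 + P)`, so `|q_k(y)| ≤ C' (K + P ^ 7)`. For every `k'` with `|k'| ≤ K` and
`Δ ∣ k' - q_k(y)` (at least `2 K / |Δ| - 1` numbers) put `c = (k' - q_k(y)) / Δ`,
`|c| ≤ C'' (K + P ^ 7) / (κ P ^ 2)`, and `e = q_k + L q'_c` (as in C2U), so `e(x) = k`, `e(y) = k'`; the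
coefficients of `L q'_c` are `≤ 6 C₀ (|c| / P ^ 4 + P ^ 2) ≤ C''' (K / P ^ 6 + P ^ 2) / κ`. The map
`(g, k, k') ↦ g + e` is injective. (If `2 K / |Δ| - 1 < 0` there is nothing to prove.) -/
def S_C2S : Prop :=
  ∃ C : ℝ, 1 ≤ C ∧ ∀ (P κ : ℝ) (A B K : ℕ) (x y : ℤ × ℤ) (u v : ℤ), 1 ≤ P → Nice P x →
    Nice P y → 0 < κ → κ ≤ 1 → κ * P ^ 2 ≤ |(wd x y : ℝ)| → C * (K / P ^ 6 + P ^ 2) / κ ≤ B →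
    (2 * K / |(wd x y : ℝ)| - 1) * (2 * K + 1) * cnt2 A x y u v ≤ near2 (A + B) K x y u v

/-! ## Integers in arithmetic progressions -/

/-- the integers `≡ c mod q` in `[α, β]` -/
noncomputable def ap (α β : ℝ) (q : ℕ) (c : ℤ) : Finset ℤ :=
  (Finset.Icc ⌈α⌉ ⌊β⌋).filter (fun n => (q : ℤ) ∣ n - c)

/-- **AP** (elementary). -/
def S_AP : Prop :=
  (∀ (α β : ℝ) (q : ℕ) (c : ℤ), 1 ≤ q → α ≤ β →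
    (β - α) / q - 1 ≤ (ap α β q c).card ∧ ((ap α β q c).card : ℝ) ≤ (β - α) / q + 1) ∧
  ∀ (α L : ℝ) (q : ℕ) (W : Finset ℤ), 1 ≤ q → 0 ≤ L → (∀ n ∈ W, α ≤ n ∧ (n : ℝ) ≤ α + L) →
    (∀ n ∈ W, ∀ n' ∈ W, (q : ℤ) ∣ n - n') → (W.card : ℝ) ≤ L / q + 1

/-! ## Arithmetic functions -/

/-- no prime up to `w` divides `n` -/
def rgh (w n : ℕ) : Prop := ∀ p : ℕ, p.Prime → p ≤ w → ¬ p ∣ n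

/-- `∏_{p ∣ E} (3 / p)` -/
noncomputable def psi (E : ℕ) : ℝ := ∏ p ∈ E.primeFactors, (3 / (p : ℝ))

open scoped Classical in
/-- `∑_{E ∣ n, E rough} ψ(E)` -/
noncomputable def sig (w : ℕ) (n : ℤ) : ℝ := ∑ E ∈ n.natAbs.divisors.filter (rgh w), psi E

/-- **ROOT**. A monic cubic polynomial has at most `3` roots modulo a prime `p`, so at most
`3 ^ ω(E)` roots modulo the product of the prime factors of `E` (the residues modulo the primes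
determine the residue modulo the product), and each of these has `E / rad E` lifts modulo `E`. -/
def S_ROOT : Prop :=
  ∀ (E : ℕ) (b c d : ℤ), 1 ≤ E →
    (((Finset.range E).filter (fun z : ℕ =>
      (E : ℤ) ∣ (z : ℤ) ^ 3 + b * z ^ 2 + c * z + d)).card : ℝ) ≤ E * psi E

/-- **HYP**. The map `(w, w') ↦ (w' - μ w, w' + μ w)` modulo `D` is injective, as `2` and `μ` are units.
So the number is at most that of the pairs `(X, Y)` modulo `D` with `X Y ≡ c`. For `E ∣ D` there are at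
most `D / E` residues `X` with `gcd(X, D) = E`, then `E ∣ c`, and at most `E` residues `Y` with
`X Y ≡ c` (two of them differ by a multiple of `D / E`). -/
def S_HYP : Prop :=
  ∀ (D : ℕ) (μ c : ℤ), 1 ≤ D → Odd D → IsCoprime μ (D : ℤ) →
    ((Finset.range D ×ˢ Finset.range D).filter (fun p : ℕ × ℕ =>
      (D : ℤ) ∣ (p.2 : ℤ) ^ 2 - μ ^ 2 * (p.1 : ℤ) ^ 2 - c)).card ≤
    D * (D.divisors.filter (fun E : ℕ => (E : ℤ) ∣ c)).card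

open scoped Classical in
/-- **ESUM**. `E ↦ ψ(E) / E` is multiplicative, and the sum over the rough `E` is
`∏_{p > w} (1 + ∑_{j ≥ 1} 3 / p ^ (j + 1)) = ∏_{p > w} (1 + 3 / (p (p - 1))) ≤
exp (∑_{n > w} 3 / (n (n - 1))) = exp (3 / w)`. For finite sums use only the upper bound by the
finite product over the primes `w < p ≤ N` (for example
`EulerProduct.summable_and_hasSum_factoredNumbers_prod_filter_prime_tsum`, or induction over the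
primes). -/
def S_ESUM : Prop :=
  ∀ w : ℕ, 2 ≤ w → Summable (fun E : ℕ => if rgh w E ∧ E ≠ 0 then psi E / E else 0) ∧
    ∑' E : ℕ, (if rgh w E ∧ E ≠ 0 then psi E / E else 0) ≤ Real.exp (3 / w)

/-! ## Pairs of vectors -/

/-- coprime vectors `≡ xc mod Q` in a square -/
noncomputable def setX (h ρ : ℝ) (ξ : ℝ × ℝ) (Q : ℕ) (xc : ℤ × ℤ) : Finset (ℤ × ℤ) := by
  classical exact ((ap (h ^ 2 * (ξ.1 - ρ)) (h ^ 2 * (ξ.1 + ρ)) Q xc.1) ×ˢ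
    (ap (h ^ 2 * (ξ.2 - ρ)) (h ^ 2 * (ξ.2 + ρ)) Q xc.2)).filter (fun x => IsCoprime x.1 x.2)

/-- **XC** (may assume `S_AP`). All pairs: at least `(2 ρ h ^ 2 / Q - 1) ^ 2`. If `x.1`, `x.2` are not
coprime (and not both zero because one of them is `≥ h ^ 2 / 4`) a prime `p` divides both; `p > w` by
the conditions on `xc`, `p ≤ 3 h ^ 2`, and `p ∤ Q` (`hQ`), so there are at most `(2 ρ h ^ 2 / (Q p) + 1) ^ 2`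
such `x`; the sum over `w < p ≤ 3 h ^ 2` is at most `(2 ρ h ^ 2 / Q) ^ 2 / w + (4 ρ h ^ 2 / Q) (1 + log (3 h ^ 2)) +
3 h ^ 2`, and `1 / w ≤ τ`. -/
def S_XC : Prop :=
  ∀ (τ : ℝ), 0 < τ → ∀ (w : ℕ), 1 ≤ w → 1 / (w : ℝ) ≤ τ → ∀ (Q : ℕ), 1 ≤ Q →
    (∀ p : ℕ, p.Prime → p ∣ Q → p ≤ w) → ∀ ρ : ℝ, 0 < ρ → ρ ≤ 1 / 4 → ∃ h₀ : ℝ, 1 ≤ h₀ ∧
    ∀ (h : ℝ) (ξ : ℝ × ℝ) (xc : ℤ × ℤ), h₀ ≤ h → |ξ.1| ≤ 2 → |ξ.2| ≤ 2 →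
    (1 / 2 ≤ |ξ.1| ∨ 1 / 2 ≤ |ξ.2|) →
    (∀ p : ℕ, p.Prime → p ≤ w → ¬ ((p : ℤ) ∣ xc.1 ∧ (p : ℤ) ∣ xc.2)) →
    (∀ p : ℕ, p.Prime → p ≤ w → p ∣ Q) →
    (1 - 2 * τ) * (2 * ρ * h ^ 2 / Q) ^ 2 ≤ ((setX h ρ ξ Q xc).card : ℝ)

/-- **PRA** (few multiples). For fixed `x` and `Δ`, two vectors `y`, `y'` with `wd x y = wd x y' = Δ`
differ by an integral multiple `t x` of `x`; as `|x.r| ≥ P / 4` and `|y.r| ≤ 3 P` there are at most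
`25` of them. There are at most `2 Y / E` numbers `Δ ≠ 0` with `E ∣ Δ`, `|Δ| ≤ Y`. -/
def S_PRA : Prop :=
  ∀ (P Y : ℝ) (E : ℕ) (X : Finset (ℤ × ℤ)), 1 ≤ P → 0 ≤ Y → 1 ≤ E → (∀ x ∈ X, Nice P x) →
    (((X ×ˢ X).filter (fun p => (E : ℤ) ∣ wd p.1 p.2 ∧ wd p.1 p.2 ≠ 0 ∧
      |(wd p.1 p.2 : ℝ)| ≤ Y)).card : ℝ) ≤ 50 * X.card * Y / E

open scoped Classical in
/-- **PRB** (from `S_PRA`, `S_ESUM`): exchange the summations over the pairs and over `E`. -/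
def S_PRB : Prop :=
  ∀ (w : ℕ) (P Y : ℝ) (X : Finset (ℤ × ℤ)), 2 ≤ w → 1 ≤ P → 0 ≤ Y → (∀ x ∈ X, Nice P x) →
    ∑ p ∈ (X ×ˢ X).filter (fun p => wd p.1 p.2 ≠ 0 ∧ |(wd p.1 p.2 : ℝ)| ≤ Y),
      sig w (wd p.1 p.2) ≤ 50 * Real.exp (3 / w) * X.card * Y

open scoped Classical in
/-- **PR1** (from `S_AP`, `S_PRA`, `S_ESUM`). The sum is `∑_{E rough} ψ(E) #{(x, y) : E ∣ wd x y ≠ 0}`.
For `E ≤ T` and fixed `x` the vector `y` is `≡ l x mod E` for some `l < E` (`x` is primitive, `E ∣ wd x y`)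
and `≡ xc mod Q`, so there are at most `E (2 ρ h ^ 2 / (Q E) + 1) ^ 2 ≤ (1 + τ') (2 ρ h ^ 2 / Q) ^ 2 / E`
vectors `y` for large `h` (`E`, `Q` are coprime). For `E > T` use `S_PRA` with `P = h ^ 2`,
`Y = 18 h ^ 4`, `X.card ≤ (2 ρ h ^ 2 / Q + 1) ^ 2`, and choose `T` such that the tail of the series of
`S_ESUM` is small. `exp (3 / w) ≤ 1 + τ / 4` for `w ≥ w₁`. -/
def S_PR1 : Prop :=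
  ∀ τ : ℝ, 0 < τ → ∃ w₁ : ℕ, 2 ≤ w₁ ∧ ∀ w : ℕ, w₁ ≤ w → ∀ (Q : ℕ), 1 ≤ Q →
    (∀ p : ℕ, p.Prime → p ∣ Q → p ≤ w) → ∀ ρ : ℝ, 0 < ρ → ρ ≤ 1 / 4 → ∃ h₀ : ℝ, 1 ≤ h₀ ∧
    ∀ (h : ℝ) (ξ : ℝ × ℝ) (xc : ℤ × ℤ), h₀ ≤ h → |ξ.1| ≤ 2 → |ξ.2| ≤ 2 →
    (1 / 2 ≤ |ξ.1| ∨ 1 / 2 ≤ |ξ.2|) →
    ∑ p ∈ (setX h ρ ξ Q xc ×ˢ setX h ρ ξ Q xc).filter (fun p => wd p.1 p.2 ≠ 0),
      sig w (wd p.1 p.2) ≤ (1 + τ) * (2 * ρ * h ^ 2 / Q) ^ 4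

/-! ## The congruence -/

/-- the `p`-adic data of a class, `Q = S J` -/
structure PD (w₀ : ℕ) (a : Fin (4 + 1) → ℤ) (f : Fin (6 + 1) → ℤ) (S J : ℕ) (xc : ℤ × ℤ)
    (zc wc : ℤ) : Prop where
  hS : 0 < S
  hJ : 0 < J
  hJS : J ∣ S
  hval : ((S * J : ℕ) : ℤ) ∣ Fv a f xc zc wc
  hw : ∃ m : ℤ, 2 * wc = J * m ∧ IsCoprime m (S : ℤ)
  hp : ∀ p : ℕ, p.Prime → p ≤ w₀ → p * J ∣ S
  hp' : ∀ p : ℕ, p.Prime → p ∣ S → p ≤ w₀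
  hx : ∀ p : ℕ, p.Prime → p ≤ w₀ → ¬ ((p : ℤ) ∣ xc.1 ∧ (p : ℤ) ∣ xc.2)

/-- **CW**. `w₁ + w₂ = 2 wc + S t = J (m + (S / J) t) = J m'`, and `m'` is coprime to `S` because every
prime factor of `S` divides `S / J`. So `S Δ ∣ (w₁ - w₂) m'`, and `m'` is coprime to `S Δ`. -/
def S_CW : Prop :=
  ∀ (S J Δ : ℕ) (wc w₁ w₂ : ℤ), 0 < S → 0 < J → 0 < Δ → J ∣ S →
    (∃ m : ℤ, 2 * wc = J * m ∧ IsCoprime m (S : ℤ)) → (∀ p : ℕ, p.Prime → p ∣ S → p * J ∣ S) →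
    (∀ p : ℕ, p.Prime → p ∣ Δ → p ∣ S) → (S : ℤ) ∣ w₁ - wc → (S : ℤ) ∣ w₂ - wc →
    ((S * J * Δ : ℕ) : ℤ) ∣ w₁ ^ 2 - w₂ ^ 2 → ((S * Δ : ℕ) : ℤ) ∣ w₁ - w₂

open scoped Classical in
/-- **QUAD** (from `S_AP`, `S_ROOT`, `S_HYP`, `S_CW`). Let `D` be the largest divisor of `|Δ|` which is rough
(`|Δ| = D Δs`, all prime factors of `Δs` are `≤ w₀`, so divide `S`; `D` is coprime to `Q`, and odd).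
As `y ≡ lam x mod Δ`, `f(y) ≡ lam ^ 6 f(x)` and `D ∣ Fv(y) - lam ^ 6 Fv(x)` gives
`D ∣ w' ^ 2 - lam ^ 6 w ^ 2 - c(z, z')`, `c = z' ^ 3 + a(y) z' - lam ^ 6 (z ^ 3 + a(x) z)`. `lam` is a unit
modulo `Δ` as `y` is primitive. Fix `z`, `z'`. For `(ρ, ρ')` among the at most
`D #{E ∣ D : E ∣ c}` residues of `(w, w')` modulo `D` (`S_HYP`, `μ = lam ^ 3`) there are at most
`L / (S D) + 1` numbers `w ≡ wc mod S`, `≡ ρ mod D` in the interval, and for given `w` the numbers `w'` are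
`≡ ρ' mod D` and pairwise congruent modulo `S Δs` (`S_CW`: `Q Δ ∣ w₁' ^ 2 - w₂' ^ 2`), so at most
`L' / (S |Δ|) + 1`. Together at most `#{E ∣ D : E ∣ c} (1 + τ) ^ 2 L L' / (S ^ 2 |Δ|)`. Now sum over `z`, `z'`: for
fixed `E` and `z` the number of the `z' ∈ Zs` with `E ∣ c` is at most `E ψ(E) (Lz / (Q E) + 1)` (`S_ROOT`), and
`Zs.card ≤ Lz / Q + 1`; `1 ≤ τ Lz / (Q |Δ|)`. The divisors `E` of `D` are the rough divisors of `Δ`. -/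
def S_QUAD : Prop :=
  ∀ (w₀ : ℕ) (a : Fin (4 + 1) → ℤ) (f : Fin (6 + 1) → ℤ) (S J : ℕ) (xc : ℤ × ℤ) (zc wc : ℤ),
    2 ≤ w₀ → PD w₀ a f S J xc zc wc → ∀ (x y : ℤ × ℤ) (lam Δ : ℤ), IsCoprime y.1 y.2 →
    wd x y = Δ → Δ ≠ 0 → Δ ∣ y.1 - lam * x.1 → Δ ∣ y.2 - lam * x.2 →
    ∀ (τ z₁ Lz L L' : ℝ) (α : ℤ → ℝ) (α' : ℤ → ℤ → ℤ → ℝ), 0 < τ → 0 ≤ L → 0 ≤ L' →
    (S * J : ℕ) * |(Δ : ℝ)| ≤ τ * Lz → S * |(Δ : ℝ)| ≤ τ * L → S * |(Δ : ℝ)| ≤ τ * L' →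
    ∀ T : Finset ((ℤ × ℤ) × (ℤ × ℤ)),
    (∀ t ∈ T, t.1.1 ∈ ap z₁ (z₁ + Lz) (S * J) zc ∧ t.2.1 ∈ ap z₁ (z₁ + Lz) (S * J) zc ∧
      (S : ℤ) ∣ t.1.2 - wc ∧ (S : ℤ) ∣ t.2.2 - wc ∧
      (α t.1.1 ≤ t.1.2 ∧ (t.1.2 : ℝ) ≤ α t.1.1 + L) ∧
      (α' t.1.1 t.1.2 t.2.1 ≤ t.2.2 ∧ (t.2.2 : ℝ) ≤ α' t.1.1 t.1.2 t.2.1 + L') ∧
      ((S * J : ℕ) : ℤ) * Δ ∣ Fv a f y t.2.1 t.2.2 - lam ^ 6 * Fv a f x t.1.1 t.1.2) →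
    (T.card : ℝ) ≤ (1 + τ) ^ 4 * (Lz / (S * J : ℕ)) ^ 2 * (L / S) * (L' / S) * sig w₀ Δ / |(Δ : ℝ)|

/-! ## The test points -/

/-- the data of a class: `f + Q g`, `Q = S J` -/
structure CD (w₀ : ℕ) (h η R γ : ℝ) (a : Fin (4 + 1) → ℤ) (f : Fin (6 + 1) → ℤ) (S J : ℕ)
    (xc : ℤ × ℤ) (zc wc : ℤ) (ξ : ℝ × ℝ) (s r : ℝ) : Prop where
  pd : PD w₀ a f S J xc zc wc
  ha : ∀ i, |(a i : ℝ)| ≤ R * h ^ 4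
  hf : ∀ i, |(f i : ℝ)| ≤ R * h ^ 6
  hξ1 : |ξ.1| ≤ 2
  hξ2 : |ξ.2| ≤ 2
  hξ : 1 / 2 ≤ |ξ.1| ∨ 1 / 2 ≤ |ξ.2|
  hs : |s| ≤ R
  hr : γ ≤ r
  hr' : r ≤ R
  hval : |bf f ξ.1 ξ.2 / h ^ 6 + bf a ξ.1 ξ.2 / h ^ 4 * s + s ^ 3 - r ^ 2| ≤ 448 * η

/-- the numbers `z` -/
noncomputable def setZ (h ρ s : ℝ) (Q : ℕ) (zc : ℤ) : Finset ℤ :=
  ap (h ^ 6 * (s - ρ)) (h ^ 6 * (s + ρ)) Q zc

/-- the numbers `w` -/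
noncomputable def setW (h ρ' r : ℝ) (S : ℕ) (wc : ℤ) : Finset ℤ :=
  ap (h ^ 9 * (r - ρ')) (h ^ 9 * (r + ρ')) S wc

/-- `Fv = - Q u` -/
def uu (Q : ℕ) (a : Fin (4 + 1) → ℤ) (f : Fin (6 + 1) → ℤ) (x : ℤ × ℤ) (z w : ℤ) : ℤ :=
  -(Fv a f x z w / Q)

/-- the sum of `cnt2` over the `z`, `w`, `z'`, `w'` -/
noncomputable def cs2 (A Q S : ℕ) (h ρ ρ' s r : ℝ) (a : Fin (4 + 1) → ℤ) (f : Fin (6 + 1) → ℤ)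
    (zc wc : ℤ) (x y : ℤ × ℤ) : ℝ :=
  ∑ z ∈ setZ h ρ s Q zc, ∑ w ∈ setW h ρ' r S wc, ∑ z' ∈ setZ h ρ s Q zc,
    ∑ w' ∈ setW h ρ' r S wc, (cnt2 A x y (uu Q a f x z w) (uu Q a f y z' w') : ℝ)

/-- **UU**. `Fv` is divisible by `Q = S J` on the class: `Fv a f x z w ≡ Fv a f xc zc w` modulo `Q`, and
`w ^ 2 - wc ^ 2 = (w - wc) (2 wc + (w - wc))` is divisible by `S J`. -/
def S_UU : Prop :=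
  ∀ (w₀ : ℕ) (a : Fin (4 + 1) → ℤ) (f : Fin (6 + 1) → ℤ) (S J : ℕ) (xc : ℤ × ℤ) (zc wc : ℤ),
    PD w₀ a f S J xc zc wc → ∀ (x : ℤ × ℤ) (z w : ℤ), ((S * J : ℕ) : ℤ) ∣ x.1 - xc.1 →
    ((S * J : ℕ) : ℤ) ∣ x.2 - xc.2 → ((S * J : ℕ) : ℤ) ∣ z - zc → (S : ℤ) ∣ w - wc →
    Fv a f x z w = -(((S * J : ℕ) : ℤ) * uu (S * J) a f x z w)

/-- **XN**. The vectors of `setX` are nice and congruent modulo `Q`; two of them with determinant `0` are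
equal (both are primitive, so `y = ± x`, and `y = - x` is impossible because both are near `h ^ 2 ξ`). -/
def S_XN : Prop :=
  ∀ (h ρ : ℝ) (ξ : ℝ × ℝ) (Q : ℕ) (xc : ℤ × ℤ), 1 ≤ h → 0 < ρ → ρ ≤ 1 / 4 → |ξ.1| ≤ 2 →
    |ξ.2| ≤ 2 → (1 / 2 ≤ |ξ.1| ∨ 1 / 2 ≤ |ξ.2|) → ∀ x ∈ setX h ρ ξ Q xc,
    Nice (h ^ 2) x ∧ (Q : ℤ) ∣ x.1 - xc.1 ∧ (Q : ℤ) ∣ x.2 - xc.2 ∧
      |(x.1 : ℝ) - h ^ 2 * ξ.1| ≤ ρ * h ^ 2 ∧ |(x.2 : ℝ) - h ^ 2 * ξ.2| ≤ ρ * h ^ 2 ∧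
      ∀ y ∈ setX h ρ ξ Q xc, wd x y = 0 → x = y

/-- **RW** (real window). Lipschitz estimates: put `X = x / h ^ 2`, `Z = z / h ^ 6`, so `|X - ξ| ≤ ρ`,
`|Z - s| ≤ ρ`, and the left-hand side divided by `h ^ 18` is `f(X) / h ^ 6 + Q g(X) / h ^ 6 + a(X) / h ^ 4 Z +
Z ^ 3 - r ^ 2`, `|Q g(X) / h ^ 6| ≤ 7 · 3 ^ 6 · 2 η`. -/
def S_RW : Prop :=
  ∀ R : ℝ, 1 ≤ R → ∃ C : ℝ, 1 ≤ C ∧ ∀ (h ρ η s r : ℝ) (a : Fin (4 + 1) → ℤ)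
    (f g : Fin (6 + 1) → ℤ) (ξ : ℝ × ℝ) (Q : ℕ) (x : ℤ × ℤ) (z : ℤ), 1 ≤ h → 0 < ρ →
    ρ ≤ 1 / 4 → 0 < η → η ≤ 1 → (∀ i, |(a i : ℝ)| ≤ R * h ^ 4) → (∀ i, |(f i : ℝ)| ≤ R * h ^ 6) →
    |ξ.1| ≤ 2 → |ξ.2| ≤ 2 → |s| ≤ R →
    |bf f ξ.1 ξ.2 / h ^ 6 + bf a ξ.1 ξ.2 / h ^ 4 * s + s ^ 3 - r ^ 2| ≤ η →
    |(x.1 : ℝ) - h ^ 2 * ξ.1| ≤ ρ * h ^ 2 → |(x.2 : ℝ) - h ^ 2 * ξ.2| ≤ ρ * h ^ 2 →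
    |(z : ℝ) - h ^ 6 * s| ≤ ρ * h ^ 6 → (∀ i, Q * |(g i : ℝ)| ≤ 2 * η * h ^ 6) →
    |bf f (x.1 : ℝ) x.2 + Q * bf g (x.1 : ℝ) x.2 + bf a (x.1 : ℝ) x.2 * z + (z : ℝ) ^ 3 -
      (r * h ^ 9) ^ 2| ≤ C * (ρ + η) * h ^ 18

/-- **IV** (the interval of the `w`, elementary): `α = √(v - e)`, `β = √(v + e)`,
`β - α = 2 e / (√(v + e) + √(v - e))` and `√(v ± e) ∈ [Y √(1 - τ / 2), Y √(1 + τ / 2)]`;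
`|w - Y| Y ≤ |w - Y| (w + Y) = |w ^ 2 - Y ^ 2|`. -/
def S_IV : Prop :=
  ∀ (Y τ v e : ℝ), 0 < Y → 0 < τ → τ ≤ 1 / 2 → |v - Y ^ 2| ≤ τ / 4 * Y ^ 2 → 0 < e →
    e ≤ τ / 4 * Y ^ 2 → ∃ α β : ℝ, 0 < α ∧ (1 - τ) * (e / Y) ≤ β - α ∧ β - α ≤ (1 + τ) * (e / Y) ∧
      (∀ w : ℝ, 0 < w → |w ^ 2 - v| ≤ e → α ≤ w ∧ w ≤ β) ∧
      ∀ w : ℝ, α ≤ w → w ≤ β → |w ^ 2 - v| ≤ e ∧ |w - Y| * Y ≤ |v - Y ^ 2| + e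

/-- **DIV** (divisor bound). `d(m) ^ 5 = ∏ (a_p + 1) ^ 5` and `m = ∏ p ^ a_p`; `(a + 1) ^ 5 ≤ 32 ^ a ≤ p ^ a`
for `p ≥ 32`, `(a + 1) ^ 5 ≤ 300 · 2 ^ a` for the eleven primes `p < 32`. -/
def S_DIV : Prop := ∃ C : ℕ, ∀ m : ℕ, 1 ≤ m → m.divisors.card ^ 5 ≤ C * m

/-- **FM** (first moment; may assume `S_C1L`, `S_AP`, `S_RW`, `S_IV`, `S_UU`, `S_XN`). Let `C` be the constant of
`S_RW` (to be used with `448 η` for `η`), and `ρ₁` so small that `C · 449 ρ₁ ≤ τ' / 4 γ ^ 2` and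
`449 C ρ₁ + τ'' ≤ γ ρ'`, `448 ρ₁ ≤ 1`. Put `A = ⌊η h ^ 6 / Q⌋`,
`K = ⌊δ η h ^ 18 / Q⌋` with a small `δ` (depending on `τ`, `γ`, `ρ'`), `B = ⌈C₁ (K / h ^ 12 + h ^ 2)⌉ ≤ τ' A`,
`A' = A - B`, so `(bx 6 A').card ≥ (1 - τ'') (bx 6 A).card`. By `S_C1L` (with `P = h ^ 2`)
`(2 K + 1) ∑_{z, w} cnt1 A ≥ ∑_{g ∈ bx 6 A'} #{(z, w) : |g(x) - u| ≤ K}`, and by `S_UU` the condition is
`|Fv + Q g(x)| ≤ Q K`, i.e. `|w ^ 2 - v| ≤ Q K`, `v = f(x) + Q g(x) + a(x) z + z ^ 3`; by `S_RW` and `S_IV`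
(`Y = r h ^ 9`) for every `z` this holds for all `w` in an interval of length `(1 - τ') Q K / Y` inside the
range of `setW`, so for at least `(1 - τ') Q K / (Y S) - 1` numbers `w`; `setZ` has at least
`2 ρ h ^ 6 / Q - 1` elements. All together `(1 - τ) G (2 ρ h ^ 6 / Q) (Q K / (Y S)) / (2 K)
= (1 - τ) G ρ / (r h ^ 3 S)`. -/
def S_FM : Prop :=
  ∀ τ R γ ρ' : ℝ, 0 < τ → 1 ≤ R → 0 < γ → 0 < ρ' → ∃ ρ₁ : ℝ, 0 < ρ₁ ∧ ρ₁ ≤ 1 / 4 ∧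
    ∀ ρ η : ℝ, 0 < ρ → ρ ≤ ρ₁ → 0 < η → η ≤ ρ₁ → ∀ Q₀ : ℕ, ∃ h₀ : ℝ, 1 ≤ h₀ ∧
    ∀ (w₀ : ℕ) (h : ℝ) (a : Fin (4 + 1) → ℤ) (f : Fin (6 + 1) → ℤ) (S J : ℕ) (xc : ℤ × ℤ)
      (zc wc : ℤ) (ξ : ℝ × ℝ) (s r : ℝ), h₀ ≤ h → CD w₀ h η R γ a f S J xc zc wc ξ s r →
    S * J ≤ Q₀ → ∀ A : ℕ, A = ⌊η * h ^ 6 / (S * J : ℕ)⌋₊ → ∀ x ∈ setX h ρ ξ (S * J) xc,
    (1 - τ) * (bx 6 A).card * (ρ / (r * h ^ 3 * S)) ≤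
      ∑ z ∈ setZ h ρ s (S * J) zc, ∑ w ∈ setW h ρ' r S wc, (cnt1 A x (uu (S * J) a f x z w) : ℝ)

/-- **SM1** (may assume `S_C2S`, `S_QUAD`, `S_RW`, `S_IV`, `S_UU`, `S_XN`). `K = ⌊δ η h ^ 18 / Q⌋`, `δ` small
(depending on `κ`), `B = ⌈C (K / h ^ 12 + h ^ 4) / κ⌉ ≤ τ' A`, `G₂ = (bx 6 (A + B)).card ≤ (1 + τ'') G`. Let `Δ = wd x y`
(`|Δ| ≤ 18 h ^ 4`), `y ≡ lam x mod Δ`. If `cnt2 A x y u u' ≠ 0` then `u' ≡ lam ^ 6 u mod Δ`, i.e.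
`Q Δ ∣ Fv(y) - lam ^ 6 Fv(x)`. By `S_C2S`, `(2 K / |Δ| - 1) (2 K + 1) ∑ cnt2` is at most the sum over
`g ∈ bx 6 (A + B)` of the number of the quadruples `(z, w, z', w')` with this congruence and
`|w ^ 2 - v| ≤ Q K`, `|w' ^ 2 - v'| ≤ Q K` (`v = f(x) + Q g(x) + a(x) z + z ^ 3`); `w`, `w'` are positive
(`ρ' ≤ γ / 2`) and by `S_RW` (with `448 η` for `η`), `S_IV` in intervals of length `L = (1 + τ') Q K / Y` (`Y = r h ^ 9`) depending on `z`,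
`z'` only. `S_QUAD` with `Lz = 2 ρ h ^ 6` gives `G₂ (1 + τ') ^ 6 (2 ρ h ^ 6 / Q) ^ 2 (Q K / (Y S)) ^ 2 sig / |Δ|`;
divide by `(1 - τ') (2 K) ^ 2 / |Δ|`. -/
def S_SM1 : Prop :=
  ∀ τ R γ ρ' : ℝ, 0 < τ → 1 ≤ R → 0 < γ → 0 < ρ' → ρ' ≤ γ / 2 → ∃ ρ₁ : ℝ, 0 < ρ₁ ∧
    ρ₁ ≤ 1 / 4 ∧ ∀ ρ η κ : ℝ, 0 < ρ → ρ ≤ ρ₁ → 0 < η → η ≤ ρ₁ → 0 < κ → κ ≤ 1 → ∀ Q₀ : ℕ,
    ∃ h₀ : ℝ, 1 ≤ h₀ ∧
    ∀ (w₀ : ℕ) (h : ℝ) (a : Fin (4 + 1) → ℤ) (f : Fin (6 + 1) → ℤ) (S J : ℕ) (xc : ℤ × ℤ)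
      (zc wc : ℤ) (ξ : ℝ × ℝ) (s r : ℝ), 2 ≤ w₀ → h₀ ≤ h →
    CD w₀ h η R γ a f S J xc zc wc ξ s r → S * J ≤ Q₀ →
    ∀ A : ℕ, A = ⌊η * h ^ 6 / (S * J : ℕ)⌋₊ → ∀ x ∈ setX h ρ ξ (S * J) xc,
    ∀ y ∈ setX h ρ ξ (S * J) xc, wd x y ≠ 0 → κ * h ^ 4 ≤ |(wd x y : ℝ)| →
    cs2 A (S * J) S h ρ ρ' s r a f zc wc x y ≤
      (1 + τ) * (bx 6 A).card * (ρ / (r * h ^ 3 * S)) ^ 2 * sig w₀ (wd x y)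

/-- **SM2** (all pairs, worse constant; may assume `S_C2U`, `S_C2R`, `S_QUAD`, `S_UU`, `S_XN`). With `P = h ^ 2` every
`cnt2` is at most `C₁ G / (A ^ 2 h ^ 20)`, and if it is not zero then `|u' - α ^ 6 u| ≤ C₂ A h ^ 8 |Δ|`, `α = y.r / x.r`
(`r` with `|x.r| ≥ h ^ 2 / 4`), and `Q Δ ∣ Fv(y) - lam ^ 6 Fv(x)`. So for given `z`, `w`, `z'` the number
`w' ^ 2 = f(y) + a(y) z' + z' ^ 3 + Q u'` lies in an interval of length `2 C₂ Q A h ^ 8 |Δ| ≤ 2 C₂ η h ^ 14 |Δ|`, and `w'`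
(`≥ γ h ^ 9 / 2`) in an interval of length `L' = C₃ h ^ 5 |Δ|` (`C₃ ≥ 1` large, so that `S |Δ| ≤ L'`). `S_QUAD` with `τ = 1`,
`L = 2 ρ' h ^ 9` (`|Δ| ≤ 18 h ^ 4`), `Lz = 2 ρ h ^ 6` gives at most `16 (2 ρ h ^ 6 / Q) ^ 2 (2 ρ' h ^ 9 / S) (C₃ h ^ 5 / S) sig`
quadruples. Multiply by `C₁ G / (A ^ 2 h ^ 20)`, `A ≥ η h ^ 6 / (2 Q)`: the result is `C G h ^ (-6) sig`. -/
def S_SM2 : Prop :=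
  ∀ R γ ρ' ρ η : ℝ, 1 ≤ R → 0 < γ → 0 < ρ' → ρ' ≤ γ / 2 → 0 < ρ → ρ ≤ 1 / 4 → 0 < η →
    η ≤ 1 → ∀ Q₀ : ℕ, ∃ C h₀ : ℝ, 1 ≤ C ∧ 1 ≤ h₀ ∧
    ∀ (w₀ : ℕ) (h : ℝ) (a : Fin (4 + 1) → ℤ) (f : Fin (6 + 1) → ℤ) (S J : ℕ) (xc : ℤ × ℤ)
      (zc wc : ℤ) (ξ : ℝ × ℝ) (s r : ℝ), 2 ≤ w₀ → h₀ ≤ h →
    CD w₀ h η R γ a f S J xc zc wc ξ s r → S * J ≤ Q₀ →
    ∀ A : ℕ, A = ⌊η * h ^ 6 / (S * J : ℕ)⌋₊ → ∀ x ∈ setX h ρ ξ (S * J) xc,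
    ∀ y ∈ setX h ρ ξ (S * J) xc, wd x y ≠ 0 →
    cs2 A (S * J) S h ρ ρ' s r a f zc wc x y ≤
      C * (bx 6 A).card * (ρ / (r * h ^ 3 * S)) ^ 2 * sig w₀ (wd x y)

/-- **SM0** (the pairs with `x = y`; may assume `S_C1U`, `S_DIV`, `S_AP`, `S_UU`, `S_XN`).
`cnt2 A x x u u' = 0` unless `u = u'`, and then it is `cnt1 ≤ C₁ G / (A h ^ 12) ≤ C₂ G / h ^ 18`. `u = u'` means
`w ^ 2 - w' ^ 2 = z ^ 3 - z' ^ 3 + a(x) (z - z') =: m` (`w`, `w' > 0`). Number of quadruples: `z = z'`, `w = w'`: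
`|Z| |W|`; `z ≠ z'`, `w = w'`: `z ^ 2 + z z' + z' ^ 2 + a(x) = 0`, at most `2 |Z| |W|`; `m ≠ 0`: `w - w'` is a
divisor of `m` which determines `w`, `w'`, `|m| ≤ C h ^ 18`, so at most `2 d(|m|) ≤ C h ^ (18 / 5)` for given `z`,
`z'`. `|Z| ≤ C h ^ 6`, `|W| ≤ C h ^ 9`, `|X| ≤ C h ^ 4`: the sum is at most `C G h ^ 4 h ^ (-18) (h ^ 15 + h ^ (12 + 18 / 5)) ≤ C G h ^ (8 / 5)`,
while the right-hand side is at least `c τ G h ^ 2`. -/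
def S_SM0 : Prop :=
  ∀ R γ ρ' ρ η τ : ℝ, 1 ≤ R → 0 < γ → 0 < ρ' → ρ' ≤ γ / 2 → 0 < ρ → ρ ≤ 1 / 4 → 0 < η →
    η ≤ 1 → 0 < τ → ∀ Q₀ : ℕ, ∃ h₀ : ℝ, 1 ≤ h₀ ∧
    ∀ (w₀ : ℕ) (h : ℝ) (a : Fin (4 + 1) → ℤ) (f : Fin (6 + 1) → ℤ) (S J : ℕ) (xc : ℤ × ℤ)
      (zc wc : ℤ) (ξ : ℝ × ℝ) (s r : ℝ), h₀ ≤ h →
    CD w₀ h η R γ a f S J xc zc wc ξ s r → S * J ≤ Q₀ →
    ∀ A : ℕ, A = ⌊η * h ^ 6 / (S * J : ℕ)⌋₊ →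
    ∑ x ∈ setX h ρ ξ (S * J) xc, cs2 A (S * J) S h ρ ρ' s r a f zc wc x x ≤
      τ * (bx 6 A).card * ((2 * ρ * h ^ 2 / (S * J : ℕ)) ^ 2 * (ρ / (r * h ^ 3 * S))) ^ 2

/-- the number of test points on `f + Q g` -/
noncomputable def Nf (Q S : ℕ) (h ρ ρ' : ℝ) (a : Fin (4 + 1) → ℤ) (f : Fin (6 + 1) → ℤ)
    (xc : ℤ × ℤ) (zc wc : ℤ) (ξ : ℝ × ℝ) (s r : ℝ) (g : Fin (6 + 1) → ℤ) : ℕ :=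
  ((setX h ρ ξ Q xc ×ˢ (setZ h ρ s Q zc ×ˢ setW h ρ' r S wc)).filter
    (fun t => bf g t.1.1 t.1.2 = uu Q a f t.1 t.2.1 t.2.2)).card

/-- **MOM** (exchange of summations; the sums of `Nf` and `Nf ^ 2` over `g`). -/
def S_MOM : Prop :=
  ∀ (A Q S : ℕ) (h ρ ρ' : ℝ) (a : Fin (4 + 1) → ℤ) (f : Fin (6 + 1) → ℤ)
    (xc : ℤ × ℤ) (zc wc : ℤ) (ξ : ℝ × ℝ) (s r : ℝ),
    ∑ g ∈ bx 6 A, (Nf Q S h ρ ρ' a f xc zc wc ξ s r g : ℝ) =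
      ∑ x ∈ setX h ρ ξ Q xc, ∑ z ∈ setZ h ρ s Q zc, ∑ w ∈ setW h ρ' r S wc,
        (cnt1 A x (uu Q a f x z w) : ℝ) ∧
    ∑ g ∈ bx 6 A, (Nf Q S h ρ ρ' a f xc zc wc ξ s r g : ℝ) ^ 2 =
      ∑ x ∈ setX h ρ ξ Q xc, ∑ y ∈ setX h ρ ξ Q xc, cs2 A Q S h ρ ρ' s r a f zc wc x y

/-- **CHEB** (Chebyshev): `#{N = 0} μ ^ 2 ≤ ∑ (N - μ) ^ 2 = ∑ N ^ 2 - 2 μ ∑ N + μ ^ 2 |G| ≤ ε μ ^ 2 |G|`. -/
def S_CHEB : Prop :=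
  ∀ (G : Finset (Fin (6 + 1) → ℤ)) (N : (Fin (6 + 1) → ℤ) → ℕ) (μ ε : ℝ), 0 < μ →
    μ * G.card ≤ ∑ g ∈ G, (N g : ℝ) → ∑ g ∈ G, (N g : ℝ) ^ 2 ≤ (1 + ε) * μ ^ 2 * G.card →
    (((G.filter (fun g => N g = 0)).card : ℕ) : ℝ) ≤ ε * G.card

/-- there is an integral point near the local data -/
def NearS (η₀ h : ℝ) (a : Fin (4 + 1) → ℤ) (f : Fin (6 + 1) → ℤ) (Q S : ℕ) (xc : ℤ × ℤ)
    (zc wc : ℤ) (ξ : ℝ × ℝ) (s r : ℝ) : Prop :=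
  ∃ (x : ℤ × ℤ) (z w : ℤ), IsCoprime x.1 x.2 ∧ Fv a f x z w = 0 ∧ (Q : ℤ) ∣ x.1 - xc.1 ∧
    (Q : ℤ) ∣ x.2 - xc.2 ∧ (Q : ℤ) ∣ z - zc ∧ (S : ℤ) ∣ w - wc ∧
    |(x.1 : ℝ) - h ^ 2 * ξ.1| ≤ η₀ * h ^ 2 ∧ |(x.2 : ℝ) - h ^ 2 * ξ.2| ≤ η₀ * h ^ 2 ∧
    |(z : ℝ) - h ^ 6 * s| ≤ η₀ * h ^ 6 ∧ |(w : ℝ) - h ^ 9 * r| ≤ η₀ * h ^ 9

open scoped Classical in
/-- **CLS, the class theorem** (from all the pieces, helper90). -/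
def S_CLS : Prop :=
  ∀ ε : ℝ, 0 < ε → ∃ w₁ : ℕ, 2 ≤ w₁ ∧ ∀ w₀ : ℕ, w₁ ≤ w₀ → ∀ γ R : ℝ, 0 < γ → γ ≤ 1 → 1 ≤ R →
    ∀ Q₀ : ℕ, 1 ≤ Q₀ → ∀ η₀ : ℝ, 0 < η₀ → ∃ η : ℝ, 0 < η ∧ η ≤ 1 ∧ η ≤ η₀ ∧ ∃ h₀ : ℝ, 1 ≤ h₀ ∧
    ∀ (h : ℝ) (a : Fin (4 + 1) → ℤ) (f : Fin (6 + 1) → ℤ) (S J : ℕ) (xc : ℤ × ℤ)
      (zc wc : ℤ) (ξ : ℝ × ℝ) (s r : ℝ), h₀ ≤ h →
    CD w₀ h η R γ a f S J xc zc wc ξ s r → S * J ≤ Q₀ →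
    ((((bx 6 ⌊η * h ^ 6 / (S * J : ℕ)⌋₊).filter (fun g =>
      ¬ NearS η₀ h a (fun i => f i + (S * J : ℕ) * g i) (S * J) S xc zc wc ξ s r)).card : ℕ) : ℝ) ≤
      ε * (bx 6 ⌊η * h ^ 6 / (S * J : ℕ)⌋₊).card

end Pool.Agent.H90S
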