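import Pool.Agent.H90S.Stm

/-!
# Project H90S, part 2: local data and weak approximation

A `p`-adic point of `w ^ 2 = z ^ 3 + a(x) z + f(x)` with primitive `x` has `z`, `w` integral or
`z = z' / p ^ (2 j)`, `w = w' / p ^ (3 j)` with units `z'`, `w'`; hence we look for integral points of
`w ^ 2 = z ^ 3 + D ^ 4 a(x) z + D ^ 6 f(x)`, with `p ^ j ∥ D`. For the primes `m < p ≤ w₀` we always take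
`p ∣ D` and the local point `x ≡ (1, 0)`, `z ≡ w ≡ 1`, which exists for all `a`, `f`.
-/

namespace Pool.Agent.H90S

/-- `D ^ 4 a` -/
def sca (D : ℕ) (a : Fin (4 + 1) → ℤ) : Fin (4 + 1) → ℤ := fun i => (D : ℤ) ^ 4 * a i

/-- `D ^ 6 f` -/
def scf (D : ℕ) (f : Fin (6 + 1) → ℤ) : Fin (6 + 1) → ℤ := fun i => (D : ℤ) ^ 6 * f i

/-- the partial derivative of a binary form with respect to the first variable -/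
def bd1 {R : Type} [CommRing R] {d : ℕ} (c : Fin (d + 1) → ℤ) (u v : R) : R :=
  ∑ i : Fin (d + 1), (c i : R) * (((i : ℕ) : R) * (u ^ ((i : ℕ) - 1) * v ^ (d - (i : ℕ))))

/-- the partial derivative of a binary form with respect to the second variable -/
def bd2 {R : Type} [CommRing R] {d : ℕ} (c : Fin (d + 1) → ℤ) (u v : R) : R :=
  ∑ i : Fin (d + 1), (c i : R) * (((d - (i : ℕ) : ℕ) : R) * (u ^ (i : ℕ) * v ^ (d - (i : ℕ) - 1)))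

/-! ## `p`-adic data -/

/-- approximate `p`-adic points (of arbitrarily high precision) in a given residue class -/
def LocP (p N : ℕ) (cx : ℤ × ℤ) (cz cw : ℤ) (a : Fin (4 + 1) → ℤ) (f : Fin (6 + 1) → ℤ) : Prop :=
  ∀ E : ℕ, ∃ (x : ℤ × ℤ) (z w : ℤ), ¬ ((p : ℤ) ∣ x.1 ∧ (p : ℤ) ∣ x.2) ∧
    (p : ℤ) ^ E ∣ Fv a f x z w ∧
    ∀ k : ℕ, p ^ k ∣ N → (p : ℤ) ^ k ∣ x.1 - cx.1 ∧ (p : ℤ) ^ k ∣ x.2 - cx.2 ∧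
      (p : ℤ) ^ k ∣ z - cz ∧ (p : ℤ) ^ k ∣ w - cw

/-- a singular point modulo `p ^ ℓ` of `z ^ 3 + a(x) z + f(x) = 0` -/
def BadP (p ℓ : ℕ) (a : Fin (4 + 1) → ℤ) (f : Fin (6 + 1) → ℤ) : Prop :=
  ∃ (x : ℤ × ℤ) (z : ℤ), ¬ ((p : ℤ) ∣ x.1 ∧ (p : ℤ) ∣ x.2) ∧
    (p : ℤ) ^ ℓ ∣ bf f x.1 x.2 + bf a x.1 x.2 * z + z ^ 3 ∧
    (p : ℤ) ^ ℓ ∣ 3 * z ^ 2 + bf a x.1 x.2 ∧
    (p : ℤ) ^ ℓ ∣ bd1 f x.1 x.2 + bd1 a x.1 x.2 * z ∧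
    (p : ℤ) ^ ℓ ∣ bd2 f x.1 x.2 + bd2 a x.1 x.2 * z

/-- **HEN** (Newton's method over `ℤ`). Induction on `E`: if `p ^ c' ∣ g(t)`, `c' ≥ c`, `t ≡ t₀ mod p ^ (c - e)`, then
`g'(t) = p ^ e u` with `p ∤ u` (`c - e > e`), and `t' = t - p ^ (c' - e) k` with `g(t) ≡ p ^ c' u k mod p ^ (c' + 1)`
satisfies `p ^ (c' + 1) ∣ g(t')` because `2 (c' - e) ≥ c' + 1`. -/
def S_HEN : Prop :=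
  ∀ (p : ℕ) (g : Polynomial ℤ) (t₀ : ℤ) (e c : ℕ), p.Prime → ¬ (p : ℤ) ^ (e + 1) ∣ g.derivative.eval t₀ →
    (p : ℤ) ^ e ∣ g.derivative.eval t₀ → 2 * e < c → (p : ℤ) ^ c ∣ g.eval t₀ →
    ∀ E : ℕ, ∃ t : ℤ, (p : ℤ) ^ (c - e) ∣ t - t₀ ∧ (p : ℤ) ^ E ∣ g.eval t

/-- **ST1** (one prime; may assume `S_HEN`). If `p ∣ N`, `p ∤ cw` then `p ∤ w` and `j = 0` or (`p = 2`) `j = 1`.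
Otherwise take an approximate point `(x, z, w)` modulo `p ^ E'`, `E' ≥ E + 6 ℓ`. If `p ^ (3 ℓ + 1) ∤ 2 w` we are
done. If `p ^ (3 ℓ + 1) ∣ 2 w` then `p ^ (3 ℓ) ∣ w` and `p ^ (6 ℓ) ∣ G(x, z) = z ^ 3 + a(x) z + f(x)` (up to `p ^ E'`).
One of the partial derivatives of `G` at `(x, z)` is not divisible by `p ^ ℓ`; let `p ^ e`, `e < ℓ`, be the
exact power of `p` in it and apply `S_HEN` to the polynomial `G(.) - p ^ (4 ℓ)` in this variable, with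
`c = 4 ℓ`: the new point `(x', z')` has `p ^ E ∣ G(x', z') - p ^ (4 ℓ)`, `x' ≡ x`, `z' ≡ z mod p ^ (3 ℓ)`. Take
`w' = p ^ (2 ℓ)`, `w' ≡ 0 ≡ w mod p ^ ℓ`; `j = 2 ℓ` or `2 ℓ + 1` (`≤ 3 ℓ`). -/
def S_ST1 : Prop :=
  ∀ (p ℓ N : ℕ) (cx : ℤ × ℤ) (cz cw : ℤ) (a : Fin (4 + 1) → ℤ) (f : Fin (6 + 1) → ℤ), p.Prime →
    1 ≤ ℓ → 1 ≤ N → (∀ k : ℕ, p ^ k ∣ N → k ≤ ℓ) → LocP p N cx cz cw a f →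
    (p ∣ N ∧ ¬ (p : ℤ) ∣ cw) ∨ ¬ BadP p ℓ a f →
    ∀ E : ℕ, ∃ (x : ℤ × ℤ) (z w : ℤ) (j : ℕ), ¬ ((p : ℤ) ∣ x.1 ∧ (p : ℤ) ∣ x.2) ∧
      (p : ℤ) ^ E ∣ Fv a f x z w ∧ j ≤ 3 * ℓ ∧ (p : ℤ) ^ j ∣ 2 * w ∧ ¬ (p : ℤ) ^ (j + 1) ∣ 2 * w ∧
      ∀ k : ℕ, p ^ k ∣ N → (p : ℤ) ^ k ∣ x.1 - cx.1 ∧ (p : ℤ) ^ k ∣ x.2 - cx.2 ∧
        (p : ℤ) ^ k ∣ z - cz ∧ (p : ℤ) ^ k ∣ w - cw

/-- **STC** (Chinese remainder theorem). For every `p ≤ w₀` take the data with `E = v_p(Q)`; let `xc`, `zc`, `wc`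
be congruent to them modulo `p ^ v_p(Q)` for all `p ≤ w₀`, `J = ∏ p ^ (j_p)`, `S = Q / J`. -/
def S_STC : Prop :=
  ∀ (w₀ ℓ N Q : ℕ) (cx : ℤ × ℤ) (cz cw : ℤ) (a : Fin (4 + 1) → ℤ) (f : Fin (6 + 1) → ℤ), 1 ≤ ℓ →
    1 ≤ N → 1 ≤ Q → (∀ p k : ℕ, p.Prime → p ^ k ∣ N → k ≤ ℓ) → (∀ p : ℕ, p.Prime → p ∣ N → p ≤ w₀) →
    (∀ p : ℕ, p.Prime → p ∣ Q → p ≤ w₀) → (∀ p : ℕ, p.Prime → p ≤ w₀ → p ^ (6 * ℓ + 1) ∣ Q) →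
    (∀ p : ℕ, p.Prime → p ≤ w₀ → ∀ E : ℕ, ∃ (x : ℤ × ℤ) (z w : ℤ) (j : ℕ),
      ¬ ((p : ℤ) ∣ x.1 ∧ (p : ℤ) ∣ x.2) ∧
      (p : ℤ) ^ E ∣ Fv a f x z w ∧ j ≤ 3 * ℓ ∧ (p : ℤ) ^ j ∣ 2 * w ∧ ¬ (p : ℤ) ^ (j + 1) ∣ 2 * w ∧
      ∀ k : ℕ, p ^ k ∣ N → (p : ℤ) ^ k ∣ x.1 - cx.1 ∧ (p : ℤ) ^ k ∣ x.2 - cx.2 ∧
        (p : ℤ) ^ k ∣ z - cz ∧ (p : ℤ) ^ k ∣ w - cw) →
    ∃ (S J : ℕ) (xc : ℤ × ℤ) (zc wc : ℤ), PD w₀ a f S J xc zc wc ∧ S * J = Q ∧ N ∣ S ∧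
      (N : ℤ) ∣ xc.1 - cx.1 ∧ (N : ℤ) ∣ xc.2 - cx.2 ∧ (N : ℤ) ∣ zc - cz ∧ (N : ℤ) ∣ wc - cw

open scoped Classical in
/-- **BADP** (few bad forms). By homogeneity (weights: `x → μ x`, `z → μ ^ 2 z`) one may assume `x = (1, t)` or
`x = (t, 1)`, `0 ≤ t < p ^ ℓ`. Two solutions `z`, `z'` of `p ^ ℓ ∣ 3 z ^ 2 + a` satisfy
`p ^ (ℓ - 1) ∣ (z - z') (z + z')`, so all solutions lie in two classes modulo `p ^ k`, `2 k ≥ ℓ - 1`, and there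
are at most `2 p ^ ((ℓ + 1) / 2)` modulo `p ^ ℓ`. For given `x = (1, t)` and `z` the conditions on `f(x)` and
`∂₂ f(x)` determine `f 5`, then `f 6` modulo `p ^ ℓ` from `f 0, …, f 4` (`D` is a unit modulo `p`), so there are
at most `(2 H + 1) ^ 5 ((2 H + 1) / p ^ ℓ + 1) ^ 2 ≤ 4 (2 H + 1) ^ 7 / p ^ (2 ℓ)` forms. Total
`≤ 2 p ^ ℓ · 2 p ^ ((ℓ + 1) / 2) · 4 card / p ^ (2 ℓ) = 16 √p / √(p ^ ℓ) card`. -/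
def S_BADP : Prop :=
  ∀ (p ℓ H D : ℕ) (a : Fin (4 + 1) → ℤ), p.Prime → 1 ≤ ℓ → p ^ ℓ ≤ H → ¬ p ∣ D →
    ((((bx 6 H).filter (fun f => BadP p ℓ (sca D a) (scf D f))).card : ℕ) : ℝ) ≤
      16 * p / Real.sqrt ((p : ℝ) ^ ℓ) * (bx 6 H).card

/-- **CAN** (may assume `S_HEN`): `T ^ 2 - (1 + D ^ 4 a + D ^ 6 f)` at `T = 1`, `e = 0` or (`p = 2`) `e = 1`,
`c = 4`. -/
def S_CAN : Prop :=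
  ∀ (p D : ℕ) (a : Fin (4 + 1) → ℤ) (f : Fin (6 + 1) → ℤ), p.Prime → p ∣ D → ∀ E : ℕ,
    ∃ w : ℤ, (p : ℤ) ∣ w - 1 ∧ (p : ℤ) ^ E ∣ Fv (sca D a) (scf D f) (1, 0) 1 w

/-! ## Real data -/

/-- `z ^ 3 + a(x) z + f(x)` in normalised real coordinates -/
noncomputable def GR (h : ℝ) (a : Fin (4 + 1) → ℤ) (f : Fin (6 + 1) → ℤ) (ξ : ℝ × ℝ) (s : ℝ) : ℝ :=
  bf f ξ.1 ξ.2 / h ^ 6 + bf a ξ.1 ξ.2 / h ^ 4 * s + s ^ 3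

/-- an almost singular real point of `z ^ 3 + a(x) z + f(x) = 0` -/
def BadR (κ R h : ℝ) (a : Fin (4 + 1) → ℤ) (f : Fin (6 + 1) → ℤ) : Prop :=
  ∃ (ξ : ℝ × ℝ) (s : ℝ), |ξ.1| ≤ 1 ∧ |ξ.2| ≤ 1 ∧ (|ξ.1| = 1 ∨ |ξ.2| = 1) ∧ |s| ≤ R ∧
    |GR h a f ξ s| ≤ κ ∧ |3 * s ^ 2 + bf a ξ.1 ξ.2 / h ^ 4| ≤ κ ∧
    |bd1 f ξ.1 ξ.2 / h ^ 6 + bd1 a ξ.1 ξ.2 / h ^ 4 * s| ≤ κ ∧
    |bd2 f ξ.1 ξ.2 / h ^ 6 + bd2 a ξ.1 ξ.2 / h ^ 4 * s| ≤ κ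

/-- **RE1** (real points with `r ≠ 0`). If `|r| ≥ γ` nothing is to be done. If `|r| < γ` then `|G(ξ, s)| < γ ^ 2 ≤ κ`, so one
of the three partial derivatives of `G` has absolute value `> κ`. Move this coordinate by `t`,
`|t| = 2 γ ^ 2 / |∂| ≤ 2 γ ^ 2 / κ ≤ δ`, with `t ∂ > 0`: the new value is `r ^ 2 + 2 γ ^ 2 + O(C t ^ 2)`, `C` a bound
for the second derivatives on `|ξ| ≤ 2`, `|s| ≤ R + 1`, and `4 C γ ^ 2 ≤ κ ^ 2`, so it lies in `[γ ^ 2, 4 γ ^ 2]`;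
`r'` is its square root with the sign of `r`. -/
def S_RE1 : Prop :=
  ∀ R δ κ : ℝ, 1 ≤ R → 0 < δ → 0 < κ → ∃ γ : ℝ, 0 < γ ∧ γ ≤ 1 ∧
    ∀ (h : ℝ) (a : Fin (4 + 1) → ℤ) (f : Fin (6 + 1) → ℤ) (ξ : ℝ × ℝ) (s r : ℝ), 1 ≤ h →
    (∀ i, |(a i : ℝ)| ≤ h ^ 4) → (∀ i, |(f i : ℝ)| ≤ h ^ 6) → |ξ.1| ≤ 1 → |ξ.2| ≤ 1 →
    (|ξ.1| = 1 ∨ |ξ.2| = 1) → |s| ≤ R → r ^ 2 = GR h a f ξ s → ¬ BadR κ R h a f →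
    ∃ (ξ' : ℝ × ℝ) (s' r' : ℝ), |ξ'.1| ≤ 2 ∧ |ξ'.2| ≤ 2 ∧ (1 / 2 ≤ |ξ'.1| ∨ 1 / 2 ≤ |ξ'.2|) ∧
      |ξ'.1 - ξ.1| ≤ δ ∧ |ξ'.2 - ξ.2| ≤ δ ∧ |s' - s| ≤ δ ∧ |r' - r| ≤ δ ∧
      r' ^ 2 = GR h a f ξ' s' ∧ γ ≤ |r'|

open scoped Classical in
/-- **BADR** (few bad forms). Let `|ξ.1| = 1` (the other case is symmetric). Cover `ξ.2 ∈ [-1, 1]` and
`s ∈ [-R, R]` by grids of mesh `κ`; at the grid point next to a bad point the four quantities are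
`≤ C κ`. For given `ξ` the set of the `s` with `|3 s ^ 2 + a(ξ) / h ^ 4| ≤ C κ` is contained in two intervals of
length `C' √κ` (`|3 (s - s') (s + s')| ≤ 2 C κ`), so it contains at most `C'' / √κ` grid points. For given grid
points `(ξ, s)` the conditions on `f(ξ)` and `∂₂ f(ξ)` restrict `f 5` and then `f 6` to intervals of length
`2 C κ h ^ 6` for given `f 0, …, f 4`: at most `C κ ^ 2 card` forms (`κ h ^ 6 ≥ 1`). Total `≤ C κ ^ (-1 - 1/2 + 2) card`. -/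
def S_BADR : Prop :=
  ∀ R ε : ℝ, 1 ≤ R → 0 < ε → ∃ κ : ℝ, 0 < κ ∧ κ ≤ 1 ∧ ∃ h₀ : ℕ, 1 ≤ h₀ ∧ ∀ h : ℕ, h₀ ≤ h →
    ∀ a ∈ bx 4 (h ^ 4),
    ((((bx 6 (h ^ 6)).filter (fun f => BadR κ R h a f)).card : ℕ) : ℝ) ≤ ε * (bx 6 (h ^ 6)).card

open scoped Classical in
/-- **AVG** (averaging). Count the pairs `(f, g)` with `f ∈ bx 6 H`, `P f`, `g ∈ bx 6 A`; put `f' = f - q g ∈ bx 6 (2 H)`.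
`(4 H + 1) ^ 7 ≤ 128 (2 H + 1) ^ 7`. -/
def S_AVG : Prop :=
  ∀ (H A q : ℕ) (P : (Fin (6 + 1) → ℤ) → Prop) (ε : ℝ), q * A ≤ H → 0 ≤ ε →
    (∀ f ∈ bx 6 (2 * H), ((((bx 6 A).filter (fun g => P (fun i => f i + q * g i))).card : ℕ) : ℝ) ≤
      ε * (bx 6 A).card) →
    ((((bx 6 H).filter P).card : ℕ) : ℝ) ≤ 128 * ε * (bx 6 H).card

/-! ## Targets -/

/-- local points near a target -/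
def LocS (w₀ D N : ℕ) (cx : ℤ × ℤ) (cz cw : ℤ) (ζ : ℝ × ℝ) (s₀ r₀ δ R h : ℝ)
    (a : Fin (4 + 1) → ℤ) (f : Fin (6 + 1) → ℤ) : Prop :=
  (∀ p : ℕ, p.Prime → p ≤ w₀ → LocP p N cx cz cw (sca D a) (scf D f)) ∧
  ∃ (ξ : ℝ × ℝ) (s r : ℝ), |ξ.1| ≤ 1 ∧ |ξ.2| ≤ 1 ∧ (|ξ.1| = 1 ∨ |ξ.2| = 1) ∧ |s| ≤ R ∧
    |ξ.1 - ζ.1| ≤ δ ∧ |ξ.2 - ζ.2| ≤ δ ∧ |s - s₀| ≤ δ ∧ |r - r₀| ≤ δ ∧ r ^ 2 = GR h a f ξ s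

/-- a global point near a target -/
def SolS (D N : ℕ) (cx : ℤ × ℤ) (cz cw : ℤ) (ζ : ℝ × ℝ) (s₀ r₀ δ h : ℝ)
    (a : Fin (4 + 1) → ℤ) (f : Fin (6 + 1) → ℤ) : Prop :=
  ∃ (x : ℤ × ℤ) (z w : ℤ), IsCoprime x.1 x.2 ∧ Fv (sca D a) (scf D f) x z w = 0 ∧
    (N : ℤ) ∣ x.1 - cx.1 ∧ (N : ℤ) ∣ x.2 - cx.2 ∧ (N : ℤ) ∣ z - cz ∧ (N : ℤ) ∣ w - cw ∧
    |(x.1 : ℝ) - h ^ 2 * ζ.1| ≤ 3 * δ * h ^ 2 ∧ |(x.2 : ℝ) - h ^ 2 * ζ.2| ≤ 3 * δ * h ^ 2 ∧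
    |(z : ℝ) - h ^ 6 * D ^ 2 * s₀| ≤ 3 * δ * h ^ 6 * D ^ 2 ∧
    |(w : ℝ) - h ^ 9 * D ^ 3 * r₀| ≤ 3 * δ * h ^ 9 * D ^ 3

open scoped Classical in
/-- **EXS** (from `S_CLS`, `S_ST1`, `S_STC`, `S_BADP`, `S_RE1`, `S_BADR`, `S_AVG`). `ε' = ε / 512`, `w₁ ≥ m` from `S_CLS`. Choose
`ℓ ≥ 1` with `k ≤ ℓ` for `p ^ k ∣ N` and `∑_{p ≤ m} 16 p / √(p ^ ℓ) ≤ ε / 4`; `κ` from `S_BADR` for `R`, `ε / 4`; `γ` from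
`S_RE1`; `q = (∏_{p ≤ w₀} p) ^ (7 ℓ)`, `Q = D ^ 6 q`; `R' = 8 D ^ 6 (R + 1) ^ 3` etc.; `η` from `S_CLS` with `Q₀ = Q`,
`η₀ ≤ δ`; `A = ⌊η h ^ 6 / Q⌋`, so `q A ≤ h ^ 6`. Let `P f` be: not bad at the primes `p ≤ m`, `p ∤ D`, nor at `∞`, `LocS`
and `¬ SolS`. For such `f` there are `S`, `J`, `xc`, `zc`, `wc` by `S_ST1`, `S_STC` (for `p ∣ D` the first alternative of
`S_ST1`) and `ξ'`, `s'`, `r'` by `S_RE1`. If `f = f' + q g` then `scf D f' = scf D f - Q g` satisfies the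
conditions of `CD` with the same data, `D ^ 2 s'`, `D ^ 3 r'` (`|Q g(ξ') / h ^ 6| ≤ 448 η`), if `r' > 0`; if `r' < 0` use
`- wc`, `- D ^ 3 r'`. `NearS` for `f' + q g'` gives `SolS` (if `r' < 0` change the sign of `w`). So the hypothesis of
`S_AVG` holds with `ε'`: if no `g` satisfies `P (f' + q g)` there is nothing to prove. -/
def S_EXS : Prop :=
  ∀ (m : ℕ) (R ε : ℝ), 1 ≤ R → 0 < ε → ∃ w₁ : ℕ, 2 ≤ w₁ ∧ m ≤ w₁ ∧ ∀ w₀ : ℕ, w₁ ≤ w₀ →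
    ∀ (D N : ℕ) (cx : ℤ × ℤ) (cz cw : ℤ) (ζ : ℝ × ℝ) (s₀ r₀ δ : ℝ), 1 ≤ D → 1 ≤ N →
    (∀ p : ℕ, p.Prime → p ∣ D → p ≤ w₀) → (∀ p : ℕ, p.Prime → m < p → p ≤ w₀ → p ∣ D) →
    (∀ p : ℕ, p.Prime → p ∣ N → p ≤ w₀) → (∀ p : ℕ, p.Prime → p ∣ D → p ∣ N ∧ ¬ (p : ℤ) ∣ cw) →
    0 < δ → ∃ h₀ : ℕ, 1 ≤ h₀ ∧ ∀ h : ℕ, h₀ ≤ h → ∀ a ∈ bx 4 (h ^ 4),
    ((((bx 6 (h ^ 6)).filter (fun f => LocS w₀ D N cx cz cw ζ s₀ r₀ δ R h a f ∧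
      ¬ SolS D N cx cz cw ζ s₀ r₀ δ h a f)).card : ℕ) : ℝ) ≤ ε * (bx 6 (h ^ 6)).card

/-! ## Weak approximation -/

/-- **LPS** (`p`-adic points; may assume `S_HEN`). Write `x = μ₀ x₁` with primitive `x₁ ∈ ℤ_p ^ 2` (divide by a coordinate
of maximal norm and normalise by a power of `p`), `z = μ₀ ^ 2 z₁`, `w = μ₀ ^ 3 w₁`. If `‖z₁‖ ≤ 1` then `‖w₁‖ ≤ 1`; `j = 0`, `μ = μ₀`.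
Otherwise `‖w₁‖ ^ 2 = ‖z₁‖ ^ 3`, `‖z₁‖ = p ^ (2 i)`, `‖w₁‖ = p ^ (3 i)`, `i ≥ 1`, and `μ = μ₀ p ^ (- i)`, `x = μ p ^ i x₁`,
`z = μ ^ 2 z'`, `w = μ ^ 3 w'` with units `z'`, `w'`; `‖μ‖ ^ 2 = ‖z‖ ≤ M ^ 2`. If `i ≤ m` take `j = i`. If `i > m` take
`j = m`, `x' = (1, 0)`, `z' = 1`, `w'` the square root `≡ 1 mod p ^ (4 m - 1)` of `1 + p ^ (4 m) a(1, 0) + p ^ (6 m) f(1, 0)`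
and `μ w' / z'` for `μ` (`z' ^ 3 / w' ^ 2 ≡ 1 mod p ^ (4 i)`), the error is `≤ M p ^ (- m) ≤ M / m`. In all cases `x' / u`, `z'`,
`w'` is an exact `p`-adic point for `D = p ^ j u`; approximate it by integers modulo `p ^ E`, and `cx`, `cz`, `cw`
are its residues modulo `p ^ m`; `λ = μ`, `p ^ (- m) ≤ 1 / m`. -/
def S_LPS : Prop :=
  ∀ (p : ℕ) [Fact p.Prime] (m : ℕ) (a : Fin (4 + 1) → ℤ) (f : Fin (6 + 1) → ℤ)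
    (x : ℚ_[p] × ℚ_[p]) (z w : ℚ_[p]) (M : ℝ), 1 ≤ m → x ≠ 0 →
    w ^ 2 = z ^ 3 + bf a x.1 x.2 * z + bf f x.1 x.2 → ‖x.1‖ ≤ M → ‖x.2‖ ≤ M → ‖z‖ ≤ M ^ 2 →
    ‖w‖ ≤ M ^ 3 → ∃ j : ℕ, j ≤ m ∧ ∀ u : ℕ, Nat.Coprime p u → ∃ (cx : ℤ × ℤ) (cz cw : ℤ),
      (1 ≤ j → ¬ (p : ℤ) ∣ cw) ∧
      (∀ E : ℕ, ∃ (x' : ℤ × ℤ) (z' w' : ℤ), ¬ ((p : ℤ) ∣ x'.1 ∧ (p : ℤ) ∣ x'.2) ∧
        (p : ℤ) ^ E ∣ Fv (sca (p ^ j * u) a) (scf (p ^ j * u) f) x' z' w' ∧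
        (p : ℤ) ^ m ∣ x'.1 - cx.1 ∧ (p : ℤ) ^ m ∣ x'.2 - cx.2 ∧ (p : ℤ) ^ m ∣ z' - cz ∧
        (p : ℤ) ^ m ∣ w' - cw) ∧
      ∀ (x' : ℤ × ℤ) (z' w' : ℤ), (p : ℤ) ^ m ∣ x'.1 - cx.1 → (p : ℤ) ^ m ∣ x'.2 - cx.2 →
        (p : ℤ) ^ m ∣ z' - cz → (p : ℤ) ^ m ∣ w' - cw → ∃ c : ℚ_[p], c ≠ 0 ∧
        ‖x.1 - c * ((p ^ j * u : ℕ) * (x'.1 : ℚ_[p]))‖ ≤ M / m ∧
        ‖x.2 - c * ((p ^ j * u : ℕ) * (x'.2 : ℚ_[p]))‖ ≤ M / m ∧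
        ‖z - c ^ 2 * (z' : ℚ_[p])‖ ≤ M ^ 2 / m ∧ ‖w - c ^ 3 * (w' : ℚ_[p])‖ ≤ M ^ 3 / m

/-- **RPS** (real points). `ν = max |y.1| |y.2|`, `ξ = y / ν`, `K = K(m)` large. If `|s| ≤ (K h ν) ^ 2` let `s₁ = s / (h ν) ^ 2`,
`r₁ = r / (h ν) ^ 3`, and later `c = ν / P`. Otherwise `s > 0` (the right-hand side is `≥ 0`), `s₁ = K ^ 2`,
`r₁ = ± √(K ^ 6 + a(ξ) / h ^ 4 K ^ 2 + f(ξ) / h ^ 6)` with the sign of `r`, and later `c = √s / (P h K)`: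
`ν < √s / (K h) ≤ M / K`, so `|y - c b| ≤ 3 M / K`; `|r₁ / K ^ 3 ∓ 1|` and `|r / s ^ (3 / 2) ∓ 1|` are `≤ 12 / K ^ 4`. -/
def S_RPS : Prop :=
  ∀ m : ℕ, 1 ≤ m → ∃ R δ : ℝ, 1 ≤ R ∧ 0 < δ ∧ ∀ (h : ℝ) (a : Fin (4 + 1) → ℤ)
    (f : Fin (6 + 1) → ℤ) (y : ℝ × ℝ) (s r M : ℝ), 1 ≤ h → (∀ i, |(a i : ℝ)| ≤ h ^ 4) →
    (∀ i, |(f i : ℝ)| ≤ h ^ 6) → y ≠ 0 → r ^ 2 = s ^ 3 + bf a y.1 y.2 * s + bf f y.1 y.2 →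
    |y.1| ≤ M → |y.2| ≤ M → |s| ≤ h ^ 2 * M ^ 2 → |r| ≤ h ^ 3 * M ^ 3 →
    ∃ (ξ : ℝ × ℝ) (s₁ r₁ : ℝ), |ξ.1| ≤ 1 ∧ |ξ.2| ≤ 1 ∧ (|ξ.1| = 1 ∨ |ξ.2| = 1) ∧ |s₁| ≤ R ∧
      |r₁| ≤ R ∧ r₁ ^ 2 = GR h a f ξ s₁ ∧
      ∀ (P : ℝ) (b : ℝ × ℝ) (c d : ℝ), 0 < P → |b.1 - P * ξ.1| ≤ δ * P → |b.2 - P * ξ.2| ≤ δ * P →
        |c - h ^ 2 * P ^ 2 * s₁| ≤ δ * h ^ 2 * P ^ 2 → |d - h ^ 3 * P ^ 3 * r₁| ≤ δ * h ^ 3 * P ^ 3 →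
        ∃ t : ℝ, t ≠ 0 ∧ |y.1 - t * b.1| ≤ M / m ∧ |y.2 - t * b.2| ≤ M / m ∧
          |s - t ^ 2 * c| ≤ h ^ 2 * M ^ 2 / m ∧ |r - t ^ 3 * d| ≤ h ^ 3 * M ^ 3 / m

/-- Weak approximation for `w ^ 2 = z ^ 3 + a(x) z + f(x)`, with precision `1 / m` at the real place and at the
primes up to `m`; `M p` is a bound for the weighted size `max (‖x‖, ‖z‖ ^ (1/2), ‖w‖ ^ (1/3))`. -/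
def WAS (m : ℕ) (h : ℝ) (a : Fin (4 + 1) → ℤ) (f : Fin (6 + 1) → ℤ) : Prop :=
  ∀ (x : ∀ (p : ℕ) [Fact p.Prime], ℚ_[p] × ℚ_[p]) (z w : ∀ (p : ℕ) [Fact p.Prime], ℚ_[p])
    (M : ∀ (p : ℕ) [Fact p.Prime], ℝ) (y : ℝ × ℝ) (s r M₀ : ℝ),
    (∀ (p : ℕ) [Fact p.Prime], x p ≠ 0 ∧
      w p ^ 2 = z p ^ 3 + bf a (x p).1 (x p).2 * z p + bf f (x p).1 (x p).2 ∧
      ‖(x p).1‖ ≤ M p ∧ ‖(x p).2‖ ≤ M p ∧ ‖z p‖ ≤ M p ^ 2 ∧ ‖w p‖ ≤ M p ^ 3) →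
    y ≠ 0 → r ^ 2 = s ^ 3 + bf a y.1 y.2 * s + bf f y.1 y.2 → |y.1| ≤ M₀ → |y.2| ≤ M₀ →
    |s| ≤ h ^ 2 * M₀ ^ 2 → |r| ≤ h ^ 3 * M₀ ^ 3 →
    ∃ (b : ℚ × ℚ) (c d : ℚ), b ≠ 0 ∧ d ^ 2 = c ^ 3 + bf a b.1 b.2 * c + bf f b.1 b.2 ∧
      (∀ (p : ℕ) [Fact p.Prime], p ≤ m → ∃ t : ℚ_[p], t ≠ 0 ∧
        ‖(x p).1 - t * (b.1 : ℚ_[p])‖ ≤ M p / m ∧ ‖(x p).2 - t * (b.2 : ℚ_[p])‖ ≤ M p / m ∧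
        ‖z p - t ^ 2 * (c : ℚ_[p])‖ ≤ M p ^ 2 / m ∧ ‖w p - t ^ 3 * (d : ℚ_[p])‖ ≤ M p ^ 3 / m) ∧
      ∃ t : ℝ, t ≠ 0 ∧ |y.1 - t * b.1| ≤ M₀ / m ∧ |y.2 - t * b.2| ≤ M₀ / m ∧
        |s - t ^ 2 * c| ≤ h ^ 2 * M₀ ^ 2 / m ∧ |r - t ^ 3 * d| ≤ h ^ 3 * M₀ ^ 3 / m

open scoped Classical in
/-- **WAF, the final statement** (from `S_EXS`, `S_LPS`, `S_RPS`, `S_CAN`). `R`, `δ'` from `S_RPS`, `δ = δ' / 4`. Targets: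
`D = ∏_{p ≤ m} p ^ (j_p) · Π`, `Π = ∏_{m < p ≤ w₀} p`, `0 ≤ j_p ≤ m`; `N = N_m Π`, `N_m = ∏_{p ≤ m} p ^ m`; residues modulo
`N_m` of `cx`, `cz`, `cw`, and `cx ≡ (1, 0)`, `cz ≡ cw ≡ 1 mod Π`; `ζ`, `s₀`, `r₀` in grids of mesh `δ`. The number of
the targets does not depend on `w₀`; let `ε' = ε / number`, `w₀ = w₁` from `S_EXS` for `ε'`, and `h₀` the maximum over the
targets. Suppose `f` violates `WAS`, by `x`, `z`, `w`, `M`, `y`, `s`, `r`, `M₀`. For `p ≤ m` take `j_p` from `S_LPS`, then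
`D`, and with `u = D / p ^ (j_p)` the residues modulo `p ^ m` (Chinese remainder theorem); for `m < p ≤ w₀` use `S_CAN`; the real
data from `S_RPS`, and the grid points next to `ξ`, `s₁`, `r₁`. So `LocS` holds for this target, but `SolS` does
not, as otherwise `b = D x`, `c = z`, `d = w` would satisfy the conclusion of `WAS` (`P = h ^ 2 D` in
`S_RPS`; `D ^ 4 a(x) z = a(D x) z`, `D ^ 6 f(x) = f(D x)`). -/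
def S_WAF : Prop :=
  ∀ (m : ℕ) (ε : ℝ), 1 ≤ m → 0 < ε → ∃ h₀ : ℕ, 1 ≤ h₀ ∧ ∀ h : ℕ, h₀ ≤ h → ∀ a ∈ bx 4 (h ^ 4),
    ((((bx 6 (h ^ 6)).filter (fun f => ¬ WAS m h a f)).card : ℕ) : ℝ) ≤ ε * (bx 6 (h ^ 6)).card

end Pool.Agent.H90S
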